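import Pool.Agent.Lib.ALL_h94.NFD
import Pool.Agent.Lib.LU1_h15.Reg
import Pool.Agent.Lib.ALL5.Fr

/-!
# Dimension and regularity of the noetherian levels, `D` free parameters

`NFD.R` has dimension `n` (the transcendence degree), `Ω` is algebraic over `k[x, y]`, and for
`n = r + D` no power of a parameter is in the ideal generated by the other ones.
-/

set_option autoImplicit false

namespace Pool.Agent.ALL

open Pool.Agent.H15JM (RVal)
open Pool.Agent.LU1 (VPos locv le_locv locv_inv locv_isNoetherian)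
open Pool.Agent.LU3 (Ctx0)
open Pool.Agent.ALLh94 (NFD)

universe u

/-- If a prime ideal `P` of a noetherian ring is generated by the image of a maximal ideal `p` of a
finitely generated domain `A`, and the height of `P` is at least the transcendence degree `n` of
`Ω`, then `Ω` is algebraic over `A`. -/
theorem alg_of_height {k A R Ω : Type u} [Field k] [CommRing A] [IsDomain A] [Algebra k A]
    [Algebra.FiniteType k A] [CommRing R] [IsNoetherianRing R] [Algebra A R] [Field Ω]
    [Algebra k Ω] [Algebra A Ω] [IsScalarTower k A Ω] [FaithfulSMul A Ω] (n : ℕ)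
    (hn : Algebra.trdeg k Ω = n) (P : Ideal R) [P.IsPrime] (p : Ideal A) (hp : p.IsMaximal)
    (hPp : P.comap (algebraMap A R) = p) (hgen : P ≤ p.map (algebraMap A R))
    (hP : (n : ℕ∞) ≤ P.height) : Algebra.IsAlgebraic A Ω := by
  classical
  obtain ⟨s, g, hinj, hint⟩ := exists_integral_inj_algHom_of_fg k A
  let _ : Algebra (MvPolynomial (Fin s) k) A := g.toRingHom.toAlgebra
  have h1 : Algebra.IsIntegral (MvPolynomial (Fin s) k) A := ⟨hint⟩
  let ψ : MvPolynomial (Fin s) k →+* R :=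
    (algebraMap A R).comp (algebraMap (MvPolynomial (Fin s) k) A)
  set q : Ideal (MvPolynomial (Fin s) k) := p.comap (algebraMap (MvPolynomial (Fin s) k) A)
    with hq
  have hqm : q.IsMaximal := Ideal.isMaximal_comap_of_isIntegral_of_isMaximal p
  have hqp : q.IsPrime := hqm.isPrime
  obtain ⟨t, ht, htc⟩ := q.exists_finset_card_eq_height_of_isNoetherianRing
  rw [Pool.Agent.LU1.RegAux.height_mv k s q hqm] at htc
  have hmin : P ∈ (Ideal.span ((t.image ψ : Finset R) : Set R)).minimalPrimes := by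
    refine ⟨⟨inferInstance, ?_⟩, ?_⟩
    · rw [Ideal.span_le]
      intro x hx
      obtain ⟨a, ha, rfl⟩ := Finset.mem_image.1 (Finset.mem_coe.1 hx)
      have h2 : a ∈ q := ht.1.2 (Ideal.subset_span (Finset.mem_coe.2 ha))
      have h3 : algebraMap (MvPolynomial (Fin s) k) A a ∈ p := h2
      rw [← hPp] at h3
      exact h3
    · rintro Q ⟨hQ, htQ⟩ hQP
      have hQ1 : (Q.comap ψ).IsPrime := Ideal.comap_isPrime ψ Q
      have h2 : Q.comap ψ ≤ q := by
        intro a ha
        have h3 : algebraMap (MvPolynomial (Fin s) k) A a ∈ P.comap (algebraMap A R) := hQP ha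
        rw [hPp] at h3
        exact h3
      have h3 : Ideal.span (t : Set (MvPolynomial (Fin s) k)) ≤ Q.comap ψ := by
        rw [Ideal.span_le]
        intro a ha
        exact htQ (Ideal.subset_span (Finset.mem_coe.2 (Finset.mem_image_of_mem ψ
          (Finset.mem_coe.1 ha))))
      have h4 : q ≤ Q.comap ψ := ht.2 ⟨hQ1, h3⟩ h2
      have h5 : Q.comap ψ = q := le_antisymm h2 h4
      have hQA : (Q.comap (algebraMap A R)).IsPrime := Ideal.comap_isPrime _ Q
      have h6 : (Q.comap (algebraMap A R)).IsMaximal := by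
        apply Ideal.isMaximal_of_isIntegral_of_isMaximal_comap (R := MvPolynomial (Fin s) k)
        have h7 : (Q.comap (algebraMap A R)).comap (algebraMap (MvPolynomial (Fin s) k) A) = q := by
          rw [Ideal.comap_comap]
          exact h5
        rw [h7]
        exact hqm
      have h8 : Q.comap (algebraMap A R) ≤ p := by
        rw [← hPp]
        exact Ideal.comap_mono hQP
      have h9 : Q.comap (algebraMap A R) = p := h6.eq_of_le hp.ne_top h8
      refine hgen.trans ?_
      rw [Ideal.map_le_iff_le_comap, h9]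
  have h2 := Ideal.height_le_card_of_mem_minimalPrimes_span_finset hmin
  have h3 : (t.image ψ).card ≤ s := by
    refine Finset.card_image_le.trans ?_
    exact_mod_cast htc.le
  have hns : n ≤ s := by
    have h4 : (n : ℕ∞) ≤ ((t.image ψ).card : ℕ∞) := hP.trans h2
    have h5 : n ≤ (t.image ψ).card := by exact_mod_cast h4
    exact h5.trans h3
  -- the transcendence degree
  let _ : Algebra (MvPolynomial (Fin s) k) Ω :=
    ((algebraMap A Ω).comp (algebraMap (MvPolynomial (Fin s) k) A)).toAlgebra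
  have h7 : IsScalarTower (MvPolynomial (Fin s) k) A Ω := IsScalarTower.of_algebraMap_eq fun _ => rfl
  have h8 : IsScalarTower k (MvPolynomial (Fin s) k) Ω := by
    refine IsScalarTower.of_algebraMap_eq fun c => ?_
    change algebraMap k Ω c = algebraMap A Ω (g (algebraMap k _ c))
    rw [g.commutes, ← IsScalarTower.algebraMap_apply k A Ω]
  have h9 : FaithfulSMul (MvPolynomial (Fin s) k) Ω := by
    rw [faithfulSMul_iff_algebraMap_injective]
    exact (FaithfulSMul.algebraMap_injective A Ω).comp hinj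
  have h11 : Algebra.trdeg k (MvPolynomial (Fin s) k) +
      Algebra.trdeg (MvPolynomial (Fin s) k) Ω = Algebra.trdeg k Ω :=
    trdeg_add_eq k (MvPolynomial (Fin s) k)
  rw [MvPolynomial.trdeg_of_isDomain, hn] at h11
  simp only [Cardinal.mk_fin, Cardinal.lift_natCast] at h11
  have h12 : Algebra.trdeg (MvPolynomial (Fin s) k) Ω = 0 := by
    have h13 : Algebra.trdeg (MvPolynomial (Fin s) k) Ω < Cardinal.aleph0 := by
      refine lt_of_le_of_lt (self_le_add_left _ (s : Cardinal)) ?_
      rw [h11]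
      exact Cardinal.natCast_lt_aleph0
    obtain ⟨m, hm⟩ := Cardinal.lt_aleph0.1 h13
    rw [hm] at h11 ⊢
    have h14 : s + m = n := by exact_mod_cast h11
    have h15 : m = 0 := by omega
    rw [h15]
    rfl
  have h13 : Algebra.IsAlgebraic (MvPolynomial (Fin s) k) Ω := trdeg_eq_zero_iff.1 h12
  exact Algebra.IsAlgebraic.extendScalars (R := MvPolynomial (Fin s) k) (S := A) hinj

variable {k Ω : Type u} [Field k] [Field Ω] [Algebra k Ω] {v : RVal Ω} {n r D : ℕ}

section NFD

variable (N : NFD k v r D)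

theorem nfd_isNoetherian : IsNoetherianRing N.R := by
  obtain ⟨F, hF⟩ := N.fgen
  rw [hF]
  exact locv_isNoetherian _ ⟨F, rfl⟩

theorem nfd_inv_mem {f : Ω} (hf : f ∈ N.R) (h0 : f ≠ 0) (h1 : v f = 0) : f⁻¹ ∈ N.R := by
  obtain ⟨F, hF⟩ := N.fgen
  rw [hF] at hf ⊢
  exact locv_inv hf h0 h1

theorem nfd_mem_nonunits (z : N.R) : ¬ IsUnit z ↔ VPos v (z : Ω) := by
  constructor
  · intro hz h0
    by_contra h1
    apply hz
    have hv : v (z : Ω) = 0 := le_antisymm (not_lt.1 h1) (N.nonneg z z.2 h0)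
    refine IsUnit.of_mul_eq_one ⟨(z : Ω)⁻¹, nfd_inv_mem N z.2 h0 hv⟩ ?_
    apply Subtype.ext
    exact mul_inv_cancel₀ h0
  · intro hz hu
    obtain ⟨w, hw⟩ := hu.exists_right_inv
    have h1 : (z : Ω) * w = 1 := congrArg (fun t : N.R => (t : Ω)) hw
    have h2 : (z : Ω) * w ≠ 0 := by
      rw [h1]
      exact one_ne_zero
    have h3 := left_ne_zero_of_mul h2
    have h4 := right_ne_zero_of_mul h2
    have h5 : v ((z : Ω) * w) = 0 := by
      rw [h1]
      exact v.map_one
    rw [v.map_mul h3 h4] at h5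
    have h6 := hz h3
    have h7 := N.nonneg w w.2 h4
    linarith

theorem nfd_isLocalRing : IsLocalRing N.R := by
  refine IsLocalRing.of_nonunits_add fun a b ha hb => ?_
  rw [mem_nonunits_iff, nfd_mem_nonunits] at ha hb ⊢
  rw [Subalgebra.coe_add]
  exact ha.add hb

theorem nfd_dim_ge (h : Ctx0 k v n) : ((n : ℕ) : WithBot ℕ∞) ≤ ringKrullDim N.R := by
  obtain ⟨F, hF⟩ := N.fgen
  let A : Subalgebra k Ω := Algebra.adjoin k (F : Set Ω)
  have hle : A ≤ N.R := by
    rw [hF]
    exact le_locv A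
  have hA0 : ∀ a ∈ A, v.Ge 0 a := fun a ha => N.nonneg a (hle ha)
  let _ : Algebra A N.R := (Subalgebra.inclusion hle).toRingHom.toAlgebra
  let p : Ideal A :=
    { carrier := {a | VPos v (a : Ω)}
      add_mem' := fun {a b} ha hb => by
        have := VPos.add ha hb
        exact this
      zero_mem' := LU1.VPos.zero
      smul_mem' := fun c a ha => by
        have := LU1.VPos.mul' (hA0 c c.2) ha
        exact this }
  have hmem : ∀ a : A, a ∈ p ↔ VPos v (a : Ω) := fun a => Iff.rfl
  have h1p : (1 : A) ∉ p := by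
    intro h1
    have h2 := ((hmem 1).1 h1) one_ne_zero
    have h3 : v ((1 : A) : Ω) = 0 := v.map_one
    rw [h3] at h2
    exact lt_irrefl _ h2
  have hp : p.IsMaximal := by
    rw [Ideal.isMaximal_iff]
    refine ⟨h1p, fun J x hJ hx hxJ => ?_⟩
    obtain ⟨c, hc⟩ := ALLh94.ctx_residue h (hA0 x x.2)
    have hxc : x - algebraMap k A c ∈ p := hc
    have hc0 : c ≠ 0 := by
      rintro rfl
      rw [_root_.map_zero, sub_zero] at hxc
      exact hx hxc
    have h2 : algebraMap k A c ∈ J := by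
      have h3 := J.sub_mem hxJ (hJ hxc)
      rwa [sub_sub_cancel] at h3
    have h4 := J.mul_mem_left (algebraMap k A c⁻¹) h2
    rwa [← _root_.map_mul, inv_mul_cancel₀ hc0, _root_.map_one] at h4
  have hpr : p.IsPrime := hp.isPrime
  have hloc : IsLocalization.AtPrime N.R p := by
    rw [IsLocalization.AtPrime, isLocalization_iff]
    refine ⟨?_, ?_, ?_⟩
    · rintro ⟨y, hy⟩
      have hy0 : (y : Ω) ≠ 0 := by
        intro h0
        apply hy
        rw [SetLike.mem_coe, hmem, h0]
        exact LU1.VPos.zero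
      have hyv : v (y : Ω) = 0 := by
        by_contra h1
        apply hy
        rw [SetLike.mem_coe, hmem]
        intro _
        exact lt_of_le_of_ne (hA0 y y.2 hy0) (Ne.symm h1)
      have hinv : (y : Ω)⁻¹ ∈ N.R := by
        rw [hF]
        exact locv_inv (le_locv A y.2) hy0 hyv
      refine IsUnit.of_mul_eq_one ⟨(y : Ω)⁻¹, hinv⟩ ?_
      apply Subtype.ext
      exact mul_inv_cancel₀ hy0
    · rintro ⟨z, hzR⟩
      have hz : z ∈ locv v A := by
        rw [← hF]
        exact hzR
      obtain ⟨a, ha, b, hb, hb0, hvb, hab⟩ := hz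
      refine ⟨(⟨a, ha⟩, ⟨⟨b, hb⟩, ?_⟩), ?_⟩
      · intro h1
        have h2 := ((hmem _).1 h1) hb0
        change 0 < v b at h2
        rw [hvb] at h2
        exact lt_irrefl _ h2
      · apply Subtype.ext
        change z * b = a
        rw [hab, div_mul_cancel₀ _ hb0]
    · intro x y hxy
      refine ⟨1, ?_⟩
      have h1 : (x : Ω) = y := congrArg (fun t : N.R => (t : Ω)) hxy
      rw [Subtype.ext h1]
  have hft : Algebra.FiniteType k A := (Subalgebra.fg_iff_finiteType _).1 ⟨F, rfl⟩
  have htow : IsScalarTower A N.R Ω := IsScalarTower.of_algebraMap_eq fun _ => rfl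
  have halg1 : Algebra.IsAlgebraic A N.R := IsLocalization.isAlgebraic N.R p.primeCompl
  have halg2 : Algebra.IsAlgebraic N.R Ω := ⟨N.alg⟩
  have halg : Algebra.IsAlgebraic A Ω := Algebra.IsAlgebraic.trans A N.R Ω
  have h1 := Pool.Agent.LU1.RegAux.le_height (A := A) n h.trdeg p hp
  rw [IsLocalization.AtPrime.ringKrullDim_eq_height p N.R]
  exact_mod_cast h1

/-- The parameters. -/
def nfdPar (o : Fin r ⊕ Fin D) : N.R :=
  Sum.elim (fun i => ⟨N.x i, N.x_mem i⟩) (fun j => ⟨N.y j, N.y_mem j⟩) o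

theorem nfd_vpos_par (o : Fin r ⊕ Fin D) : VPos v (nfdPar N o : Ω) := by
  cases o with
  | inl i => exact fun _ => N.x_pos i
  | inr j => exact fun _ => N.y_pos j

theorem nfd_mem_span_par {z : N.R} (hz : VPos v (z : Ω)) :
    z ∈ Ideal.span (Set.range (nfdPar N)) := by
  obtain ⟨a, ha, b, hb, hab⟩ := N.gen z z.2 hz
  have h1 : z = ∑ i, nfdPar N (Sum.inl i) * ⟨a i, ha i⟩ +
      ∑ j, nfdPar N (Sum.inr j) * ⟨b j, hb j⟩ := by
    apply Subtype.ext
    rw [hab]
    push_cast
    rfl
  rw [h1]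
  refine Ideal.add_mem _ (Ideal.sum_mem _ fun i _ => ?_) (Ideal.sum_mem _ fun j _ => ?_)
  · exact Ideal.mul_mem_right _ _ (Ideal.subset_span ⟨_, rfl⟩)
  · exact Ideal.mul_mem_right _ _ (Ideal.subset_span ⟨_, rfl⟩)

theorem nfd_maximalIdeal_eq [IsLocalRing N.R] :
    IsLocalRing.maximalIdeal N.R = Ideal.span (Set.range (nfdPar N)) := by
  apply le_antisymm
  · intro z hz
    rw [IsLocalRing.mem_maximalIdeal, mem_nonunits_iff, nfd_mem_nonunits] at hz
    exact nfd_mem_span_par N hz
  · rw [Ideal.span_le]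
    rintro _ ⟨o, rfl⟩
    rw [SetLike.mem_coe, IsLocalRing.mem_maximalIdeal, mem_nonunits_iff, nfd_mem_nonunits]
    exact nfd_vpos_par N o

theorem nfd_height_ge (h : Ctx0 k v n) [IsLocalRing N.R] :
    (n : ℕ∞) ≤ (IsLocalRing.maximalIdeal N.R).height := by
  have h1 := nfd_dim_ge N h
  rw [← IsLocalRing.maximalIdeal_height_eq_ringKrullDim] at h1
  exact_mod_cast h1

/-- `Ω` is algebraic over `k[x, y]`. -/
theorem nfd_alg (h : Ctx0 k v n) (g : Ω) :
    IsAlgebraic (Algebra.adjoin k (Set.range N.x ∪ Set.range N.y)) g := by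
  classical
  have h1 := nfd_isNoetherian N
  have h2 := nfd_isLocalRing N
  let A : Subalgebra k Ω := Algebra.adjoin k (Set.range N.x ∪ Set.range N.y)
  have hle : A ≤ N.R := by
    refine Algebra.adjoin_le ?_
    rintro _ (⟨i, rfl⟩ | ⟨j, rfl⟩)
    · exact N.x_mem i
    · exact N.y_mem j
  let _ : Algebra A N.R := (Subalgebra.inclusion hle).toRingHom.toAlgebra
  have hft : Algebra.FiniteType k A := by
    refine (Subalgebra.fg_iff_finiteType _).1 ?_
    refine ⟨Finset.univ.image N.x ∪ Finset.univ.image N.y, ?_⟩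
    simp only [Finset.coe_union, Finset.coe_image, Finset.coe_univ, Set.image_univ]
    rfl
  set P := IsLocalRing.maximalIdeal N.R with hPdef
  have hPm : P.IsPrime := (IsLocalRing.maximalIdeal.isMaximal N.R).isPrime
  set p : Ideal A := P.comap (algebraMap A N.R) with hp
  have hmemP : ∀ z : N.R, z ∈ P ↔ VPos v (z : Ω) := fun z => by
    rw [hPdef, IsLocalRing.mem_maximalIdeal, mem_nonunits_iff, nfd_mem_nonunits]
  have hmem : ∀ a : A, a ∈ p ↔ VPos v (a : Ω) := fun a => hmemP _
  have hpm : p.IsMaximal := by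
    rw [Ideal.isMaximal_iff]
    refine ⟨?_, fun J x hJ hx hxJ => ?_⟩
    · intro h3
      have h4 := ((hmem 1).1 h3) one_ne_zero
      have h5 : v ((1 : A) : Ω) = 0 := v.map_one
      rw [h5] at h4
      exact lt_irrefl _ h4
    obtain ⟨c, hc⟩ := ALLh94.ctx_residue h (N.nonneg x (hle x.2))
    have hxc : x - algebraMap k A c ∈ p := (hmem _).2 hc
    have hc0 : c ≠ 0 := by
      rintro rfl
      rw [_root_.map_zero, sub_zero] at hxc
      exact hx hxc
    have h2 : algebraMap k A c ∈ J := by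
      have h3 := J.sub_mem hxJ (hJ hxc)
      rwa [sub_sub_cancel] at h3
    have h4 := J.mul_mem_left (algebraMap k A c⁻¹) h2
    rwa [← _root_.map_mul, inv_mul_cancel₀ hc0, _root_.map_one] at h4
  have hgen : P ≤ p.map (algebraMap A N.R) := by
    rw [hPdef, nfd_maximalIdeal_eq, Ideal.span_le]
    rintro _ ⟨o, rfl⟩
    cases o with
    | inl i =>
      have h3 : (⟨N.x i, Algebra.subset_adjoin (Or.inl ⟨i, rfl⟩)⟩ : A) ∈ p :=
        (hmem _).2 fun _ => N.x_pos i
      exact Ideal.mem_map_of_mem (algebraMap A N.R) h3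
    | inr j =>
      have h3 : (⟨N.y j, Algebra.subset_adjoin (Or.inr ⟨j, rfl⟩)⟩ : A) ∈ p :=
        (hmem _).2 fun _ => N.y_pos j
      exact Ideal.mem_map_of_mem (algebraMap A N.R) h3
  have h3 := alg_of_height (k := k) (A := A) (R := N.R) (Ω := Ω) n h.trdeg P p hpm rfl hgen
    (nfd_height_ge N h)
  exact h3.isAlgebraic g

/-- For `n = r + D` the parameters are independent: no power of a parameter is in the ideal
generated by the other ones. -/
theorem nfd_reg (h : Ctx0 k v n) (hn : n = r + D) (o : Fin r ⊕ Fin D) (m : ℕ)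
    (a : Fin r ⊕ Fin D → N.R) :
    nfdPar N o ^ m ≠ ∑ o' ∈ Finset.univ.erase o, nfdPar N o' * a o' := by
  classical
  intro hy
  have h1 := nfd_isNoetherian N
  have h2 := nfd_isLocalRing N
  let s : Finset N.R := (Finset.univ.erase o).image (nfdPar N)
  have hyJ : nfdPar N o ^ m ∈ Ideal.span (s : Set N.R) := by
    rw [hy]
    refine Ideal.sum_mem _ fun i hi => Ideal.mul_mem_right _ _ (Ideal.subset_span ?_)
    exact Finset.mem_coe.2 (Finset.mem_image_of_mem _ hi)
  have hmin : IsLocalRing.maximalIdeal N.R ∈ (Ideal.span (s : Set N.R)).minimalPrimes := by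
    refine ⟨⟨(IsLocalRing.maximalIdeal.isMaximal N.R).isPrime, ?_⟩, ?_⟩
    · rw [nfd_maximalIdeal_eq]
      apply Ideal.span_mono
      intro z hz
      obtain ⟨i, -, rfl⟩ := Finset.mem_image.1 (Finset.mem_coe.1 hz)
      exact ⟨i, rfl⟩
    · rintro q ⟨hq, hJq⟩ _
      rw [nfd_maximalIdeal_eq, Ideal.span_le]
      rintro _ ⟨o', rfl⟩
      by_cases ho : o' = o
      · rw [ho]
        exact hq.mem_of_pow_mem m (hJq hyJ)
      · exact hJq (Ideal.subset_span (Finset.mem_coe.2
          (Finset.mem_image_of_mem _ (Finset.mem_erase.2 ⟨ho, Finset.mem_univ _⟩))))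
  have h3 := Ideal.height_le_card_of_mem_minimalPrimes_span_finset hmin
  have h4 : s.card + 1 ≤ n := by
    have h5 : s.card ≤ (Finset.univ.erase o).card := Finset.card_image_le
    rw [Finset.card_erase_of_mem (Finset.mem_univ o), Finset.card_univ, Fintype.card_sum,
      Fintype.card_fin, Fintype.card_fin] at h5
    have h6 : 0 < r + D := by
      cases o with
      | inl i => have := i.pos; omega
      | inr j => have := j.pos; omega
    omega
  have h5 := nfd_height_ge N h
  have h6 : (n : ℕ∞) ≤ (s.card : ℕ∞) := h5.trans h3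
  have h7 : n ≤ s.card := by exact_mod_cast h6
  omega

end NFD

/-! ### frames -/

section FRpart

variable {k Ω : Type u} [Field k] [Field Ω] [Algebra k Ω] {v : RVal Ω} {n r D d : ℕ}

/-- K1: the field `Ω` is algebraic over the parameters of a frame. -/
theorem fr_alg0 (h : TA.CtxR k v n r) (hr : 0 < r) (F : FR k v D) (g : Ω) :
    IsAlgebraic (Algebra.adjoin k (F.χ '' {γ | γ ∈ F.Γ} ∪ Set.range F.y)) g := by
  obtain ⟨S0, G, hS0, -, -, hG⟩ := ALLh94.fr_exists_NFD h.toCtx0 hr F ∅ (by simp)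
  obtain ⟨u, hu⟩ := ALLh94.fr_exists_basis h hr F S0 hS0
  obtain ⟨N, hx, hy, -, -, -⟩ := hG u hu
  refine LU1.isAlgebraic_of_le ?_ (nfd_alg N h.toCtx0 g)
  refine Algebra.adjoin_mono (Set.union_subset_union ?_ ?_)
  · rintro _ ⟨i, rfl⟩
    exact ⟨u i, hu.mem i, (hx i).symm⟩
  · rw [hy]

/-- No power of the parameter `y j` is in the ideal generated by the other parameters and the
monomials of positive value. -/
theorem fr_reg (h : TA.CtxR k v n r) (hr : 0 < r) (hn : n = r + D) (F : FR k v D) (j : Fin D)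
    (m : ℕ) {γ : ℝ} (hγ : γ ∈ F.Γ) (h0 : 0 < γ) {a : Ω} (ha : a ∈ F.R) (b : Fin D → Ω)
    (hb : ∀ i, b i ∈ F.R) :
    F.y j ^ m ≠ F.χ γ * a + ∑ i ∈ Finset.univ.erase j, F.y i * b i := by
  classical
  intro hy
  obtain ⟨S0, G, hS0, -, -, hG⟩ := ALLh94.fr_exists_NFD h.toCtx0 hr F
    (insert a (Finset.univ.image b)) (by
    intro f hf
    rcases Finset.mem_insert.1 hf with rfl | hf
    · exact ha
    · obtain ⟨i, -, rfl⟩ := Finset.mem_image.1 hf
      exact hb i)
  obtain ⟨u, hu⟩ := ALLh94.fr_exists_basis h hr F (insert γ S0) (by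
    intro δ hδ
    rcases Finset.mem_insert.1 hδ with rfl | hδ
    · exact ⟨hγ, h0⟩
    · exact hS0 δ hδ)
  have hu0 : LU1.GoodBasis F.Γ (S0 : Set ℝ) u :=
    ⟨hu.mem, hu.pos, hu.ind, hu.gen, fun δ hδ => hu.cone δ
      (Finset.mem_coe.2 (Finset.mem_insert_of_mem (Finset.mem_coe.1 hδ)))⟩
  obtain ⟨N, hx, hNy, -, hNR, hTN⟩ := hG u hu0
  have haN : a ∈ N.R := hTN a (Finset.mem_insert_self _ _)
  have hbN : ∀ i, b i ∈ N.R := fun i => hTN _ (Finset.mem_insert_of_mem
    (Finset.mem_image_of_mem b (Finset.mem_univ i)))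
  obtain ⟨e, he, heγ⟩ := hu.cone γ (Finset.mem_coe.2 (Finset.mem_insert_self γ S0))
  have h1 := (ALLh94.χ_sum F Finset.univ u hu.mem fun i => (e i : ℤ)).2
  simp only [Int.cast_natCast] at h1
  rw [← heγ] at h1
  let i0 : Fin r := ⟨0, hr⟩
  have h2 : F.χ γ = N.x i0 * (N.x i0 ^ (e i0 - 1) *
      ∏ i ∈ Finset.univ.erase i0, N.x i ^ e i) := by
    rw [h1]
    have h3 : ∀ i, F.χ (u i) ^ (e i : ℤ) = N.x i ^ e i := fun i => by
      rw [zpow_natCast, hx i]
    simp only [h3]
    rw [← Finset.mul_prod_erase Finset.univ _ (Finset.mem_univ i0), ← mul_assoc, ← pow_succ',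
      Nat.sub_add_cancel (he i0)]
  have h3 : N.x i0 ^ (e i0 - 1) * ∏ i ∈ Finset.univ.erase i0, N.x i ^ e i ∈ N.R :=
    N.R.mul_mem (N.R.pow_mem (N.x_mem i0) _)
      (N.R.prod_mem fun i _ => N.R.pow_mem (N.x_mem i) _)
  let c : Fin r ⊕ Fin D → N.R := Sum.elim
    (fun i => if i = i0 then ⟨_, N.R.mul_mem h3 haN⟩ else 0) (fun i => ⟨b i, hbN i⟩)
  apply nfd_reg N h.toCtx0 hn (Sum.inr j) m c
  have h4 : (Finset.univ.erase (Sum.inr j : Fin r ⊕ Fin D)) =
      (Finset.univ : Finset (Fin r)).disjSum (Finset.univ.erase j) := by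
    ext o
    cases o with
    | inl i => simp
    | inr i => simp
  rw [h4, Finset.sum_disjSum]
  apply Subtype.ext
  have h5 : ((nfdPar N (Sum.inr j) : N.R) : Ω) = F.y j := by
    change N.y j = F.y j
    rw [hNy]
  rw [Subalgebra.coe_pow, h5, hy, Subalgebra.coe_add, AddSubmonoidClass.coe_finsetSum,
    AddSubmonoidClass.coe_finsetSum]
  congr 1
  · rw [Finset.sum_eq_single i0]
    · change _ = N.x i0 * ((if i0 = i0 then (⟨_, N.R.mul_mem h3 haN⟩ : N.R) else 0 : N.R) : Ω)
      rw [if_pos rfl, h2]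
      change _ = N.x i0 * (_ * a)
      ring
    · intro i _ hi
      change N.x i * ((if i = i0 then (⟨_, N.R.mul_mem h3 haN⟩ : N.R) else 0 : N.R) : Ω) = 0
      rw [if_neg hi]
      simp
    · intro hi
      exact absurd (Finset.mem_univ i0) hi
  · refine Finset.sum_congr rfl fun i _ => ?_
    change F.y i * b i = N.y i * b i
    rw [hNy]

end FRpart

end Pool.Agent.ALL
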