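import Pool.Agent.Lib.ALL5.Rows
import Pool.Agent.Lib.ALL5.Reg5

/-!
# Approximation of the elements of a frame by polynomials in the parameters (row 5f)
-/

set_option autoImplicit false

namespace Pool.Agent.ALL

open Pool.Agent.H15JM (RVal)
open Pool.Agent.LU1 (VPos locv quo le_locv locv_inv locv_le locv_mono le_quo)

universe u

variable {k Ω : Type u} [Field k] [Field Ω] [Algebra k Ω] {v : RVal Ω} {n r D : ℕ}

/-- Multiplication by a monomial in the parameters. -/
theorem hi_mul (F : FR k v D) {C c : ℝ} {γ : ℝ} (hγ : γ ∈ F.Γ) (h0 : 0 ≤ γ) (e : Fin D → ℕ)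
    (hc : c ≤ γ + ∑ i, (e i : ℝ) * v (F.y i)) {x : Ω} (hx : x ∈ F.Hi C) :
    F.χ γ * (∏ i, F.y i ^ e i) * x ∈ F.Hi (c + C) := by
  unfold FR.Hi at hx ⊢
  induction hx using Submodule.span_induction with
  | mem x hx =>
    obtain ⟨δ, hδ, h1, e', he', a, ha, rfl⟩ := hx
    refine Submodule.subset_span ⟨γ + δ, F.Γ.add_mem hγ hδ, add_nonneg h0 h1,
      fun i => e i + e' i, ?_, a, ha, ?_⟩
    · push_cast
      simp only [add_mul, Finset.sum_add_distrib]
      linarith
    · rw [F.χ_add γ hγ δ hδ]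
      simp only [pow_add, Finset.prod_mul_distrib]
      ring
  | zero => rw [mul_zero]; exact Submodule.zero_mem _
  | add x y _ _ hx hy => rw [mul_add]; exact Submodule.add_mem _ hx hy
  | smul a x _ hx => rw [mul_smul_comm]; exact Submodule.smul_mem _ _ hx

theorem hi_χ (F : FR k v D) {C γ : ℝ} (hγ : γ ∈ F.Γ) (h0 : 0 ≤ γ) {x : Ω} (hx : x ∈ F.Hi C) :
    F.χ γ * x ∈ F.Hi (γ + C) := by
  have h1 := hi_mul F hγ h0 0 (c := γ) (by simp) hx
  simpa using h1

theorem hi_y (F : FR k v D) {C : ℝ} (j : Fin D) {x : Ω} (hx : x ∈ F.Hi C) :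
    F.y j * x ∈ F.Hi (v (F.y j) + C) := by
  classical
  have h1 := hi_mul F F.Γ.zero_mem le_rfl (Pi.single j 1) (c := v (F.y j)) (by
    rw [zero_add, Finset.sum_eq_single j]
    · simp
    · intro i _ hi
      rw [Pi.single_eq_of_ne hi]; simp
    · intro hj; exact absurd (Finset.mem_univ j) hj) hx
  rw [F.χ_zero, one_mul, Finset.prod_eq_single j] at h1
  · simpa using h1
  · intro i _ hi
    rw [Pi.single_eq_of_ne hi, pow_zero]
  · intro hj; exact absurd (Finset.mem_univ j) hj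

theorem hi_mono (F : FR k v D) {C C' : ℝ} (h : C' ≤ C) : F.Hi C ≤ F.Hi C' := by
  unfold FR.Hi
  refine Submodule.span_mono ?_
  rintro x ⟨γ, hγ, h0, e, he, a, ha, rfl⟩
  exact ⟨γ, hγ, h0, e, h.trans he, a, ha, rfl⟩

theorem mem_hi_zero (F : FR k v D) {a : Ω} (ha : a ∈ F.R) : a ∈ F.Hi 0 := by
  unfold FR.Hi
  exact Submodule.subset_span ⟨0, F.Γ.zero_mem, le_rfl, 0, by simp, a, ha, by
    rw [F.χ_zero]; simp⟩

/-- Row 5f. -/
theorem row5f (k : Type u) [Field k] : Row5f k := by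
  classical
  intro Ω _ _ v n r D h hr F f hf C
  obtain ⟨S0, G, hS0, -, -, hG⟩ := ALLh94.fr_exists_NFD h.toCtx0 hr F {f} (by
    intro g hg
    rw [Finset.mem_singleton.1 hg]
    exact hf)
  obtain ⟨u, hu⟩ := ALLh94.fr_exists_basis h hr F S0 hS0
  obtain ⟨N, hx, hy, -, hNR, hfN⟩ := hG u hu
  have hfN' : f ∈ N.R := hfN f (Finset.mem_singleton_self f)
  -- a lower bound for the values of the parameters
  obtain ⟨ε, hε, hεu, hεy⟩ : ∃ ε : ℝ, 0 < ε ∧ (∀ i, ε ≤ u i) ∧ ∀ j, ε ≤ v (F.y j) := by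
    have h1 : ∀ (s : Finset (Fin r)), ∃ ε : ℝ, 0 < ε ∧ ∀ i ∈ s, ε ≤ u i := by
      intro s
      induction s using Finset.induction_on with
      | empty => exact ⟨1, one_pos, by simp⟩
      | insert i s _ ih =>
        obtain ⟨ε, h1, h2⟩ := ih
        refine ⟨min ε (u i), lt_min h1 (hu.pos i), fun j hj => ?_⟩
        rcases Finset.mem_insert.1 hj with rfl | hj
        · exact min_le_right _ _
        · exact (min_le_left _ _).trans (h2 j hj)
    have h2 : ∀ (s : Finset (Fin D)), ∃ ε : ℝ, 0 < ε ∧ ∀ i ∈ s, ε ≤ v (F.y i) := by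
      intro s
      induction s using Finset.induction_on with
      | empty => exact ⟨1, one_pos, by simp⟩
      | insert i s _ ih =>
        obtain ⟨ε, h1, h2⟩ := ih
        refine ⟨min ε (v (F.y i)), lt_min h1 (F.y_pos i), fun j hj => ?_⟩
        rcases Finset.mem_insert.1 hj with rfl | hj
        · exact min_le_right _ _
        · exact (min_le_left _ _).trans (h2 j hj)
    obtain ⟨ε₁, h3, h4⟩ := h1 Finset.univ
    obtain ⟨ε₂, h5, h6⟩ := h2 Finset.univ
    exact ⟨min ε₁ ε₂, lt_min h3 h5, fun i => (min_le_left _ _).trans (h4 i (Finset.mem_univ i)),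
      fun i => (min_le_right _ _).trans (h6 i (Finset.mem_univ i))⟩
  set P : Subalgebra k Ω :=
    Algebra.adjoin k (F.χ '' {γ | γ ∈ F.Γ ∧ 0 ≤ γ} ∪ Set.range F.y) with hP
  have key : ∀ (m : ℕ), ∀ g ∈ N.R, ∃ g₀ ∈ P, g - g₀ ∈ F.Hi (m * ε) := by
    intro m
    induction m with
    | zero =>
      intro g hg
      refine ⟨0, P.zero_mem, ?_⟩
      rw [sub_zero, Nat.cast_zero, zero_mul]
      exact mem_hi_zero F (hNR hg)
    | succ m ih =>
      intro g hg
      obtain ⟨c, hc⟩ := ALLh94.ctx_residue h.toCtx0 (N.nonneg g hg)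
      obtain ⟨a, ha, b, hb, hab⟩ := N.gen _ (N.R.sub_mem hg (N.R.algebraMap_mem c)) hc
      choose a₀ ha₀ ha₁ using fun i => ih (a i) (ha i)
      choose b₀ hb₀ hb₁ using fun j => ih (b j) (hb j)
      refine ⟨algebraMap k Ω c + (∑ i, N.x i * a₀ i + ∑ j, N.y j * b₀ j),
        P.add_mem (P.algebraMap_mem c) (P.add_mem (P.sum_mem fun i _ => P.mul_mem ?_ (ha₀ i))
          (P.sum_mem fun j _ => P.mul_mem ?_ (hb₀ j))), ?_⟩
      · rw [hx i]
        exact Algebra.subset_adjoin (Or.inl ⟨u i, ⟨hu.mem i, (hu.pos i).le⟩, rfl⟩)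
      · rw [hy]
        exact Algebra.subset_adjoin (Or.inr ⟨j, rfl⟩)
      · have h1 : g - (algebraMap k Ω c + (∑ i, N.x i * a₀ i + ∑ j, N.y j * b₀ j)) =
            ∑ i, N.x i * (a i - a₀ i) + ∑ j, N.y j * (b j - b₀ j) := by
          simp only [mul_sub, Finset.sum_sub_distrib]
          linear_combination hab
        rw [h1]
        refine Submodule.add_mem _ (Submodule.sum_mem _ fun i _ => ?_)
          (Submodule.sum_mem _ fun j _ => ?_)
        · rw [hx i]
          refine hi_mono F ?_ (hi_χ F (hu.mem i) (hu.pos i).le (ha₁ i))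
          have := hεu i
          push_cast
          linarith
        · rw [hy]
          refine hi_mono F ?_ (hi_y F j (hb₁ j))
          have := hεy j
          push_cast
          linarith
  obtain ⟨m, hm⟩ := exists_nat_ge (C / ε)
  obtain ⟨f₀, hf₀, hf₁⟩ := key m f hfN'
  refine ⟨f₀, hf₀, hi_mono F ?_ hf₁⟩
  rwa [div_le_iff₀ hε] at hm

end Pool.Agent.ALL
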