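import Pool.Agent.Lib.ALL5.Rows
import Pool.Agent.Lib.ALL5.Reg5
import Pool.Agent.Lib.LU3.Row2b

/-!
# The base field and the base frame (rows K1, 5b, 5b')
-/

set_option autoImplicit false

open Polynomial

namespace Pool.Agent.ALL

open Pool.Agent.H15JM (RVal)
open Pool.Agent.LU1 (VPos locv quo le_locv locv_inv locv_le locv_mono locv_adjoin_le le_quo)
open Pool.Agent.LU3 (MonD resv)

universe u

/-- Row K1. -/
theorem rowK1 (k : Type u) [Field k] : RowK1 k :=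
  fun _ _ _ _ _ _ _ h hr _ F g => fr_alg0 h hr F g

namespace B5

variable {k Ω : Type u} [Field k] [Field Ω] [Algebra k Ω] {v : RVal Ω} {n r D d : ℕ}

/-- Independent exponents. -/
theorem exists_coord (h : TA.CtxR k v n r) (F : FR k v D) :
    ∃ g : Fin r → ℝ, (∀ i, g i ∈ F.Γ) ∧ LinearIndependent ℚ g ∧
      (∀ a : Ω, a ≠ 0 → v a ∈ Submodule.span ℚ (Set.range g)) ∧
      ∀ γ ∈ F.Γ, ∃ N : ℕ, 0 < N ∧ ∃ n : Fin r → ℤ, (N : ℝ) * γ = ∑ i, (n i : ℝ) * g i := by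
  classical
  obtain ⟨X, hX0, hXi, hX⟩ := h.rank
  choose m hm hmX using fun i => F.full (X i) (hX0 i)
  have hm0 : ∀ i, (m i : ℚ) ≠ 0 := fun i => by exact_mod_cast (hm i).ne'
  have hli : LinearIndependent ℚ fun i => (m i : ℝ) * v (X i) := by
    have h2 := hXi.units_smul fun i => Units.mk0 (m i : ℚ) (hm0 i)
    convert h2 using 1
    funext i
    change (m i : ℝ) * v (X i) = (m i : ℚ) • v (X i)
    rw [Rat.smul_def]
    push_cast
    rfl
  have hspan : ∀ a : Ω, a ≠ 0 → v a ∈ Submodule.span ℚ (Set.range fun i => (m i : ℝ) * v (X i)) := by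
    intro a ha
    refine (Submodule.span_le.2 ?_) (hX a ha)
    rintro _ ⟨i, rfl⟩
    have h2 : v (X i) = ((m i : ℚ)⁻¹) • ((m i : ℝ) * v (X i)) := by
      rw [Rat.smul_def]
      push_cast
      rw [← mul_assoc, inv_mul_cancel₀, one_mul]
      exact_mod_cast (hm i).ne'
    change v (X i) ∈ Submodule.span ℚ (Set.range fun i => (m i : ℝ) * v (X i))
    rw [h2]
    exact Submodule.smul_mem _ _ (Submodule.subset_span ⟨i, rfl⟩)
  refine ⟨fun i => (m i : ℝ) * v (X i), hmX, hli, hspan, fun γ hγ => ?_⟩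
  have hmem := hspan (F.χ γ) (F.χ_ne γ hγ)
  rw [F.χ_val γ hγ] at hmem
  obtain ⟨c, hc⟩ := (Submodule.mem_span_range_iff_exists_fun ℚ).1 hmem
  refine ⟨∏ i, (c i).den, Finset.prod_pos fun i _ => (c i).pos,
    fun i => (c i).num * ∏ j ∈ Finset.univ.erase i, ((c j).den : ℤ), ?_⟩
  rw [← hc, Finset.mul_sum]
  refine Finset.sum_congr rfl fun i _ => ?_
  rw [Rat.smul_def, ← Finset.mul_prod_erase _ _ (Finset.mem_univ i), ← mul_assoc]
  congr 1
  have h1 : ((c i).num : ℝ) = (c i : ℝ) * (c i).den := by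
    exact_mod_cast (Rat.mul_den_eq_num (c i)).symm
  push_cast
  rw [h1]
  ring

/-- The generators of the small field. -/
def gens (F : FR k v (d + 1)) (g : Fin r → ℝ) : Set Ω :=
  Set.range (fun i => F.χ (g i)) ∪ Set.range fun i : Fin d => F.y i.castSucc

/-- The small algebraically closed field. -/
noncomputable def big (F : FR k v (d + 1)) (g : Fin r → ℝ) : IntermediateField k Ω :=
  (algebraicClosure (IntermediateField.adjoin k (gens F g)) Ω).restrictScalars k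

theorem mem_big {F : FR k v (d + 1)} {g : Fin r → ℝ} {a : Ω} :
    a ∈ big F g ↔ IsAlgebraic (IntermediateField.adjoin k (gens F g)) a := by
  rw [big, IntermediateField.mem_restrictScalars, mem_algebraicClosure_iff]

theorem adjoin_le_big (F : FR k v (d + 1)) (g : Fin r → ℝ) :
    IntermediateField.adjoin k (gens F g) ≤ big F g := by
  intro a ha
  rw [mem_big]
  exact isAlgebraic_algebraMap (⟨a, ha⟩ : IntermediateField.adjoin k (gens F g))

theorem χ_mem_big (F : FR k v (d + 1)) {g : Fin r → ℝ} (hg : ∀ i, g i ∈ F.Γ)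
    (hgen : ∀ γ ∈ F.Γ, ∃ N : ℕ, 0 < N ∧ ∃ n : Fin r → ℤ, (N : ℝ) * γ = ∑ i, (n i : ℝ) * g i)
    {γ : ℝ} (hγ : γ ∈ F.Γ) : F.χ γ ∈ big F g := by
  obtain ⟨N, hN, n, hn⟩ := hgen γ hγ
  rw [mem_big]
  refine IsAlgebraic.of_pow hN ?_
  rw [← F.χ_nsmul hγ N, hn, (ALLh94.χ_sum F Finset.univ g hg n).2, ← mem_big]
  refine prod_mem fun i _ => zpow_mem (adjoin_le_big F g ?_) _
  exact IntermediateField.subset_adjoin _ _ (Or.inl ⟨i, rfl⟩)

theorem y_mem_big (F : FR k v (d + 1)) (g : Fin r → ℝ) (i : Fin d) :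
    F.y i.castSucc ∈ big F g :=
  adjoin_le_big F g (IntermediateField.subset_adjoin _ _ (Or.inr ⟨i, rfl⟩))

theorem isAlgClosed_big [IsAlgClosed Ω] (F : FR k v (d + 1)) (g : Fin r → ℝ) :
    IsAlgClosed (big F g) := by
  have h : IsAlgClosed (algebraicClosure (IntermediateField.adjoin k (gens F g)) Ω) :=
    IsAlgClosure.isAlgClosed (IntermediateField.adjoin k (gens F g))
  exact h

/-- Everything is algebraic over `big(z)`. -/
theorem alg_big (h : TA.CtxR k v n r) (hr : 0 < r) (F : FR k v (d + 1)) {g : Fin r → ℝ}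
    (hg : ∀ i, g i ∈ F.Γ)
    (hgen : ∀ γ ∈ F.Γ, ∃ N : ℕ, 0 < N ∧ ∃ n : Fin r → ℤ, (N : ℝ) * γ = ∑ i, (n i : ℝ) * g i)
    (E : IntermediateField k Ω) (hE : big F g ≤ E) (hz : F.z ∈ E) (a : Ω) : IsAlgebraic E a := by
  have h1 : Algebra.adjoin k (F.χ '' {γ | γ ∈ F.Γ} ∪ Set.range F.y) ≤ E.toSubalgebra := by
    rw [Algebra.adjoin_le_iff]
    rintro x (⟨γ, hγ, rfl⟩ | ⟨i, rfl⟩)
    · exact hE (χ_mem_big F hg hgen hγ)
    · refine Fin.lastCases ?_ (fun i => ?_) i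
      · exact hz
      · exact hE (y_mem_big F g i)
  exact IsAlgebraic.tower_top_of_subalgebra_le h1 (fr_alg0 h hr F a)

theorem z_not_big (h : TA.CtxR k v n r) (hr : 0 < r) (hn : n = r + (d + 1))
    (F : FR k v (d + 1)) {g : Fin r → ℝ} (hg : ∀ i, g i ∈ F.Γ)
    (hgen : ∀ γ ∈ F.Γ, ∃ N : ℕ, 0 < N ∧ ∃ n : Fin r → ℤ, (N : ℝ) * γ = ∑ i, (n i : ℝ) * g i) :
    F.z ∉ big F g := by
  intro hz
  have h1 : ∀ a : Ω, IsAlgebraic (big F g) a := alg_big h hr F hg hgen _ le_rfl hz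
  have h2 : Algebra.IsAlgebraic (IntermediateField.adjoin k (gens F g)) Ω := by
    refine ⟨fun a => ?_⟩
    have h3 : IsAlgebraic (algebraicClosure (IntermediateField.adjoin k (gens F g)) Ω) a := h1 a
    exact h3.restrictScalars (IntermediateField.adjoin k (gens F g))
  have h3 := LU1.trdeg_le_of_isAlgebraic (k := k) (gens F g) h2
  rw [h.trdeg] at h3
  have h4 : Cardinal.mk (gens F g) ≤ (r : Cardinal) + (d : Cardinal) := by
    refine (Cardinal.mk_union_le _ _).trans (add_le_add ?_ ?_)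
    · have h5 := Cardinal.mk_range_le_lift (f := fun i => F.χ (g i))
      simpa using h5
    · have h5 := Cardinal.mk_range_le_lift (f := fun i : Fin d => F.y i.castSucc)
      simpa using h5
  have h5 := h3.trans h4
  have h6 : ((n : ℕ) : Cardinal) ≤ ((r + d : ℕ) : Cardinal) := by
    push_cast
    exact h5
  rw [Nat.cast_le] at h6
  omega

theorem trdeg_big (h : TA.CtxR k v n r) (hr : 0 < r) (hn : n = r + (d + 1))
    (F : FR k v (d + 1)) {g : Fin r → ℝ} (hg : ∀ i, g i ∈ F.Γ)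
    (hgen : ∀ γ ∈ F.Γ, ∃ N : ℕ, 0 < N ∧ ∃ n : Fin r → ℤ, (N : ℝ) * γ = ∑ i, (n i : ℝ) * g i) :
    Algebra.trdeg k (big F g) = ((r + d : ℕ) : Cardinal) := by
  have hz := z_not_big h hr hn F hg hgen
  have h1 := trdeg_add_eq k (big F g) (A := Ω)
  rw [h.trdeg] at h1
  -- `Ω` is algebraic over `big(z)`
  have h2 : Algebra.IsAlgebraic (IntermediateField.adjoin (big F g) {F.z}) Ω := by
    refine ⟨fun a => ?_⟩
    have h3 := alg_big h hr F hg hgen
      ((IntermediateField.adjoin (big F g) {F.z}).restrictScalars k) (fun b hb => by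
        rw [IntermediateField.mem_restrictScalars]
        exact (IntermediateField.adjoin (big F g) {F.z}).algebraMap_mem (⟨b, hb⟩ : big F g))
      (by
        rw [IntermediateField.mem_restrictScalars]
        exact IntermediateField.mem_adjoin_simple_self _ _) a
    exact h3
  have h3 : Algebra.trdeg (big F g) Ω ≤ 1 := by
    have h4 := LU1.trdeg_le_of_isAlgebraic (k := big F g) ({F.z} : Set Ω) h2
    simpa using h4
  have h4 : Algebra.trdeg (big F g) Ω ≠ 0 := by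
    intro h5
    have h6 : Algebra.IsAlgebraic (big F g) Ω := by
      exact trdeg_eq_zero_iff.1 h5
    apply hz
    rw [mem_big]
    have h7 : IsAlgebraic (algebraicClosure (IntermediateField.adjoin k (gens F g)) Ω) F.z :=
      h6.isAlgebraic F.z
    exact h7.restrictScalars (IntermediateField.adjoin k (gens F g))
  have h5 : Algebra.trdeg (big F g) Ω = 1 :=
    le_antisymm h3 (Cardinal.one_le_iff_ne_zero.2 h4)
  rw [h5] at h1
  have h7 : Algebra.trdeg k (big F g) < Cardinal.aleph0 := by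
    refine lt_of_le_of_lt (self_le_add_right _ (1 : Cardinal)) ?_
    rw [h1]
    exact_mod_cast Cardinal.natCast_lt_aleph0 (n := n)
  obtain ⟨m, hm⟩ := Cardinal.lt_aleph0.1 h7
  rw [hm] at h1 ⊢
  have h8 : m + 1 = n := by exact_mod_cast h1
  have h9 : m = r + d := by omega
  rw [h9]

/-- The context of the small field. -/
theorem ctx_big (h : TA.CtxR k v n r) (hr : 0 < r) (hn : n = r + (d + 1))
    (F : FR k v (d + 1)) {g : Fin r → ℝ} (hg : ∀ i, g i ∈ F.Γ)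
    (hli : LinearIndependent ℚ g)
    (hspan : ∀ a : Ω, a ≠ 0 → v a ∈ Submodule.span ℚ (Set.range g))
    (hgen : ∀ γ ∈ F.Γ, ∃ N : ℕ, 0 < N ∧ ∃ n : Fin r → ℤ, (N : ℝ) * γ = ∑ i, (n i : ℝ) * g i) :
    TA.CtxR k (resv v (big F g)) (r + d) r where
  triv c hc := h.triv c hc
  res a ha hv := by
    have ha' : (a : Ω) ≠ 0 := fun h0 => ha (Subtype.ext h0)
    obtain ⟨c, hc, hp⟩ := h.res (a : Ω) ha' hv
    refine ⟨c, hc, fun h0 => ?_⟩
    exact hp fun h1 => h0 (Subtype.ext h1)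
  trdeg := trdeg_big h hr hn F hg hgen
  rank := by
    refine ⟨fun i => ⟨F.χ (g i), χ_mem_big F hg hgen (hg i)⟩, fun i h0 => ?_, ?_, fun a ha => ?_⟩
    · exact F.χ_ne _ (hg i) (congrArg Subtype.val h0)
    · have h1 : (fun i => resv v (big F g) ⟨F.χ (g i), χ_mem_big F hg hgen (hg i)⟩) = g := by
        funext i
        exact F.χ_val _ (hg i)
      rw [h1]
      exact hli
    · have h1 : (fun i => resv v (big F g) ⟨F.χ (g i), χ_mem_big F hg hgen (hg i)⟩) = g := by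
        funext i
        exact F.χ_val _ (hg i)
      rw [h1]
      exact hspan (a : Ω) fun h0 => ha (Subtype.ext h0)

end B5

open B5

/-- A rational frame with given monomials and parameters. -/
theorem exists_ratFR5 {k Ω : Type u} [Field k] [Field Ω] [Algebra k Ω] {v : RVal Ω} {n r d : ℕ}
    (h : TA.CtxR k v n r) {Γ : AddSubgroup ℝ} (fg : Γ.FG) (hpos : ∃ γ ∈ Γ, 0 < γ)
    (full : ∀ g : Ω, g ≠ 0 → ∃ m : ℕ, 0 < m ∧ (m : ℝ) * v g ∈ Γ) {χ : ℝ → Ω} (hχ : MonD v Γ χ)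
    {y : Fin d → Ω} (y_ne : ∀ i, y i ≠ 0) (y_pos : ∀ i, 0 < v (y i))
    (alg : ∀ g : Ω, IsAlgebraic (locv v (Algebra.adjoin k (χ '' {γ | γ ∈ Γ ∧ 0 ≤ γ} ∪
      Set.range y))) g) :
    ∃ S : FR k v d, S.Γ = Γ ∧ S.χ = χ ∧ S.y = y ∧
      S.R = locv v (Algebra.adjoin k (χ '' {γ | γ ∈ Γ ∧ 0 ≤ γ} ∪ Set.range y)) := by
  classical
  set R := locv v (Algebra.adjoin k (χ '' {γ | γ ∈ Γ ∧ 0 ≤ γ} ∪ Set.range y)) with hR
  have hgen : ∀ f ∈ (χ '' {γ | γ ∈ Γ ∧ 0 ≤ γ} ∪ Set.range y), v.Ge 0 f := by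
    rintro f (⟨γ, ⟨hγ, h0⟩, rfl⟩ | ⟨i, rfl⟩)
    · intro _; rw [hχ.val γ hγ]; exact h0
    · exact fun _ => (y_pos i).le
  have H : Pre v Γ χ y R := by
    refine ⟨hpos, hχ, y_ne, y_pos, LU1.locv_nonneg (ctx_adjoin_nonneg h hgen),
      fun f hf h0 h1 => locv_inv hf h0 h1, fun γ hγ h0 => ?_, fun i => ?_⟩
    · exact le_locv _ (Algebra.subset_adjoin (Or.inl ⟨γ, ⟨hγ, h0⟩, rfl⟩))
    · exact le_locv _ (Algebra.subset_adjoin (Or.inr ⟨i, rfl⟩))
  refine ⟨mkFR H full fg hR ?_ h.triv ⟨Finset.univ.image y, ?_⟩ alg, rfl, rfl, rfl, rfl⟩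
  · rintro f (⟨γ, ⟨hγ, h0⟩, rfl⟩ | ⟨i, rfl⟩)
    · rcases h0.lt_or_eq with h1 | h1
      · have h3 := H.mm_χ hγ h1 R.one_mem
        rw [mul_one] at h3
        exact H.res_of_mm h3
      · rw [← h1, hχ.zero, ← map_one (algebraMap k Ω)]
        exact H.res_const 1
    · have h3 := H.mm_y i R.one_mem
      rw [mul_one] at h3
      exact H.res_of_mm h3
  · rw [hR, Finset.coe_image, Finset.coe_univ, Set.image_univ, Set.union_comm]

/-- Row 5b, with a rational base frame. -/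
theorem exists_base {k Ω : Type u} [Field k] [Field Ω] [Algebra k Ω] [IsAlgClosed Ω]
    {v : RVal Ω} {n r d : ℕ} (h : TA.CtxR k v n r) (hr : 0 < r) (hn : n = r + (d + 1))
    (F : FR k v (d + 1)) :
    ∃ (Ω₀ : IntermediateField k Ω) (S : FR k (resv v Ω₀) d), IsAlgClosed Ω₀ ∧
        TA.CtxR k (resv v Ω₀) (r + d) r ∧ Transcendental Ω₀ F.z ∧ Base F S ∧ S.Rat := by
  classical
  obtain ⟨g, hg, hli, hspan, hgen⟩ := exists_coord h F
  have hctx := ctx_big h hr hn F hg hli hspan hgen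
  obtain ⟨χ', hχ'⟩ : ∃ χ' : ℝ → big F g, ∀ γ ∈ F.Γ, (χ' γ : Ω) = F.χ γ := by
    refine ⟨fun γ => if hγ : γ ∈ F.Γ then ⟨F.χ γ, χ_mem_big F hg hgen hγ⟩ else 1, ?_⟩
    intro γ hγ
    simp only [dif_pos hγ]
  let y' : Fin d → big F g := fun i => ⟨F.y i.castSucc, y_mem_big F g i⟩
  have hy' : ∀ i, (y' i : Ω) = F.y i.castSucc := fun _ => rfl
  have hχ0 : ∀ γ ∈ F.Γ, χ' γ ≠ 0 := by
    intro γ hγ h0
    apply F.χ_ne γ hγ
    rw [← hχ' γ hγ, h0]
    rfl
  have hM : MonD (resv v (big F g)) F.Γ χ' := by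
    refine ⟨hχ0, fun γ hγ δ hδ => ?_, fun γ hγ => ?_⟩
    · apply Subtype.ext
      have h1 : ((χ' γ * χ' δ : big F g) : Ω) = (χ' γ : Ω) * (χ' δ : Ω) := rfl
      rw [h1, hχ' _ (F.Γ.add_mem hγ hδ), hχ' _ hγ, hχ' _ hδ, F.χ_add γ hγ δ hδ]
    · change v (χ' γ : Ω) = γ
      rw [hχ' γ hγ, F.χ_val γ hγ]
  obtain ⟨S, hΓ, hχ, hy, hR⟩ := exists_ratFR5 hctx F.fg (F.exists_pos h hr)
    (fun a ha => F.full (a : Ω) fun h0 => ha (Subtype.ext h0)) hM (y := y')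
    (fun i h0 => F.y_ne i.castSucc (congrArg Subtype.val h0)) (fun i => F.y_pos i.castSucc)
    (fun a => by
      refine IsAlgebraic.tower_top_of_subalgebra_le (le_locv _) (LU1.BaseG0.alg_down _ a ?_)
      refine LU3.R2b.alg_transfer _ _ (gens F g) ?_ a (mem_big.1 a.2)
      rintro x (⟨i, rfl⟩ | ⟨i, rfl⟩)
      · rcases le_total 0 (g i) with h0 | h0
        · exact ⟨χ' (g i), IntermediateField.subset_adjoin _ _
            (Or.inl ⟨g i, ⟨hg i, h0⟩, rfl⟩), hχ' _ (hg i)⟩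
        · refine ⟨(χ' (-g i))⁻¹, inv_mem (IntermediateField.subset_adjoin _ _
            (Or.inl ⟨-g i, ⟨F.Γ.neg_mem (hg i), neg_nonneg.2 h0⟩, rfl⟩)), ?_⟩
          have h1 : (((χ' (-g i))⁻¹ : big F g) : Ω) = ((χ' (-g i) : big F g) : Ω)⁻¹ := rfl
          rw [h1, hχ' _ (F.Γ.neg_mem (hg i)), F.χ_neg (hg i), inv_inv]
      · exact ⟨y' i, IntermediateField.subset_adjoin _ _ (Or.inr ⟨i, rfl⟩), hy' i⟩)
  have hrat : S.Rat := by
    rw [FR.Rat, hR, hΓ, hχ, hy]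
  refine ⟨big F g, S, isAlgClosed_big F g, hctx, ?_, ⟨hΓ.symm, fun γ hγ => ?_, fun i => ?_,
    fun f hf => ?_⟩, hrat⟩
  · intro hz
    apply z_not_big h hr hn F hg hgen
    rw [mem_big]
    have h7 : IsAlgebraic (algebraicClosure (IntermediateField.adjoin k (gens F g)) Ω) F.z := hz
    exact h7.restrictScalars (IntermediateField.adjoin k (gens F g))
  · rw [hχ, hχ' γ (by rw [← hΓ]; exact hγ)]
  · rw [hy]
  · rw [hR] at hf
    obtain ⟨a, ha, b, hb, hb0, hvb, rfl⟩ := hf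
    have key : ∀ a ∈ Algebra.adjoin k (χ' '' {γ | γ ∈ F.Γ ∧ 0 ≤ γ} ∪ Set.range y'),
        (a : Ω) ∈ F.R := by
      intro a ha
      induction ha using Algebra.adjoin_induction with
      | mem x hx =>
        rcases hx with ⟨γ, ⟨hγ, h0⟩, rfl⟩ | ⟨i, rfl⟩
        · rw [hχ' γ hγ]
          exact F.χ_mem γ hγ h0
        · exact F.y_mem _
      | algebraMap c => exact F.R.algebraMap_mem c
      | add x y _ _ hx hy => exact F.R.add_mem hx hy
      | mul x y _ _ hx hy => exact F.R.mul_mem hx hy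
    have h1 : ((a / b : big F g) : Ω) = (a : Ω) * (b : Ω)⁻¹ := by
      rw [div_eq_mul_inv]; rfl
    rw [h1]
    exact F.R.mul_mem (key a ha) (F.loc _ (key b hb) (coe_ne hb0) hvb)

theorem row5b (k : Type u) [Field k] : Row5b k := by
  intro Ω _ _ _ v n r d h hr hn F
  obtain ⟨Ω₀, S, h1, h2, h3, h4, -⟩ := exists_base h hr hn F
  exact ⟨Ω₀, S, h1, h2, h3, h4⟩

/-! ### Row 5b' (see also `Emb5.lean`) -/

theorem lur_of_emb {k Ω : Type u} [Field k] [Field Ω] [Algebra k Ω] {v : RVal Ω} {D : ℕ}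
    (hE : ∀ E : IntermediateField k Ω,
      (∃ S : Finset Ω, E = IntermediateField.adjoin k (S : Set Ω)) →
      (∀ g : Ω, IsAlgebraic E g) → Emb v D E) : LUr k Ω v D := by
  classical
  intro F T hT
  obtain ⟨G, hG⟩ := F.fgen
  obtain ⟨S, hS⟩ := F.fg
  have hSΓ : ∀ γ ∈ S, γ ∈ F.Γ := fun γ hγ => by
    rw [← hS]
    exact AddSubgroup.subset_closure hγ
  have habs : ∀ γ ∈ F.Γ, |γ| ∈ F.Γ := fun γ hγ => by
    rcases abs_choice γ with h | h
    · rw [h]; exact hγ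
    · rw [h]; exact F.Γ.neg_mem hγ
  choose! num hnum den hden hden0 hfrac using fun f hf => (hT f hf).1
  have hnum0 : ∀ f ∈ T, num f ≠ 0 := fun f hf h0 => (hT f hf).2 (by
    rw [hfrac f hf, h0, zero_div])
  set Z : Finset Ω := G.filter (fun f => f ≠ 0) ∪ S.image (fun γ => F.χ |γ|) ∪
    (T.image num ∪ T.image den) with hZ
  have hZmem : ∀ z, z ∈ Z ↔ (z ∈ G ∧ z ≠ 0 ∨ ∃ γ ∈ S, F.χ |γ| = z) ∨
      ((∃ f ∈ T, num f = z) ∨ ∃ f ∈ T, den f = z) := fun z => by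
    rw [hZ]
    simp only [Finset.mem_union, Finset.mem_filter, Finset.mem_image]
  have hGR : ∀ f ∈ G, f ∈ F.R := fun f hf => by
    rw [hG]
    exact le_locv _ (Algebra.subset_adjoin (Or.inl hf))
  have hZR : ∀ z ∈ Z, z ∈ F.R ∧ z ≠ 0 := by
    intro z hz
    rcases (hZmem z).1 hz with (⟨h1, h2⟩ | ⟨γ, hγ, rfl⟩) | ⟨f, hf, rfl⟩ | ⟨f, hf, rfl⟩
    · exact ⟨hGR z h1, h2⟩
    · exact ⟨F.χ_mem _ (habs γ (hSΓ γ hγ)) (abs_nonneg γ), F.χ_ne _ (habs γ (hSΓ γ hγ))⟩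
    · exact ⟨hnum f hf, hnum0 f hf⟩
    · exact ⟨hden f hf, hden0 f hf⟩
  set E : IntermediateField k Ω := IntermediateField.adjoin k (Z : Set Ω) with hEdef
  have hZE : ∀ z ∈ Z, z ∈ E := fun z hz => IntermediateField.subset_adjoin _ _ hz
  have hχZ : ∀ γ ∈ S, F.χ |γ| ∈ Z := fun γ hγ => (hZmem _).2 (Or.inl (Or.inr ⟨γ, hγ, rfl⟩))
  -- induction over `Γ`
  have hind : ∀ (p : Ω → Prop), (∀ γ ∈ S, p (F.χ |γ|)) → p 1 → (∀ a b, p a → p b → p (a * b)) →
      (∀ a, p a → p a⁻¹) → ∀ γ ∈ F.Γ, p (F.χ γ) := by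
    intro p h1 h2 h3 h4 γ hγ
    have hγ' : γ ∈ AddSubgroup.closure (S : Set ℝ) := by rw [hS]; exact hγ
    have key : ∀ γ ∈ AddSubgroup.closure (S : Set ℝ), γ ∈ F.Γ ∧ p (F.χ γ) := by
      intro γ hγ
      induction hγ using AddSubgroup.closure_induction with
      | mem γ hγ =>
        refine ⟨hSΓ γ hγ, ?_⟩
        rcases abs_choice γ with h | h
        · rw [← h]; exact h1 γ hγ
        · have h5 : γ = -|γ| := by rw [h, neg_neg]
          rw [h5, F.χ_neg (habs γ (hSΓ γ hγ))]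
          exact h4 _ (h1 γ hγ)
      | zero => exact ⟨F.Γ.zero_mem, by rw [F.χ_zero]; exact h2⟩
      | add a b _ _ ha hb =>
        exact ⟨F.Γ.add_mem ha.1 hb.1, by rw [F.χ_add a ha.1 b hb.1]; exact h3 _ _ ha.2 hb.2⟩
      | neg a _ ha => exact ⟨F.Γ.neg_mem ha.1, by rw [F.χ_neg ha.1]; exact h4 _ ha.2⟩
    exact (key γ hγ').2
  have hχE : ∀ γ ∈ F.Γ, F.χ γ ∈ E := hind (fun a => a ∈ E) (fun γ hγ => hZE _ (hχZ γ hγ))
    (one_mem _) (fun a b ha hb => mul_mem ha hb) (fun a ha => inv_mem ha)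
  have hRE : F.R ≤ E.toSubalgebra := by
    intro f hf
    rw [hG] at hf
    obtain ⟨a, ha, b, hb, -, -, rfl⟩ := hf
    have h1 : Algebra.adjoin k ((G : Set Ω) ∪ F.χ '' {γ | γ ∈ F.Γ ∧ 0 ≤ γ}) ≤
        E.toSubalgebra := by
      refine Algebra.adjoin_le ?_
      rintro f (hf | ⟨γ, ⟨hγ, -⟩, rfl⟩)
      · by_cases h0 : f = 0
        · rw [h0]; exact zero_mem E
        · exact hZE f ((hZmem f).2 (Or.inl (Or.inl ⟨hf, h0⟩)))
      · exact hχE γ hγ
    exact E.div_mem (h1 ha) (h1 hb)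
  obtain ⟨C, -, hm, hd⟩ := hE E ⟨Z, rfl⟩
    (fun g => IsAlgebraic.tower_top_of_subalgebra_le hRE (F.alg g)) Z
    (fun z hz => (hZR z hz).2) rfl
  have hχC : ∀ γ ∈ F.Γ, C.Mono (F.χ γ) := hind (fun a => C.Mono a)
    (fun γ hγ => hm _ (hχZ γ hγ)) (FR.Mono.un FR.Un.one) (fun a b ha hb => ha.mul hb)
    (fun a ha => ha.inv)
  have hZR' : Algebra.adjoin k (Z : Set Ω) ≤ F.R := Algebra.adjoin_le fun z hz => (hZR z hz).1
  refine ⟨C, ⟨?_, fun γ hγ => ?_, fun γ hγ => ?_, fun f hf => ?_⟩, fun f hf => ?_⟩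
  · rw [hG]
    refine locv_le (Algebra.adjoin_le ?_) C.loc
    rintro f (hf | ⟨γ, ⟨hγ, h0⟩, rfl⟩)
    · by_cases h0 : f = 0
      · rw [h0]; exact C.R.zero_mem
      · exact (hm f ((hZmem f).2 (Or.inl (Or.inl ⟨hf, h0⟩)))).mem (F.nonneg f (hGR f hf) h0)
    · exact (hχC γ hγ).mem (by rw [F.χ_val γ hγ]; exact h0)
  · have h1 := (hχC γ hγ).2.1
    rwa [F.χ_val γ hγ] at h1
  · have h1 := (hχC γ hγ).2.2
    rwa [F.χ_val γ hγ] at h1
  · obtain ⟨a, ha, b, hb, hbm, rfl⟩ := hd f hf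
    exact ⟨a, hZR' ha, b, hZR' hb, hbm, rfl⟩
  · rw [hfrac f hf]
    exact (hm _ ((hZmem _).2 (Or.inr (Or.inl ⟨f, hf, rfl⟩)))).div
      (hm _ ((hZmem _).2 (Or.inr (Or.inr ⟨f, hf, rfl⟩))))

end Pool.Agent.ALL
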