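import Pool.Agent.Lib.ALL5.Rows

/-!
# Row 5b': from the embedded statement for fields to refinements of frames
-/

set_option autoImplicit false

namespace Pool.Agent.ALL

open Pool.Agent.H15JM (RVal)
open Pool.Agent.LU1 (VPos locv quo le_locv locv_inv locv_le locv_mono locv_adjoin_le le_quo
  val_add_vpos mem_quo)

universe u

/-- Row 5b'. -/
theorem row5b' (k : Type u) [Field k] : Row5b' k := by
  classical
  intro Ω _ _ _ v n r d hE h hr hn F T hT
  obtain ⟨G, hG⟩ := F.fgen
  obtain ⟨B, hB⟩ := F.fg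
  -- numerators and denominators of the elements of `T`
  choose! num hnum den hden hden0 hnd using fun t (ht : t ∈ T) => (hT t ht).1
  have hBΓ : ∀ b ∈ B, |b| ∈ F.Γ := fun b hb => by
    have h1 : b ∈ F.Γ := by rw [← hB]; exact AddSubgroup.subset_closure hb
    rcases abs_choice b with h2 | h2
    · rw [h2]; exact h1
    · rw [h2]; exact F.Γ.neg_mem h1
  set Z : Finset Ω := (G ∪ B.image (fun b => F.χ |b|) ∪ T.image num ∪ T.image den).filter
    fun g => g ≠ 0 with hZ
  have hGR : ∀ g ∈ G, g ∈ F.R := fun g hg => by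
    rw [hG]; exact le_locv _ (Algebra.subset_adjoin (Or.inl hg))
  have hZR : ∀ z ∈ Z, z ∈ F.R := by
    intro z hz
    rw [hZ, Finset.mem_filter, Finset.mem_union, Finset.mem_union, Finset.mem_union,
      Finset.mem_image, Finset.mem_image, Finset.mem_image] at hz
    rcases hz.1 with ((hz1 | ⟨b, hb, rfl⟩) | ⟨t, ht, rfl⟩) | ⟨t, ht, rfl⟩
    · exact hGR z hz1
    · exact F.χ_mem _ (hBΓ b hb) (abs_nonneg b)
    · exact hnum t ht
    · exact hden t ht
  have hZ0 : ∀ z ∈ Z, z ≠ 0 := fun z hz => (Finset.mem_filter.1 hz).2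
  -- the monomials
  have hχE : ∀ γ ∈ F.Γ, F.χ γ ∈ IntermediateField.adjoin k (Z : Set Ω) := by
    intro γ hγ
    rw [← hB] at hγ
    induction hγ using AddSubgroup.closure_induction with
    | mem b hb =>
      have h1 : F.χ |b| ∈ IntermediateField.adjoin k (Z : Set Ω) := by
        refine IntermediateField.subset_adjoin _ _ ?_
        rw [hZ, Finset.mem_coe, Finset.mem_filter]
        refine ⟨Finset.mem_union_left _ (Finset.mem_union_left _ (Finset.mem_union_right _
          (Finset.mem_image_of_mem _ hb))), F.χ_ne _ (hBΓ b hb)⟩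
      rcases abs_choice b with h2 | h2
      · rwa [h2] at h1
      · have h3 : b ∈ F.Γ := by rw [← hB]; exact AddSubgroup.subset_closure hb
        rw [h2, F.χ_neg h3] at h1
        have := inv_mem h1
        rwa [inv_inv] at this
    | zero => rw [F.χ_zero]; exact one_mem _
    | add x y hx hy h1 h2 =>
      rw [hB] at hx hy
      rw [F.χ_add x hx y hy]
      exact mul_mem h1 h2
    | neg x hx h1 =>
      rw [hB] at hx
      rw [F.χ_neg hx]
      exact inv_mem h1
  have hRE : ∀ f ∈ F.R, f ∈ IntermediateField.adjoin k (Z : Set Ω) := by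
    intro f hf
    rw [hG] at hf
    have h1 : Algebra.adjoin k ((G : Set Ω) ∪ F.χ '' {γ | γ ∈ F.Γ ∧ 0 ≤ γ}) ≤
        (IntermediateField.adjoin k (Z : Set Ω)).toSubalgebra := by
      refine Algebra.adjoin_le ?_
      rintro g (hg | ⟨γ, ⟨hγ, -⟩, rfl⟩)
      · by_cases h0 : g = 0
        · rw [h0]; exact zero_mem _
        · refine IntermediateField.subset_adjoin _ _ ?_
          rw [hZ, Finset.mem_coe, Finset.mem_filter]
          exact ⟨Finset.mem_union_left _ (Finset.mem_union_left _ (Finset.mem_union_left _ hg)),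
            h0⟩
      · exact hχE γ hγ
    exact LU1.locv_field (fun g hg => h1 hg) f hf
  have hEq : IntermediateField.adjoin k (Z : Set Ω) = quo F.R := by
    refine le_antisymm ?_ ?_
    · rw [IntermediateField.adjoin_le_iff]
      exact fun z hz => le_quo (hZR z hz)
    · rintro g ⟨a, ha, b, hb, -, rfl⟩
      exact div_mem (hRE a ha) (hRE b hb)
  obtain ⟨C, -, hCZ, hCden⟩ := hE Ω v r d h hr hn (quo F.R) ⟨Z, hEq.symm⟩
    (fun g => by
      have h1 : F.R ≤ (quo F.R).toSubalgebra := fun f hf => le_quo hf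
      exact IsAlgebraic.tower_top_of_subalgebra_le h1 (F.alg g)) Z hZ0 hEq
  -- the monomials of `F` are monomials of `C`
  have hχC : ∀ γ ∈ F.Γ, C.Mono (F.χ γ) := by
    intro γ hγ
    rw [← hB] at hγ
    induction hγ using AddSubgroup.closure_induction with
    | mem b hb =>
      have h1 : C.Mono (F.χ |b|) := by
        refine hCZ _ ?_
        rw [hZ, Finset.mem_filter]
        refine ⟨Finset.mem_union_left _ (Finset.mem_union_left _ (Finset.mem_union_right _
          (Finset.mem_image_of_mem _ hb))), F.χ_ne _ (hBΓ b hb)⟩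
      rcases abs_choice b with h2 | h2
      · rwa [h2] at h1
      · have h3 : b ∈ F.Γ := by rw [← hB]; exact AddSubgroup.subset_closure hb
        rw [h2, F.χ_neg h3] at h1
        have := h1.inv
        rwa [inv_inv] at this
    | zero => rw [F.χ_zero]; exact FR.Mono.un FR.Un.one
    | add x y hx hy h1 h2 =>
      rw [hB] at hx hy
      rw [F.χ_add x hx y hy]
      exact h1.mul h2
    | neg x hx h1 =>
      rw [hB] at hx
      rw [F.χ_neg hx]
      exact h1.inv
  have hadj : Algebra.adjoin k (Z : Set Ω) ≤ F.R := Algebra.adjoin_le fun z hz => hZR z hz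
  refine ⟨C, ⟨?_, fun γ hγ => ?_, fun γ hγ => ?_, fun f hf => ?_⟩, fun t ht => ?_⟩
  · rw [hG]
    refine locv_le (Algebra.adjoin_le ?_) C.loc
    rintro g (hg | ⟨γ, ⟨hγ, h0⟩, rfl⟩)
    · by_cases h0 : g = 0
      · rw [h0]; exact C.R.zero_mem
      · refine (hCZ g ?_).mem (F.nonneg g (hGR g hg) h0)
        rw [hZ, Finset.mem_filter]
        exact ⟨Finset.mem_union_left _ (Finset.mem_union_left _ (Finset.mem_union_left _ hg)), h0⟩
    · exact (hχC γ hγ).mem (by rw [F.χ_val γ hγ]; exact h0)
  · have h1 := (hχC γ hγ).2.1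
    rwa [F.χ_val γ hγ] at h1
  · have h1 := (hχC γ hγ).2.2
    rwa [F.χ_val γ hγ] at h1
  · obtain ⟨a, ha, b, hb, hbm, rfl⟩ := hCden f hf
    exact ⟨a, hadj ha, b, hadj hb, hbm, rfl⟩
  · have h0 := (hT t ht).2
    have hn0 : num t ≠ 0 := fun h1 => h0 (by rw [hnd t ht, h1, zero_div])
    have h1 : C.Mono (num t) := hCZ _ (by
      rw [hZ, Finset.mem_filter]
      exact ⟨Finset.mem_union_left _ (Finset.mem_union_right _ (Finset.mem_image_of_mem _ ht)),
        hn0⟩)
    have h2 : C.Mono (den t) := hCZ _ (by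
      rw [hZ, Finset.mem_filter]
      exact ⟨Finset.mem_union_right _ (Finset.mem_image_of_mem _ ht), hden0 t ht⟩)
    rw [hnd t ht]
    exact h1.div h2

end Pool.Agent.ALL
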