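import Pool.Agent.Lib.ALL5.Rows

/-!
# The compositum of a refinement and of an extension with the same parameters
-/

set_option autoImplicit false

open Polynomial

namespace Pool.Agent.ALL

open Pool.Agent.H15JM (RVal)
open Pool.Agent.LU1 (VPos locv quo le_locv locv_inv locv_le locv_mono locv_adjoin_le le_quo
  val_add_vpos)

universe u

variable {k Ω : Type u} [Field k] [Field Ω] [Algebra k Ω] {v : RVal Ω} {n r D : ℕ}

/-- If `F₁` is an extension of `F` with the same parameters and `F'` is a refinement of `F`, then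
the localisation of the compositum of the rings is a refinement of `F₁` and an extension of `F'`
with the same parameters. -/
theorem exists_lift (h : TA.CtxR k v n r) (hr : 0 < r) {F F₁ F' : FR k v D} (hs : F.Same F₁)
    (hle : F.Le F') : ∃ F₁' : FR k v D, F₁.Le F₁' ∧ F'.Same F₁' ∧
      F₁'.R = locv v (Algebra.adjoin k ((F₁.R : Set Ω) ∪ F'.R)) := by
  classical
  set S : Set Ω := (F₁.R : Set Ω) ∪ F'.R with hS
  set R' : Subalgebra k Ω := locv v (Algebra.adjoin k S) with hR'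
  have h1R : F₁.R ≤ R' := fun f hf => le_locv _ (Algebra.subset_adjoin (Or.inl hf))
  have h2R : F'.R ≤ R' := fun f hf => le_locv _ (Algebra.subset_adjoin (Or.inr hf))
  have hge : ∀ f ∈ S, v.Ge 0 f := by
    rintro f (hf | hf)
    · exact F₁.nonneg f hf
    · exact F'.nonneg f hf
  have H : Pre v F'.Γ F'.χ F'.y R' :=
    ⟨F'.exists_pos h hr, F'.monD, F'.y_ne, F'.y_pos,
      LU1.locv_nonneg (ctx_adjoin_nonneg h hge), fun f hf h0 h1 => locv_inv hf h0 h1,
      fun γ hγ h0 => h2R (F'.χ_mem γ hγ h0), fun i => h2R (F'.y_mem i)⟩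
  -- the elements of `F'.R` of positive value
  have hM' : ∀ f ∈ F'.R, VPos v f → MM F'.Γ F'.χ F'.y R' f := by
    intro f hf hv
    obtain ⟨γ, hγ, h0, a, ha, b, hb, rfl⟩ := F'.gen f hf hv
    exact ⟨γ, hγ, h0, a, h2R ha, b, fun i => h2R (hb i), rfl⟩
  have hall : ∀ f ∈ S, Pre.Res F'.Γ F'.χ F'.y R' f := by
    rintro f (hf | hf)
    · obtain ⟨c, hc, hcR⟩ := F₁.exists_const h hf
      refine ⟨c, ?_⟩
      obtain ⟨γ, hγ, h0, a, ha, b, hb, h1⟩ := F₁.gen _ hcR hc
      rw [h1]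
      have hγF : γ ∈ F.Γ := by rw [← hs.Γ_eq]; exact hγ
      refine H.mm_add (H.mm_mul (hM' _ ?_ ?_) (h1R ha)) (H.mm_sum _ _ fun i _ =>
        H.mm_mul (hM' _ ?_ ?_) (h1R (hb i)))
      · rw [hs.χ_eq γ hγF]
        exact hle.le (F.χ_mem γ hγF h0.le)
      · rw [hs.χ_eq γ hγF]
        exact FR.vpos_χ hγF h0
      · rw [hs.y_eq]
        exact hle.le (F.y_mem i)
      · rw [hs.y_eq]
        exact F.vpos_y i
    · obtain ⟨c, hc, hcR⟩ := F'.exists_const h hf
      exact ⟨c, hM' _ hcR hc⟩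
  have hfgen : ∃ G : Finset Ω,
      R' = locv v (Algebra.adjoin k ((G : Set Ω) ∪ F'.χ '' {γ | γ ∈ F'.Γ ∧ 0 ≤ γ})) := by
    obtain ⟨G1, hG1⟩ := F₁.fgen
    obtain ⟨G2, hG2⟩ := F'.fgen
    refine ⟨G1 ∪ G2, ?_⟩
    set T := locv v (Algebra.adjoin k (((G1 ∪ G2 : Finset Ω) : Set Ω) ∪
      F'.χ '' {γ | γ ∈ F'.Γ ∧ 0 ≤ γ})) with hT
    have hTi : ∀ f ∈ T, f ≠ 0 → v f = 0 → f⁻¹ ∈ T := fun f hf h0 h1 => locv_inv hf h0 h1
    have hTF' : F'.R ≤ T := by
      rw [hG2, hT, Finset.coe_union]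
      exact locv_mono (Algebra.adjoin_mono (Set.union_subset_union_left _
        Set.subset_union_right))
    have hTF : F₁.R ≤ T := by
      rw [hG1]
      refine locv_le (Algebra.adjoin_le ?_) hTi
      rintro f (hf | ⟨γ, ⟨hγ, h0⟩, rfl⟩)
      · refine le_locv _ (Algebra.subset_adjoin (Or.inl ?_))
        rw [Finset.coe_union]
        exact Or.inl hf
      · have hγF : γ ∈ F.Γ := by rw [← hs.Γ_eq]; exact hγ
        rw [SetLike.mem_coe, hs.χ_eq γ hγF]
        exact hTF' (hle.le (F.χ_mem γ hγF h0))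
    refine le_antisymm (locv_le (Algebra.adjoin_le ?_) hTi)
      (locv_le (Algebra.adjoin_le ?_) fun f hf h0 h1 => locv_inv hf h0 h1)
    · rintro f (hf | hf)
      · exact hTF hf
      · exact hTF' hf
    · rintro f (hf | ⟨γ, ⟨hγ, h0⟩, rfl⟩)
      · rw [Finset.coe_union] at hf
        rcases hf with hf | hf
        · refine h1R ?_
          rw [hG1]
          exact le_locv _ (Algebra.subset_adjoin (Or.inl hf))
        · refine h2R ?_
          rw [hG2]
          exact le_locv _ (Algebra.subset_adjoin (Or.inl hf))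
      · exact h2R (F'.χ_mem γ hγ h0)
  let F₁' : FR k v D := mkFR H F'.full F'.fg rfl hall h.triv hfgen
    (fun g => LU1.isAlgebraic_of_le h2R (F'.alg g))
  have hsame : F'.Same F₁' := ⟨rfl, fun _ _ => rfl, rfl, h2R⟩
  have hun : ∀ f, F'.Un f → F₁'.Un f := fun f hf => ⟨h2R hf.1, hf.2⟩
  have hmono : ∀ f, F'.Mono f → F₁'.Mono f := fun f hf => ⟨hf.1, hf.2.1, hun _ hf.2.2⟩
  refine ⟨F₁', ⟨h1R, fun γ hγ => ?_, fun γ hγ => ?_, ?_⟩, hsame, rfl⟩
  · exact hle.Γ_le γ (by rw [← hs.Γ_eq]; exact hγ)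
  · have hγF : γ ∈ F.Γ := by rw [← hs.Γ_eq]; exact hγ
    rw [hs.χ_eq γ hγF]
    exact hun _ (hle.χ_un γ hγF)
  · refine den_all (F' := F₁') rfl ?_
    rintro f (hf | hf)
    · exact le_den hf
    · obtain ⟨a, ha, b, hb, hbm, rfl⟩ := hle.den f hf
      exact ⟨a, hs.le ha, b, hs.le hb, hmono b hbm, rfl⟩

end Pool.Agent.ALL
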