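import Pool.Agent.Lib.ALL5.Rows

/-!
# Linear change of the parameters: from the order to the order in the last parameter
-/

set_option autoImplicit false

namespace Pool.Agent.ALL

open Pool.Agent.H15JM (RVal)
open Pool.Agent.LU1 (VPos locv quo le_locv locv_inv locv_le locv_mono locv_adjoin_le le_quo
  val_add_vpos)

universe u

variable {k Ω : Type u} [Field k] [Field Ω] [Algebra k Ω] {v : RVal Ω} {n r D d : ℕ}

/-- The new parameters `y_i - μ_i z`, `z`. -/
noncomputable def linY (F : FR k v (d + 1)) (μ : Fin d → k) : Fin (d + 1) → Ω :=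
  Fin.snoc (α := fun _ => Ω) (fun i => F.y i.castSucc - algebraMap k Ω (μ i) * F.z) F.z

theorem linY_castSucc (F : FR k v (d + 1)) (μ : Fin d → k) (i : Fin d) :
    linY F μ i.castSucc = F.y i.castSucc - algebraMap k Ω (μ i) * F.z := by
  rw [linY, Fin.snoc_castSucc]

theorem linY_last (F : FR k v (d + 1)) (μ : Fin d → k) : linY F μ (Fin.last d) = F.z := by
  rw [linY, Fin.snoc_last]

/-- The frame with the new parameters. -/
noncomputable def linFR (F : FR k v (d + 1)) (μ : Fin d → k)
    (hk : ∀ c : k, v.Ge 0 (algebraMap k Ω c))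
    (hμ : ∀ i, F.y i.castSucc ≠ algebraMap k Ω (μ i) * F.z) : FR k v (d + 1) where
  Γ := F.Γ
  fg := F.fg
  full := F.full
  χ := F.χ
  χ_ne := F.χ_ne
  χ_add := F.χ_add
  χ_val := F.χ_val
  y := linY F μ
  y_ne := fun i => by
    refine Fin.lastCases ?_ (fun i => ?_) i
    · rw [linY_last]; exact F.z_ne
    · rw [linY_castSucc]; exact sub_ne_zero.2 (hμ i)
  y_pos := fun i => by
    refine Fin.lastCases ?_ (fun i => ?_) i
    · rw [linY_last]; exact F.z_pos
    · rw [linY_castSucc]
      exact ((F.vpos_y _).sub (LU1.VPos.mul' (hk _) FR.vpos_z)) (sub_ne_zero.2 (hμ i))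
  R := F.R
  nonneg := F.nonneg
  loc := F.loc
  χ_mem := F.χ_mem
  y_mem := fun i => by
    refine Fin.lastCases ?_ (fun i => ?_) i
    · rw [linY_last]; exact F.z_mem
    · rw [linY_castSucc]
      exact F.R.sub_mem (F.y_mem _) (F.R.mul_mem (F.R.algebraMap_mem _) F.z_mem)
  fgen := F.fgen
  gen := fun f hf hv => by
    obtain ⟨γ, hγ, h0, a, ha, b, hb, rfl⟩ := F.gen f hf hv
    refine ⟨γ, hγ, h0, a, ha, Fin.snoc (α := fun _ => Ω) (fun i => b i.castSucc)
      (b (Fin.last d) + ∑ i, algebraMap k Ω (μ i) * b i.castSucc), fun i => ?_, ?_⟩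
    · refine Fin.lastCases ?_ (fun i => ?_) i
      · rw [Fin.snoc_last]
        exact F.R.add_mem (hb _) (F.R.sum_mem fun i _ =>
          F.R.mul_mem (F.R.algebraMap_mem _) (hb _))
      · rw [Fin.snoc_castSucc]; exact hb _
    · congr 1
      rw [Fin.sum_univ_castSucc, Fin.sum_univ_castSucc, Fin.snoc_last, linY_last, mul_add,
        Finset.mul_sum]
      have h1 : ∀ i : Fin d, linY F μ i.castSucc *
          (Fin.snoc (α := fun _ => Ω) (fun i : Fin d => b i.castSucc)
            (b (Fin.last d) + ∑ i, algebraMap k Ω (μ i) * b i.castSucc) : Fin (d + 1) → Ω)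
            i.castSucc = F.y i.castSucc * b i.castSucc -
              F.z * (algebraMap k Ω (μ i) * b i.castSucc) := fun i => by
        rw [linY_castSucc, Fin.snoc_castSucc]; ring
      rw [Finset.sum_congr rfl fun i _ => h1 i, Finset.sum_sub_distrib]
      change _ = _ - _ + (F.z * _ + _)
      have h2 : F.y (Fin.last d) = F.z := rfl
      rw [h2]
      ring
  alg := F.alg

section lin

variable {F : FR k v (d + 1)} {μ : Fin d → k} {hk : ∀ c : k, v.Ge 0 (algebraMap k Ω c)}
  {hμ : ∀ i, F.y i.castSucc ≠ algebraMap k Ω (μ i) * F.z}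

theorem linFR_un {f : Ω} (h : F.Un f) : (linFR F μ hk hμ).Un f := h

theorem linFR_le : F.Le (linFR F μ hk hμ) := by
  refine ⟨le_rfl, fun γ h => h, fun γ hγ => ?_, fun f hf => ?_⟩
  · change (linFR F μ hk hμ).Un (F.χ γ / F.χ γ)
    rw [div_self (F.χ_ne γ hγ)]
    exact FR.Un.one
  · exact ⟨f, hf, 1, F.R.one_mem, FR.Mono.un FR.Un.one, by rw [div_one]⟩

theorem linFR_z : (linFR F μ hk hμ).z = F.z := by
  change linY F μ (Fin.last d) = F.z
  rw [linY_last]

theorem linFR_y (i : Fin d) : (linFR F μ hk hμ).y i.castSucc =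
    F.y i.castSucc - algebraMap k Ω (μ i) * F.z := linY_castSucc F μ i

/-- The values `(μ, 1)`. -/
noncomputable def mu1 (μ : Fin d → k) : Fin (d + 1) → k := Fin.snoc (α := fun _ => k) μ 1

theorem y_sub_yhi (i : Fin (d + 1)) :
    (linFR F μ hk hμ).YHi (F.y i - algebraMap k Ω (mu1 μ i) * F.z) := by
  refine Fin.lastCases ?_ (fun i => ?_) i
  · rw [mu1, Fin.snoc_last, map_one, one_mul]
    change (linFR F μ hk hμ).YHi (F.z - F.z)
    rw [sub_self]
    exact FR.YHi.zero _
  · rw [mu1, Fin.snoc_castSucc]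
    have h1 := FR.YHi.y (F := linFR F μ hk hμ) i (FR.R (linFR F μ hk hμ)).one_mem
    rwa [linFR_y, mul_one] at h1

theorem aeval_mem_R (F : FR k v D) (P : MvPolynomial (Fin D) k) :
    MvPolynomial.aeval F.y P ∈ F.R := by
  induction P using MvPolynomial.induction_on with
  | C c => rw [MvPolynomial.aeval_C]; exact F.R.algebraMap_mem c
  | add P Q hP hQ => rw [map_add]; exact F.R.add_mem hP hQ
  | mul_X P i hP => rw [map_mul, MvPolynomial.aeval_X]; exact F.R.mul_mem hP (F.y_mem i)

theorem aeval_sub_yhi (P : MvPolynomial (Fin (d + 1)) k) :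
    (linFR F μ hk hμ).YHi (MvPolynomial.aeval F.y P -
      MvPolynomial.aeval (fun i => algebraMap k Ω (mu1 μ i) * F.z) P) := by
  have hR : ∀ P : MvPolynomial (Fin (d + 1)) k,
      MvPolynomial.aeval (fun i => algebraMap k Ω (mu1 μ i) * F.z) P ∈ F.R := fun P => by
    induction P using MvPolynomial.induction_on with
    | C c => rw [MvPolynomial.aeval_C]; exact F.R.algebraMap_mem c
    | add P Q hP hQ => rw [map_add]; exact F.R.add_mem hP hQ
    | mul_X P i hP =>
      rw [map_mul, MvPolynomial.aeval_X]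
      exact F.R.mul_mem hP (F.R.mul_mem (F.R.algebraMap_mem _) F.z_mem)
  induction P using MvPolynomial.induction_on with
  | C c => rw [MvPolynomial.aeval_C, MvPolynomial.aeval_C, sub_self]; exact FR.YHi.zero _
  | add P Q hP hQ =>
    rw [map_add, map_add]
    have := hP.add hQ
    convert this using 1
    ring
  | mul_X P i hP =>
    rw [map_mul, map_mul, MvPolynomial.aeval_X, MvPolynomial.aeval_X]
    have h1 := (hP.mul (c := F.y i) (F.y_mem i)).add
      ((y_sub_yhi (F := F) (μ := μ) (hk := hk) (hμ := hμ) i).mul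
        (c := MvPolynomial.aeval (fun i => algebraMap k Ω (mu1 μ i) * F.z) P) (hR P))
    convert h1 using 1
    ring

theorem aeval_homog {P : MvPolynomial (Fin D) k} {M : ℕ} (hP : P.IsHomogeneous M)
    (c : Fin D → k) (z : Ω) :
    MvPolynomial.aeval (fun i => algebraMap k Ω (c i) * z) P =
      algebraMap k Ω (MvPolynomial.eval c P) * z ^ M := by
  rw [MvPolynomial.aeval_def, MvPolynomial.eval₂_eq', MvPolynomial.eval_eq', map_sum,
    Finset.sum_mul]
  refine Finset.sum_congr rfl fun e he => ?_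
  have h1 : ∑ i, e i = M := by
    have h2 := hP (MvPolynomial.mem_support_iff.1 he)
    rw [Finsupp.weight_apply, Finsupp.sum_fintype _ _ (fun i => by simp)] at h2
    simpa using h2
  simp only [mul_pow]
  rw [Finset.prod_mul_distrib, Finset.prod_pow_eq_pow_sum, h1, map_mul, map_prod]
  simp only [map_pow]
  ring

/-- The elements of `(y)^j R` are powers of `z`, up to the other parameters. -/
theorem yi_sub (j : ℕ) : ∀ e ∈ F.YI j, ∃ b ∈ F.R, (linFR F μ hk hμ).YHi (e - F.z ^ j * b) := by
  induction j with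
  | zero =>
    intro e he
    unfold FR.YI at he
    rw [pow_zero, one_mul] at he
    exact ⟨e, he, by rw [pow_zero, one_mul, sub_self]; exact FR.YHi.zero _⟩
  | succ j ih =>
    intro e he
    have he' : e ∈ Submodule.span k (Set.range F.y) * F.YI j := by
      unfold FR.YI at he ⊢
      rwa [pow_succ', mul_assoc] at he
    induction he' using Submodule.mul_induction_on' with
    | mem_mul_mem a ha b hb =>
      obtain ⟨c, hc, h1⟩ := ih b hb
      clear he
      -- `a` is a combination of the parameters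
      have h2 : ∃ s : k, (linFR F μ hk hμ).YHi (a - algebraMap k Ω s * F.z) := by
        induction ha using Submodule.span_induction with
        | mem x hx =>
          obtain ⟨i, rfl⟩ := hx
          exact ⟨mu1 μ i, y_sub_yhi i⟩
        | zero => exact ⟨0, by rw [_root_.map_zero, zero_mul, sub_zero]; exact FR.YHi.zero _⟩
        | add x y _ _ hx hy =>
          obtain ⟨s, hs⟩ := hx
          obtain ⟨t, ht⟩ := hy
          refine ⟨s + t, ?_⟩
          have := hs.add ht
          rw [map_add]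
          convert this using 1
          ring
        | smul t x _ hx =>
          obtain ⟨s, hs⟩ := hx
          refine ⟨t * s, ?_⟩
          have := hs.mul (c := algebraMap k Ω t) ((linFR F μ hk hμ).R.algebraMap_mem t)
          rw [map_mul, Algebra.smul_def]
          convert this using 1
          ring
      obtain ⟨s, hs⟩ := h2
      have hbR : b ∈ F.R := by
        have h3 := h1.mem
        have h4 : F.z ^ j * c ∈ (linFR F μ hk hμ).R :=
          F.R.mul_mem (F.R.pow_mem F.z_mem j) hc
        have h5 := (linFR F μ hk hμ).R.add_mem h3 h4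
        rwa [sub_add_cancel] at h5
      refine ⟨algebraMap k Ω s * c, F.R.mul_mem (F.R.algebraMap_mem s) hc, ?_⟩
      have h3 := (hs.mul (c := b) hbR).add (h1.mul (c := algebraMap k Ω s * F.z)
        (F.R.mul_mem (F.R.algebraMap_mem s) F.z_mem))
      convert h3 using 1
      ring
    | add x hx y hy hx' hy' =>
      obtain ⟨b, hb, h1⟩ := hx' (by
        unfold FR.YI at hx ⊢
        rwa [pow_succ', mul_assoc])
      obtain ⟨c, hc, h2⟩ := hy' (by
        unfold FR.YI at hy ⊢
        rwa [pow_succ', mul_assoc])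
      refine ⟨b + c, F.R.add_mem hb hc, ?_⟩
      have := h1.add h2
      convert this using 1
      ring

end lin

/-- A point where finitely many conditions hold. -/
theorem exists_mu [Infinite k] (F : FR k v (d + 1)) {P : MvPolynomial (Fin (d + 1)) k} {M : ℕ}
    (hP : P.IsHomogeneous M) (hP0 : P ≠ 0) :
    ∃ μ : Fin d → k, (∀ i, F.y i.castSucc ≠ algebraMap k Ω (μ i) * F.z) ∧
      MvPolynomial.eval (mu1 μ) P ≠ 0 := by
  classical
  -- the forbidden values
  have hbad : ∀ i : Fin d, ∃ b : k, ∀ c : k, F.y i.castSucc = algebraMap k Ω c * F.z → c = b := by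
    intro i
    by_cases h : ∃ b : k, F.y i.castSucc = algebraMap k Ω b * F.z
    · obtain ⟨b, hb⟩ := h
      refine ⟨b, fun c hc => ?_⟩
      rw [hb] at hc
      exact ((algebraMap k Ω).injective (mul_right_cancel₀ F.z_ne hc)).symm
    · push Not at h
      exact ⟨0, fun c hc => absurd hc (h c)⟩
  choose b hb using hbad
  set X : Fin (d + 1) → MvPolynomial (Fin (d + 1)) k := MvPolynomial.X with hX
  set Q : MvPolynomial (Fin (d + 1)) k := P * X (Fin.last d) *
    ∏ i : Fin d, (X i.castSucc - MvPolynomial.C (b i) * X (Fin.last d)) with hQ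
  have hQ0 : Q ≠ 0 := by
    rw [hQ]
    refine mul_ne_zero (mul_ne_zero hP0 (MvPolynomial.X_ne_zero _))
      (Finset.prod_ne_zero_iff.2 fun i _ h0 => ?_)
    have h1 := congrArg (MvPolynomial.eval (fun j => if j = i.castSucc then (1 : k) else 0)) h0
    rw [map_sub, map_mul, hX, MvPolynomial.eval_X, MvPolynomial.eval_X, map_zero,
      if_pos rfl, if_neg (Fin.castSucc_lt_last i).ne', mul_zero, sub_zero] at h1
    exact one_ne_zero h1
  obtain ⟨c, hc⟩ : ∃ c : Fin (d + 1) → k, MvPolynomial.eval c Q ≠ 0 := by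
    by_contra h
    push Not at h
    exact hQ0 (MvPolynomial.funext fun c => by rw [h c, map_zero])
  rw [hQ, map_mul, map_mul, map_prod] at hc
  have hc1 := left_ne_zero_of_mul (left_ne_zero_of_mul hc)
  have hc2 := right_ne_zero_of_mul (left_ne_zero_of_mul hc)
  have hc3 := Finset.prod_ne_zero_iff.1 (right_ne_zero_of_mul hc)
  rw [hX, MvPolynomial.eval_X] at hc2
  refine ⟨fun i => c i.castSucc / c (Fin.last d), fun i h0 => ?_, fun h0 => hc1 ?_⟩
  · have h1 := hb i _ h0
    apply hc3 i (Finset.mem_univ i)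
    rw [map_sub, map_mul, hX, MvPolynomial.eval_X, MvPolynomial.eval_X, MvPolynomial.eval_C,
      ← h1, div_mul_cancel₀ _ hc2, sub_self]
  · have h1 := aeval_homog (Ω := k) hP (mu1 fun i => c i.castSucc / c (Fin.last d))
      (c (Fin.last d))
    rw [h0, map_zero, zero_mul] at h1
    have h2 : (fun i => algebraMap k k (mu1 (fun i => c i.castSucc / c (Fin.last d)) i) *
        c (Fin.last d)) = c := by
      funext i
      refine Fin.lastCases ?_ (fun i => ?_) i
      · rw [mu1, Fin.snoc_last, map_one, one_mul]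
      · rw [mu1, Fin.snoc_castSucc]
        exact div_mul_cancel₀ _ hc2
    rw [h2] at h1
    rw [← h1]
    exact (MvPolynomial.aeval_eq_eval c).symm ▸ rfl

/-- From the order to the order in the last parameter. -/
theorem exists_lin [Infinite k] (h : TA.CtxR k v n r) {F F₁ : FR k v (d + 1)} (hs : F.Same F₁)
    {f : Ω} {κ : ℝ} {M : ℕ} (hf : F₁.Ord f κ M) :
    ∃ G G₁ : FR k v (d + 1), F.Le G ∧ F₁.Le G₁ ∧ G.Same G₁ ∧ G.R = F.R ∧ G₁.R = F₁.R ∧
      G₁.ZRep f κ M := by
  obtain ⟨hκ, P, hP, hP0, e, he, γ, hγ, hγ0, a, ha, heq⟩ := hf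
  obtain ⟨μ, hμ, hμP⟩ := exists_mu F₁ hP hP0
  have hz : F.z = F₁.z := by
    change F.y _ = F₁.y _
    rw [hs.y_eq]
  have hk : ∀ c : k, v.Ge 0 (algebraMap k Ω c) := ctx_ge h
  have hμ' : ∀ i, F.y i.castSucc ≠ algebraMap k Ω (μ i) * F.z := fun i => by
    rw [hz, ← hs.y_eq]; exact hμ i
  refine ⟨linFR F μ hk hμ', linFR F₁ μ hk hμ, linFR_le, linFR_le,
    ⟨hs.Γ_eq, hs.χ_eq, ?_, hs.le⟩, rfl, rfl, hκ, ?_⟩
  · funext i
    change linY F₁ μ i = linY F μ i
    refine Fin.lastCases ?_ (fun i => ?_) i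
    · rw [linY_last, linY_last, hz]
    · rw [linY_castSucc, linY_castSucc, hz, hs.y_eq]
  · obtain ⟨b, hb, h1⟩ := yi_sub (F := F₁) (μ := μ) (hk := hk) (hμ := hμ) (M + 1) e he
    have h2 := aeval_sub_yhi (F := F₁) (μ := μ) (hk := hk) (hμ := hμ) P
    rw [aeval_homog hP] at h2
    refine ⟨algebraMap k Ω (MvPolynomial.eval (mu1 μ) P) + F₁.z * b, ?_, ?_⟩
    · exact (FR.Un.const h hμP).add_vpos (F₁.R.mul_mem F₁.z_mem hb)
        (FR.vpos_z.mul (F₁.nonneg b hb))
    · have h3 := (h2.add h1).add (FR.YHi.χ (F := linFR F₁ μ hk hμ) hγ hγ0 ha)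
      have h4 : (linFR F₁ μ hk hμ).χ = F₁.χ := rfl
      rw [linFR_z, h4, heq, mul_div_cancel_left₀ _ (F₁.χ_ne κ hκ)]
      rw [h4] at h3
      convert h3 using 1
      ring

end Pool.Agent.ALL
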