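import Pool.Agent.Lib.ALL5.Rows

/-!
# Extraction of a polynomial with coefficients in the base ring
-/

set_option autoImplicit false

open Polynomial

namespace Pool.Agent.ALL

open Pool.Agent.H15JM (RVal)
open Pool.Agent.LU1 (VPos locv quo le_locv locv_inv locv_le locv_mono locv_adjoin_le le_quo
  val_add_vpos)
open Pool.Agent.LU3 (resv)

universe u

variable {k Ω : Type u} [Field k] [Field Ω] [Algebra k Ω] {v : RVal Ω} {n r D d : ℕ}

/-! ### the spans `Hi` -/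

namespace FR

variable {F : FR k v D} {C : ℝ}

theorem mon_mem (F : FR k v D) {γ : ℝ} (hγ : γ ∈ F.Γ) (h0 : 0 ≤ γ) (e : Fin D → ℕ) :
    F.χ γ * ∏ i, F.y i ^ e i ∈ F.R :=
  F.R.mul_mem (F.χ_mem γ hγ h0) (F.R.prod_mem fun i _ => F.R.pow_mem (F.y_mem i) _)

theorem mon_ne (F : FR k v D) {γ : ℝ} (hγ : γ ∈ F.Γ) (e : Fin D → ℕ) :
    F.χ γ * ∏ i, F.y i ^ e i ≠ 0 :=
  mul_ne_zero (F.χ_ne γ hγ) (Finset.prod_ne_zero_iff.2 fun i _ => pow_ne_zero _ (F.y_ne i))

theorem val_prod (s : Finset (Fin D)) (e : Fin D → ℕ) :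
    v (∏ i ∈ s, F.y i ^ e i) = ∑ i ∈ s, (e i : ℝ) * v (F.y i) := by
  classical
  induction s using Finset.induction_on with
  | empty => simp [v.map_one]
  | insert a s ha ih =>
    rw [Finset.prod_insert ha, Finset.sum_insert ha, v.map_mul (pow_ne_zero _ (F.y_ne a))
      (Finset.prod_ne_zero_iff.2 fun i _ => pow_ne_zero _ (F.y_ne i)), ih,
      v.map_pow (F.y_ne a)]

theorem mon_val (F : FR k v D) {γ : ℝ} (hγ : γ ∈ F.Γ) (e : Fin D → ℕ) :
    v (F.χ γ * ∏ i, F.y i ^ e i) = γ + ∑ i, (e i : ℝ) * v (F.y i) := by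
  rw [v.map_mul (F.χ_ne γ hγ) (Finset.prod_ne_zero_iff.2 fun i _ => pow_ne_zero _ (F.y_ne i)),
    F.χ_val γ hγ, val_prod]

theorem Hi.mul {x c : Ω} (hx : x ∈ F.Hi C) (hc : c ∈ F.R) : c * x ∈ F.Hi C := by
  unfold FR.Hi at hx ⊢
  induction hx using Submodule.span_induction with
  | mem x hx =>
    obtain ⟨γ, hγ, h0, e, he, a, ha, rfl⟩ := hx
    exact Submodule.subset_span ⟨γ, hγ, h0, e, he, c * a, F.R.mul_mem hc ha, by ring⟩
  | zero => rw [mul_zero]; exact Submodule.zero_mem _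
  | add x y _ _ hx hy => rw [mul_add]; exact Submodule.add_mem _ hx hy
  | smul a x _ hx => rw [mul_smul_comm]; exact Submodule.smul_mem _ _ hx

theorem Hi.mem {x : Ω} (hx : x ∈ F.Hi C) : x ∈ F.R := by
  have : F.Hi C ≤ F.R.toSubmodule := by
    refine Submodule.span_le.2 ?_
    rintro x ⟨γ, hγ, h0, e, he, a, ha, rfl⟩
    exact F.R.mul_mem (F.mon_mem hγ h0 e) ha
  exact this hx

theorem Hi.ge (h : TA.CtxR k v n r) {x : Ω} (hx : x ∈ F.Hi C) : v.Ge C x := by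
  unfold FR.Hi at hx
  induction hx using Submodule.span_induction with
  | mem x hx =>
    obtain ⟨γ, hγ, h0, e, he, a, ha, rfl⟩ := hx
    have h1 : v.Ge C (F.χ γ * ∏ i, F.y i ^ e i) := fun _ => by rw [F.mon_val hγ e]; exact he
    simpa using h1.mul (F.nonneg a ha)
  | zero => exact fun h0 => absurd rfl h0
  | add x y _ _ hx hy => exact hx.add hy
  | smul a x _ hx =>
    rw [Algebra.smul_def]
    simpa using (ctx_ge h a).mul hx

theorem Hi.vpos (h : TA.CtxR k v n r) (hC : 0 < C) {x : Ω} (hx : x ∈ F.Hi C) : VPos v x :=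
  fun h0 => hC.trans_le (Hi.ge h hx h0)

/-- The elements of `Hi` are multiples of the elements of smaller value which have become
monomials. -/
theorem Hi.div (h : TA.CtxR k v n r) {F' : FR k v D} (hle : F.Le F')
    (hy : ∀ i, F'.Mono (F.y i)) {g : Ω} (hg : F'.Mono g) (hgC : v g < C) {x : Ω}
    (hx : x ∈ F.Hi C) : x / g ∈ F'.R ∧ VPos v (x / g) := by
  unfold FR.Hi at hx
  induction hx using Submodule.span_induction with
  | mem x hx =>
    obtain ⟨γ, hγ, h0, e, he, a, ha, rfl⟩ := hx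
    have hm : F'.Mono (F.χ γ * ∏ i, F.y i ^ e i) := by
      refine (hle.χ_mono hγ).mul ?_
      have : ∀ s : Finset (Fin D), F'.Mono (∏ i ∈ s, F.y i ^ e i) := by
        classical
        intro s
        induction s using Finset.induction_on with
        | empty => simpa using FR.Mono.un (F := F') FR.Un.one
        | insert b s hb ih =>
          rw [Finset.prod_insert hb]
          exact ((hy b).pow _).mul ih
      exact this _
    have hq : F'.Mono (F.χ γ * (∏ i, F.y i ^ e i) / g) := hm.div hg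
    have hqv : 0 < v (F.χ γ * (∏ i, F.y i ^ e i) / g) := by
      rw [v.map_div hm.1 hg.1, F.mon_val hγ e]
      linarith
    have h1 : F.χ γ * (∏ i, F.y i ^ e i) * a / g = (F.χ γ * (∏ i, F.y i ^ e i) / g) * a := by
      ring
    rw [h1]
    exact ⟨F'.R.mul_mem (hq.mem hqv.le) (hle.le ha),
      LU1.VPos.mul (fun _ => hqv) (F.nonneg a ha)⟩
  | zero => rw [zero_div]; exact ⟨F'.R.zero_mem, LU1.VPos.zero⟩
  | add x y _ _ hx hy =>
    rw [add_div]
    exact ⟨F'.R.add_mem hx.1 hy.1, hx.2.add hy.2⟩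
  | smul a x _ hx =>
    rw [Algebra.smul_def, mul_div_assoc]
    exact ⟨F'.R.mul_mem (F'.R.algebraMap_mem a) hx.1, LU1.VPos.mul' (ctx_ge h a) hx.2⟩

/-- An element which is close to a monomial is a monomial. -/
theorem Mono.of_close (h : TA.CtxR k v n r) {F' : FR k v D} (hle : F.Le F')
    (hy : ∀ i, F'.Mono (F.y i)) {f g : Ω} (hg : F'.Mono g) (hgC : v g < C)
    (hfg : f - g ∈ F.Hi C) : F'.Mono f := by
  obtain ⟨h1, h2⟩ := Hi.div h hle hy hg hgC hfg
  have h3 : f = g * (1 + (f - g) / g) := by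
    rw [mul_add, mul_one, mul_div_cancel₀ _ hg.1]; ring
  rw [h3]
  exact hg.mul (FR.Mono.un (FR.Un.one.add_vpos h1 h2))

end FR

/-! ### polynomials in the last parameter -/

variable {Ω₀ : IntermediateField k Ω}

/-- Polynomials in the last parameter over the base ring. -/
theorem exists_poly5 {F : FR k v (d + 1)} {S : FR k (resv v Ω₀) d} (hF : Base F S) {p : Ω}
    (hp : p ∈ Algebra.adjoin k (F.χ '' {γ | γ ∈ F.Γ ∧ 0 ≤ γ} ∪ Set.range F.y)) :
    ∃ A : Ω₀[X], (∀ j, A.coeff j ∈ S.R) ∧ aeval F.z A = p := by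
  have hC : ∀ c ∈ S.R, ∀ j, (C c : Ω₀[X]).coeff j ∈ S.R := fun c hc j => by
    rw [coeff_C]
    split
    · exact hc
    · exact S.R.zero_mem
  induction hp using Algebra.adjoin_induction with
  | mem x hx =>
    rcases hx with ⟨γ, ⟨hγ, h0⟩, rfl⟩ | ⟨i, rfl⟩
    · have hγ' : γ ∈ S.Γ := by rw [← hF.Γ_eq]; exact hγ
      refine ⟨C (S.χ γ), hC _ (S.χ_mem γ hγ' h0), ?_⟩
      rw [aeval_C, hF.χ_eq γ hγ']
      rfl
    · refine Fin.lastCases ?_ (fun i => ?_) i
      · refine ⟨X, fun j => ?_, aeval_X _⟩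
        rw [coeff_X]
        split
        · exact S.R.one_mem
        · exact S.R.zero_mem
      · refine ⟨C (S.y i), hC _ (S.y_mem i), ?_⟩
        rw [aeval_C, hF.y_eq]
        rfl
  | algebraMap c =>
    refine ⟨C (algebraMap k Ω₀ c), hC _ (S.R.algebraMap_mem c), ?_⟩
    rw [aeval_C]
    rfl
  | add x y _ _ hx hy =>
    obtain ⟨A, hA, rfl⟩ := hx
    obtain ⟨A', hA', rfl⟩ := hy
    exact ⟨A + A', fun j => by rw [coeff_add]; exact S.R.add_mem (hA j) (hA' j), by rw [map_add]⟩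
  | mul x y _ _ hx hy =>
    obtain ⟨A, hA, rfl⟩ := hx
    obtain ⟨A', hA', rfl⟩ := hy
    refine ⟨A * A', fun j => ?_, by rw [map_mul]⟩
    rw [coeff_mul]
    exact S.R.sum_mem fun i _ => S.R.mul_mem (hA _) (hA' _)

theorem aeval_mem {F : FR k v (d + 1)} {S : FR k (resv v Ω₀) d} (hF : Base F S) {A : Ω₀[X]}
    (hA : ∀ j, A.coeff j ∈ S.R) : aeval F.z A ∈ F.R := by
  rw [aeval_eq_sum_range]
  refine F.R.sum_mem fun i _ => ?_
  rw [Algebra.smul_def]
  exact F.R.mul_mem (hF.mem _ (hA i)) (F.R.pow_mem F.z_mem i)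

/-- The constant coefficient of a polynomial whose value at `z` is a unit. -/
theorem coeff_zero_un {F : FR k v (d + 1)} {S : FR k (resv v Ω₀) d} (hF : Base F S) {A : Ω₀[X]}
    (hA : ∀ j, A.coeff j ∈ S.R) (h0 : aeval F.z A ≠ 0) (h1 : v (aeval F.z A) = 0) :
    S.Un (A.coeff 0) := by
  have h2 : aeval F.z A = F.z * aeval F.z A.divX + (A.coeff 0 : Ω) := by
    conv_lhs => rw [← divX_mul_X_add A]
    rw [map_add, map_mul, aeval_X, aeval_C, mul_comm]
    rfl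
  have h3 : VPos v (-(F.z * aeval F.z A.divX)) :=
    (FR.vpos_z.mul (F.nonneg _ (aeval_mem hF fun j => by rw [coeff_divX]; exact hA _))).neg
  have h4 := val_add_vpos h0 h1 h3
  have h5 : aeval F.z A + -(F.z * aeval F.z A.divX) = (A.coeff 0 : Ω) := by
    rw [h2]
    ring
  rw [h5] at h4
  exact ⟨hA 0, fun h6 => h4.1 (by rw [h6]; rfl), h4.2⟩

/-- An element of order `m` over the extension `F₁` of `F` (with the same parameters) is close to
a polynomial of order `m` over the base ring. -/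
theorem exists_HA (h5f : Row5f k) (h : TA.CtxR k v n r) (hr : 0 < r) {F F₁ : FR k v (d + 1)}
    (hs : F.Same F₁) {S : FR k (resv v Ω₀) d} (hB : Base F S) {f : Ω} {κ : ℝ} {m : ℕ}
    (hf : F₁.ZRep f κ m) (hf0 : f ≠ 0) :
    ∃ A : Ω₀[X], HA S A m ∧ aeval F.z A ≠ 0 ∧ ∃ C : ℝ, v (aeval F.z A) < C ∧
      f / F₁.χ κ - aeval F.z A ∈ F₁.Hi C := by
  classical
  obtain ⟨hκ, u, hu, b, hb, δ, hδ, hδ0, a, ha, heq⟩ := hf
  have hδF : δ ∈ F.Γ := by rw [← hs.Γ_eq]; exact hδ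
  have hδS : δ ∈ S.Γ := by rw [← hB.Γ_eq]; exact hδF
  have hf'0 : f / F₁.χ κ ≠ 0 := div_ne_zero hf0 (F₁.χ_ne κ hκ)
  have hz1 : F₁.z = F.z := by
    change F₁.y _ = F.y _
    rw [hs.y_eq]
  set C : ℝ := max (v (f / F₁.χ κ)) 0 + 1 with hCdef
  have hC0 : 0 < C := by have := le_max_right (v (f / F₁.χ κ)) 0; linarith
  have hCf : v (f / F₁.χ κ) < C := by have := le_max_left (v (f / F₁.χ κ)) 0; linarith
  have hset : Algebra.adjoin k (F₁.χ '' {γ | γ ∈ F₁.Γ ∧ 0 ≤ γ} ∪ Set.range F₁.y) =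
      Algebra.adjoin k (F.χ '' {γ | γ ∈ F.Γ ∧ 0 ≤ γ} ∪ Set.range F.y) := by
    congr 2
    · rw [hs.Γ_eq]
      exact Set.image_congr fun γ hγ => hs.χ_eq γ hγ.1
    · rw [hs.y_eq]
  have happ : ∀ g ∈ F₁.R, ∃ A : Ω₀[X], (∀ j, A.coeff j ∈ S.R) ∧ g - aeval F.z A ∈ F₁.Hi C := by
    intro g hg
    obtain ⟨g₀, hg₀, h1⟩ := h5f Ω v n r (d + 1) h hr F₁ g hg C
    rw [hset] at hg₀
    obtain ⟨A, hA, rfl⟩ := exists_poly5 hB hg₀
    exact ⟨A, hA, h1⟩
  obtain ⟨U, hU, hUu⟩ := happ u hu.1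
  choose B hB' hBb using fun i => happ (b i) (hb i)
  obtain ⟨W, hW, hWa⟩ := happ a ha
  -- the constant coefficient of `U`
  have hU0 : S.Un (U.coeff 0) := by
    have h1 := val_add_vpos hu.2.1 hu.2.2 (FR.Hi.vpos h hC0 hUu).neg
    have h2 : u + -(u - aeval F.z U) = aeval F.z U := by ring
    rw [h2] at h1
    exact coeff_zero_un hB hU h1.1 h1.2
  set V : Ω₀[X] := ∑ i, Polynomial.C (S.y i) * B i with hV
  have hVc : ∀ j, V.coeff j ∈ S.R ∧ VPos (resv v Ω₀) (V.coeff j) := fun j => by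
    rw [hV, finsetSum_coeff]
    simp only [coeff_C_mul]
    exact ⟨S.R.sum_mem fun i _ => S.R.mul_mem (S.y_mem i) (hB' i j),
      vpos_sum _ _ fun i _ => (S.vpos_y i).mul (S.nonneg _ (hB' i j))⟩
  have hWc : ∀ j, S.χ δ * W.coeff j ∈ S.R ∧ VPos (resv v Ω₀) (S.χ δ * W.coeff j) := fun j =>
    ⟨S.R.mul_mem (S.χ_mem δ hδS hδ0.le) (hW j),
      (FR.vpos_χ hδS hδ0).mul (S.nonneg _ (hW j))⟩
  have hrest : ∀ j, V.coeff j + S.χ δ * W.coeff j ∈ S.R ∧
      VPos (resv v Ω₀) (V.coeff j + S.χ δ * W.coeff j) := fun j =>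
    ⟨S.R.add_mem (hVc j).1 (hWc j).1, (hVc j).2.add (hWc j).2⟩
  have hco : ∀ j, (U * X ^ m + V + Polynomial.C (S.χ δ) * W).coeff j =
      (if m ≤ j then U.coeff (j - m) else 0) + (V.coeff j + S.χ δ * W.coeff j) := by
    intro j
    rw [coeff_add, coeff_add, coeff_C_mul, coeff_mul_X_pow', add_assoc]
  set A : Ω₀[X] := U * X ^ m + V + Polynomial.C (S.χ δ) * W with hAdef
  have hA : HA S A m := by
    refine ⟨fun j => ?_, fun j hj => ?_, ?_⟩
    · rw [hco]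
      refine S.R.add_mem ?_ (hrest j).1
      split
      · exact hU _
      · exact S.R.zero_mem
    · rw [hco, if_neg (by omega), zero_add]
      exact (hrest j).2
    · rw [hco, if_pos le_rfl, Nat.sub_self]
      exact hU0.add_vpos (hrest m).1 (hrest m).2
  have hAe : aeval F.z A = aeval F.z U * F.z ^ m + (∑ i, F.y i.castSucc * aeval F.z (B i)) +
      F.χ δ * aeval F.z W := by
    rw [hAdef, map_add, map_add, map_mul, map_mul, map_pow, aeval_X, hV, map_sum, aeval_C]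
    congr 1
    · congr 1
      refine Finset.sum_congr rfl fun i _ => ?_
      rw [map_mul, aeval_C, hB.y_eq]
      rfl
    · rw [hB.χ_eq δ hδS]
      rfl
  have hdiff : f / F₁.χ κ - aeval F.z A ∈ F₁.Hi C := by
    have h1 : f / F₁.χ κ - aeval F.z A = F.z ^ m * (u - aeval F.z U) +
        (∑ i, F.y i.castSucc * (b i - aeval F.z (B i))) + F.χ δ * (a - aeval F.z W) := by
      have h2 : f / F₁.χ κ = u * F.z ^ m + ((∑ i, F.y i.castSucc * b i) + F.χ δ * a) := by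
        rw [sub_eq_iff_eq_add, hz1, hs.y_eq, hs.χ_eq δ hδF] at heq
        rw [heq]; ring
      rw [h2, hAe]
      simp only [mul_sub, Finset.sum_sub_distrib]
      ring
    rw [h1]
    refine Submodule.add_mem _ (Submodule.add_mem _ (FR.Hi.mul hUu (F₁.R.pow_mem ?_ m))
      (Submodule.sum_mem _ fun i _ => FR.Hi.mul (hBb i) ?_)) (FR.Hi.mul hWa ?_)
    · rw [← hz1]; exact F₁.z_mem
    · rw [← hs.y_eq]; exact F₁.y_mem _
    · rw [← hs.χ_eq δ hδF]; exact F₁.χ_mem δ hδ hδ0.le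
  have hval : aeval F.z A ≠ 0 ∧ v (aeval F.z A) = v (f / F₁.χ κ) := by
    have h1 : v.Ge C (-(f / F₁.χ κ - aeval F.z A)) := (FR.Hi.ge h hdiff).neg
    have h2 : aeval F.z A = f / F₁.χ κ + -(f / F₁.χ κ - aeval F.z A) := by ring
    by_cases h3 : -(f / F₁.χ κ - aeval F.z A) = 0
    · rw [h3, add_zero] at h2
      rw [h2]; exact ⟨hf'0, rfl⟩
    · rw [h2]
      exact v.add_of_lt hf'0 h3 (hCf.trans_le (h1 h3))
  exact ⟨A, hA, hval.1, C, by rw [hval.2]; exact hCf, hdiff⟩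

end Pool.Agent.ALL
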