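import Pool.Agent.Lib.ALL5.Lift
import Pool.Agent.Lib.ALL5.Poly5
import Pool.Agent.Lib.ALL5.LinCh

/-!
# The induction on the order and the real block Y
-/

set_option autoImplicit false

open Polynomial

namespace Pool.Agent.ALL

open Pool.Agent.H15JM (RVal)
open Pool.Agent.LU1 (VPos locv quo le_locv locv_inv locv_le locv_mono locv_adjoin_le le_quo
  val_add_vpos)
open Pool.Agent.LU3 (resv)

universe u

variable {k Ω : Type u} [Field k] [Field Ω] [Algebra k Ω] {v : RVal Ω} {n r D d : ℕ}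

theorem FR.Same.refl (F : FR k v D) : F.Same F := ⟨rfl, fun _ _ => rfl, rfl, le_rfl⟩

theorem FR.Same.mono {F F₁ : FR k v D} (h : F.Same F₁) {f : Ω} (hf : F.Mono f) : F₁.Mono f :=
  ⟨hf.1, by rw [h.Γ_eq]; exact hf.2.1, by
    rw [h.χ_eq _ hf.2.1]; exact ⟨h.le hf.2.2.1, hf.2.2.2⟩⟩

/-- One drop of the order, for an element close to the given one. -/
theorem exists_drop [IsAlgClosed Ω] {p : ℕ} (h5b : Row5b k) (h5b' : Row5b' k) (h5e : Row5e k p)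
    (h5f : Row5f k) (h : TA.CtxR k v n r) (hr : 0 < r) (hn : n = r + (d + 1))
    (hE : EmbAll k (r + d)) {F F₁ : FR k v (d + 1)} (hs : F.Same F₁) {f : Ω} {κ : ℝ} {M : ℕ}
    (hf : F₁.ZRep f κ M) (hf0 : f ≠ 0) (hM0 : 0 < M) (hMp : M < p) :
    ∃ (g : Ω) (C : ℝ), g ≠ 0 ∧ F.Drop g M ∧ v g < C ∧ f / F₁.χ κ - g ∈ F₁.Hi C := by
  obtain ⟨Ω₀, S, hcl, hc1, hztr, hB⟩ := h5b Ω v n r d h hr hn F
  have := hcl
  have hLU : LUr k Ω₀ (resv v Ω₀) d := h5b' Ω₀ (resv v Ω₀) (r + d) r d hE hc1 hr rfl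
  obtain ⟨A, hA, hA0, C, hC, hfA⟩ := exists_HA h5f h hr hs hB hf hf0
  refine ⟨aeval F.z A, C, hA0, ?_, hC, hfA⟩
  rcases h5e Ω v n r (r + d) Ω₀ h hc1 F.z F.z_pos hztr (quo S.R) A M
    (fun j => le_quo (hA.mem j)) (fun j => S.nonneg _ (hA.mem j)) hA.low hA.unit.2.1
    hA.unit.2.2 hM0 hMp with ⟨ζ, hζ0, hζ, ψ, hψ, h1, h2, g, hg, hg0, hgv⟩ | ⟨ψ, hψ, hno⟩
  · exact stepA1 h hc1 hLU hztr hB hM0 hA hζ0 hζ hψ h1 h2 hg hg0 hgv
  · exact stepA2 h hc1 hLU hztr hB hM0 hA hψ hno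

/-- The induction on the order. -/
theorem exists_mono_of_zrep [IsAlgClosed Ω] {p : ℕ} (h5b : Row5b k) (h5b' : Row5b' k)
    (h5e : Row5e k p) (h5f : Row5f k) (h : TA.CtxR k v n r) (hr : 0 < r)
    (hn : n = r + (d + 1)) (hE : EmbAll k (r + d)) (M : ℕ) :
    M < p → ∀ (F : FR k v (d + 1)) (f : Ω) (κ : ℝ), F.ZRep f κ M → f ≠ 0 →
      ∃ F' : FR k v (d + 1), F.Le F' ∧ F'.Mono f := by
  induction M using Nat.strong_induction_on with
  | _ M ih =>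
    intro hMp F f κ hf hf0
    rcases Nat.eq_zero_or_pos M with rfl | hM0
    · exact ⟨F, FR.Le.refl F, hf.mono_zero⟩
    obtain ⟨g, C, hg0, ⟨F₁, hle, hy, κ', m', hm', hz⟩, hC, hfg⟩ :=
      exists_drop h5b h5b' h5e h5f h hr hn hE (FR.Same.refl F) hf hf0 hM0 hMp
    obtain ⟨F₂, hle2, hg⟩ := ih m' hm' (hm'.trans hMp) F₁ g κ' hz hg0
    have hle3 := hle.trans hle2
    refine ⟨F₂, hle3, ?_⟩
    have h1 := FR.Mono.of_close h hle3 (fun i => hle2.mono (hy i)) hg hC hfg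
    have h2 := (hle3.χ_mono hf.1).mul h1
    rwa [mul_div_cancel₀ _ (F.χ_ne κ hf.1)] at h2

/-- Real block Y for the order in the last parameter. -/
theorem exists_pair [IsAlgClosed Ω] {p : ℕ} (h5b : Row5b k) (h5b' : Row5b' k)
    (h5e : Row5e k p) (h5f : Row5f k) (h : TA.CtxR k v n r) (hr : 0 < r)
    (hn : n = r + (d + 1)) (hE : EmbAll k (r + d)) {F F₁ : FR k v (d + 1)} (hs : F.Same F₁)
    {f : Ω} {κ : ℝ} {M : ℕ} (hMp : M < p) (hf : F₁.ZRep f κ M) (hf0 : f ≠ 0) :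
    ∃ F' F₁' : FR k v (d + 1), F.Le F' ∧ F₁.Le F₁' ∧ F'.Same F₁' ∧
      F₁'.R = locv v (Algebra.adjoin k ((F₁.R : Set Ω) ∪ F'.R)) ∧ F₁'.Mono f := by
  rcases Nat.eq_zero_or_pos M with rfl | hM0
  · obtain ⟨F₁', h1, h2, h3⟩ := exists_lift h hr hs (FR.Le.refl F)
    exact ⟨F, F₁', FR.Le.refl F, h1, h2, h3, h1.mono hf.mono_zero⟩
  · obtain ⟨g, C, hg0, ⟨G, hle, hy, κ', m', hm', hz⟩, hC, hfg⟩ :=
      exists_drop h5b h5b' h5e h5f h hr hn hE hs hf hf0 hM0 hMp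
    obtain ⟨F', hle2, hg⟩ := exists_mono_of_zrep h5b h5b' h5e h5f h hr hn hE m'
      (hm'.trans hMp) G g κ' hz hg0
    obtain ⟨F₁', h1, h2, h3⟩ := exists_lift h hr hs (hle.trans hle2)
    refine ⟨F', F₁', hle.trans hle2, h1, h2, h3, ?_⟩
    have h4 := FR.Mono.of_close h h1 (fun i => by
      rw [hs.y_eq]
      exact h2.mono (hle2.mono (hy i))) (h2.mono hg) hC hfg
    have h5 := (h1.χ_mono hf.1).mul h4
    rwa [mul_div_cancel₀ _ (F₁.χ_ne κ hf.1)] at h5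

/-- An element of order `0` is a monomial. -/
theorem FR.Ord.mono_zero (h : TA.CtxR k v n r) {F : FR k v D} {f : Ω} {κ : ℝ}
    (hf : F.Ord f κ 0) : F.Mono f := by
  obtain ⟨hκ, P, hP, hP0, e, he, γ, hγ, hγ0, a, ha, rfl⟩ := hf
  -- the elements of `(y) R`
  have hyi : ∀ e ∈ F.YI (0 + 1), e ∈ F.R ∧ VPos v e := by
    intro e he
    unfold FR.YI at he
    rw [zero_add, pow_one] at he
    induction he using Submodule.mul_induction_on' with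
    | mem_mul_mem a ha b hb =>
      have h1 : a ∈ F.R ∧ VPos v a := by
        induction ha using Submodule.span_induction with
        | mem x hx => obtain ⟨i, rfl⟩ := hx; exact ⟨F.y_mem i, F.vpos_y i⟩
        | zero => exact ⟨F.R.zero_mem, LU1.VPos.zero⟩
        | add x y _ _ hx hy => exact ⟨F.R.add_mem hx.1 hy.1, hx.2.add hy.2⟩
        | smul t x _ hx =>
          rw [Algebra.smul_def]
          exact ⟨F.R.mul_mem (F.R.algebraMap_mem t) hx.1, LU1.VPos.mul' (ctx_ge h t) hx.2⟩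
      exact ⟨F.R.mul_mem h1.1 hb, h1.2.mul (F.nonneg b hb)⟩
    | add x _ y _ hx hy => exact ⟨F.R.add_mem hx.1 hy.1, hx.2.add hy.2⟩
  have hPC : P = MvPolynomial.C (MvPolynomial.coeff 0 P) :=
    MvPolynomial.totalDegree_eq_zero_iff_eq_C.1 (Nat.le_zero.1 hP.totalDegree_le)
  have hc0 : MvPolynomial.coeff 0 P ≠ 0 := by
    intro h0
    rw [h0, map_zero] at hPC
    exact hP0 hPC
  rw [hPC, MvPolynomial.aeval_C]
  refine (FR.Mono.χ hκ).mul (FR.Mono.un ?_)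
  rw [add_assoc]
  obtain ⟨h1, h2⟩ := hyi e he
  exact (FR.Un.const h hc0).add_vpos (F.R.add_mem h1 (F.R.mul_mem (F.χ_mem γ hγ hγ0.le) ha))
    (h2.add ((FR.vpos_χ hγ hγ0).mul (F.nonneg a ha)))

/-- Real block Y, for `δ ≠ 0`. -/
theorem yAux [Infinite k] [IsAlgClosed Ω] {p : ℕ} (h5b : Row5b k) (h5b' : Row5b' k)
    (h5e : Row5e k p) (h5f : Row5f k) (h : TA.CtxR k v n r) (hr : 0 < r) (hn : n = r + D)
    (hE : EmbAll k (n - 1)) {F F₁ : FR k v D} (hs : F.Same F₁)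
    {f : Ω} {κ : ℝ} {M : ℕ} (hf : F₁.Ord f κ M) (hMp : M < p) (hf0 : f ≠ 0) :
    ∃ F' F₁' : FR k v D, F.Le F' ∧ F₁.Le F₁' ∧ F'.Same F₁' ∧
      F₁'.R = locv v (Algebra.adjoin k ((F₁.R : Set Ω) ∪ F'.R)) ∧ F₁'.Mono f := by
  cases D with
  | zero =>
    obtain ⟨F₁', h1, h2, h3⟩ := exists_lift h hr hs (FR.Le.refl F)
    have hM : M = 0 := by
      obtain ⟨hκ, P, hP, hP0, -⟩ := hf
      exact ((MvPolynomial.isHomogeneous_of_isEmpty _ _ P).inj_right hP hP0).symm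
    subst hM
    exact ⟨F, F₁', FR.Le.refl F, h1, h2, h3, h1.mono (hf.mono_zero h)⟩
  | succ d =>
    have hE' : EmbAll k (r + d) := by
      have h1 : n - 1 = r + d := by omega
      rwa [h1] at hE
    obtain ⟨G, G₁, hle, hle1, hs', hR, hR1, hz⟩ := exists_lin h hs hf
    obtain ⟨F', F₁', h1, h2, h3, h4, h5⟩ :=
      exists_pair h5b h5b' h5e h5f h hr hn hE' hs' hMp hz hf0
    exact ⟨F', F₁', hle.trans h1, hle1.trans h2, h3, by rw [h4, hR1], h5⟩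

end Pool.Agent.ALL
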