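import Pool.Agent.Lib.ALL5.Stp
import Pool.Agent.Lib.ALL.Iface

/-!
# The rows of the real block Y (statements)
-/

set_option autoImplicit false

open Polynomial

namespace Pool.Agent.ALL

open Pool.Agent.H15JM (RVal)
open Pool.Agent.LU1 (VPos locv quo)
open Pool.Agent.LU3 (resv)

universe u

/-- K1: the `r + D` parameters of a frame are algebraically independent. -/
def RowK1 (k : Type u) [Field k] : Prop :=
  ∀ (Ω : Type u) [Field Ω] [Algebra k Ω] (v : RVal Ω) (n r D : ℕ), TA.CtxR k v n r → 0 < r →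
    n = r + D → ∀ (F : FR k v D) (g : Ω),
      IsAlgebraic (Algebra.adjoin k (F.χ '' {γ | γ ∈ F.Γ} ∪ Set.range F.y)) g

/-- 5b: the base field and the base frame. -/
def Row5b (k : Type u) [Field k] : Prop :=
  ∀ (Ω : Type u) [Field Ω] [Algebra k Ω] [IsAlgClosed Ω] (v : RVal Ω) (n r d : ℕ),
    TA.CtxR k v n r → 0 < r → n = r + (d + 1) → ∀ F : FR k v (d + 1),
      ∃ (Ω₀ : IntermediateField k Ω) (S : FR k (resv v Ω₀) d), IsAlgClosed Ω₀ ∧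
        TA.CtxR k (resv v Ω₀) (r + d) r ∧ Transcendental Ω₀ F.z ∧ Base F S

/-- 5b': embedded local uniformization of the frames of the base field. -/
def Row5b' (k : Type u) [Field k] : Prop :=
  ∀ (Ω : Type u) [Field Ω] [Algebra k Ω] [IsAlgClosed Ω] (v : RVal Ω) (n r d : ℕ),
    EmbAll k n → TA.CtxR k v n r → 0 < r → n = r + d → LUr k Ω v d

/-- 5e: the dichotomy. -/
def Row5e (k : Type u) [Field k] (p : ℕ) : Prop :=
  ∀ (Ω : Type u) [Field Ω] [Algebra k Ω] (v : RVal Ω) (n r n₀ : ℕ)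
    (Ω₀ : IntermediateField k Ω) [IsAlgClosed Ω₀], TA.CtxR k v n r →
    TA.CtxR k (resv v Ω₀) n₀ r → ∀ z : Ω, 0 < v z → Transcendental Ω₀ z →
    ∀ (L₀ : IntermediateField k Ω₀) (A : Ω₀[X]) (M : ℕ), (∀ j, A.coeff j ∈ L₀) →
      (∀ j, (resv v Ω₀).Ge 0 (A.coeff j)) → (∀ j < M, VPos (resv v Ω₀) (A.coeff j)) →
      A.coeff M ≠ 0 → resv v Ω₀ (A.coeff M) = 0 → 0 < M → M < p →
      (∃ ζ : Ω₀, A.eval ζ = 0 ∧ VPos (resv v Ω₀) ζ ∧ ∃ ψ ∈ L₀,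
        v (z - (ζ : Ω)) ≤ v (z - (ψ : Ω)) ∧ v z ≤ v (z - (ψ : Ω)) ∧
        ∃ g ∈ L₀, g ≠ 0 ∧ resv v Ω₀ g = v (z - (ψ : Ω))) ∨
      (∃ ψ ∈ L₀, ∀ g ∈ L₀, g ≠ 0 → resv v Ω₀ g ≠ v (z - (ψ : Ω)))

/-- The `k`-span of the products `χ(γ) ∏ y_i^(e_i) a`, `a ∈ R`, `γ ≥ 0`, whose monomial has a value
`≥ C`. -/
def FR.Hi {k Ω : Type u} [Field k] [Field Ω] [Algebra k Ω] {v : RVal Ω} {D : ℕ} (F : FR k v D)
    (C : ℝ) : Submodule k Ω :=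
  Submodule.span k {x | ∃ γ ∈ F.Γ, 0 ≤ γ ∧ ∃ e : Fin D → ℕ, C ≤ γ + ∑ i, (e i : ℝ) * v (F.y i) ∧
    ∃ a ∈ F.R, x = F.χ γ * (∏ i, F.y i ^ e i) * a}

/-- 5f: approximation by polynomials in the parameters. -/
def Row5f (k : Type u) [Field k] : Prop :=
  ∀ (Ω : Type u) [Field Ω] [Algebra k Ω] (v : RVal Ω) (n r D : ℕ), TA.CtxR k v n r → 0 < r →
    ∀ (F : FR k v D), ∀ f ∈ F.R, ∀ C : ℝ,
      ∃ f₀ ∈ Algebra.adjoin k (F.χ '' {γ | γ ∈ F.Γ ∧ 0 ≤ γ} ∪ Set.range F.y), f - f₀ ∈ F.Hi C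

end Pool.Agent.ALL
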