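import Pool.Agent.Lib.ALL5.Stz
import Pool.Agent.Lib.LU3.StepA

/-!
# The steps A1 and A2 of the induction on the order, `d + 1` parameters
-/

set_option autoImplicit false

open Polynomial

namespace Pool.Agent.ALL

open Pool.Agent.H15JM (RVal)
open Pool.Agent.LU1 (VPos locv quo le_locv locv_inv locv_le locv_mono locv_adjoin_le le_quo
  val_add_vpos LatData)
open Pool.Agent.LU3 (MonD resv aeval_taylor_sub taylor_coeff_mem vge_pow mult_le
  mult_lt_of_root coeff_sum_range)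

universe u

section Gen

variable {k K : Type u} [Field k] [Field K] [Algebra k K] {v : RVal K} {n r d D : ℕ}

theorem natCast_ge (h : TA.CtxR k v n r) (m : ℕ) : v.Ge 0 ((m : ℕ) : K) := by
  have h1 := ctx_ge h (m : k)
  rwa [map_natCast] at h1

/-- The Taylor coefficients at an element of positive value are congruent to the coefficients. -/
theorem taylor_sub_vpos (h : TA.CtxR k v n r) {A : K[X]} (hA : ∀ j, v.Ge 0 (A.coeff j)) {ψ : K}
    (hψ : VPos v ψ) (m : ℕ) : VPos v ((taylor ψ A).coeff m - A.coeff m) := by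
  rw [taylor_coeff, eval_eq_sum_range, Finset.sum_range_succ']
  have h1 : (hasseDeriv m A).coeff 0 * ψ ^ 0 = A.coeff m := by
    rw [hasseDeriv_coeff, pow_zero, mul_one, zero_add, Nat.choose_self, Nat.cast_one, one_mul]
  rw [h1, add_sub_cancel_right]
  refine vpos_sum _ _ fun i _ => ?_
  rw [hasseDeriv_coeff, pow_succ, ← mul_assoc]
  have h2 : v.Ge 0 (((i + 1 + m).choose m : K) * A.coeff (i + 1 + m) * ψ ^ i) := by
    have h3 := (natCast_ge h ((i + 1 + m).choose m)).mul (hA (i + 1 + m))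
    have h4 := h3.mul (vge_pow hψ.ge i)
    simpa using h4
  exact LU1.VPos.mul' h2 hψ

/-- The sum over a range, as a difference of two evaluations. -/
theorem eval_sub_vpos (hc : TA.CtxR k v n r) {gj : ℕ → K} {e : ℕ → k} {M : ℕ}
    (he : ∀ j, VPos v (gj j - algebraMap k K (e j))) {ξ : K} {d : k}
    (hξ : VPos v (ξ - algebraMap k K d))
    (h0 : ∑ j ∈ Finset.range M, gj j * ξ ^ j = 0) :
    ∑ j ∈ Finset.range M, e j * d ^ j = 0 := by
  apply ctx_const hc
  have hξge : v.Ge 0 ξ := by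
    have h1 := hξ.ge.add (ctx_ge hc d)
    rwa [sub_add_cancel] at h1
  have hpow : ∀ j : ℕ, VPos v (ξ ^ j - algebraMap k K (d ^ j)) := by
    intro j
    induction j with
    | zero => simp [LU1.VPos.zero]
    | succ j ih =>
      have h1 : ξ ^ (j + 1) - algebraMap k K (d ^ (j + 1)) =
          (ξ ^ j - algebraMap k K (d ^ j)) * ξ +
            algebraMap k K (d ^ j) * (ξ - algebraMap k K d) := by
        rw [pow_succ, pow_succ, map_mul]; ring
      rw [h1]
      exact (ih.mul hξge).add (LU1.VPos.mul' (ctx_ge hc _) hξ)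
  have h1 : algebraMap k K (∑ j ∈ Finset.range M, e j * d ^ j) =
      -∑ j ∈ Finset.range M, (gj j * ξ ^ j - algebraMap k K (e j) * algebraMap k K (d ^ j)) := by
    rw [Finset.sum_sub_distrib, h0, map_sum]
    simp
  rw [h1]
  refine LU1.VPos.neg (vpos_sum _ _ fun j _ => ?_)
  have h2 : gj j * ξ ^ j - algebraMap k K (e j) * algebraMap k K (d ^ j) =
      (gj j - algebraMap k K (e j)) * ξ ^ j +
        algebraMap k K (e j) * (ξ ^ j - algebraMap k K (d ^ j)) := by ring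
  rw [h2]
  exact ((he j).mul (vge_pow hξge j)).add (LU1.VPos.mul' (ctx_ge hc _) (hpow j))

/-- `A` is a polynomial over `S.R` whose residue polynomial has order exactly `m`. -/
structure HA (S : FR k v D) (A : K[X]) (m : ℕ) : Prop where
  mem : ∀ j, A.coeff j ∈ S.R
  low : ∀ j < m, VPos v (A.coeff j)
  unit : S.Un (A.coeff m)

/-- A polynomial over a frame, with monomial coefficients. -/
structure PrepT (S : FR k v D) (T : K[X]) (m : ℕ) : Prop where
  mem : ∀ j, T.coeff j ∈ S.R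
  low : ∀ j < m, VPos v (T.coeff j)
  unit : S.Un (T.coeff m)
  mono : ∀ j, T.coeff j ≠ 0 → S.Mono (T.coeff j)

theorem exists_prep (hc : TA.CtxR k v n r) (hLU : LUr k K v D)
    {S : FR k v D} {A : K[X]} {m : ℕ} (hA : HA S A m) {ψ : K} (hψ : ψ ∈ quo S.R)
    (hψv : VPos v ψ) (G : Finset K) (hG : ∀ g ∈ G, g ∈ quo S.R ∧ g ≠ 0) :
    ∃ S' : FR k v D, S.Le S' ∧ ψ ∈ S'.R ∧ (ψ ≠ 0 → S'.Mono ψ) ∧ (∀ g ∈ G, S'.Mono g) ∧
      (∀ i, S'.Mono (S.y i)) ∧ PrepT S' (taylor ψ A) m := by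
  classical
  set L₀ := quo S.R with hL₀
  have hAL : ∀ j, A.coeff j ∈ L₀.toSubalgebra := fun j => le_quo (hA.mem j)
  set T := taylor ψ A with hT
  have hTL : ∀ j, T.coeff j ∈ L₀ := fun j => taylor_coeff_mem L₀.toSubalgebra hAL hψ j
  set Q : Finset K := ((insert ψ (T.support.image T.coeff)) ∪ (G ∪
    Finset.univ.image S.y)).filter fun g => g ≠ 0 with hQ
  obtain ⟨S', hle, hm⟩ := hLU S Q (by
    intro f hf
    rw [hQ, Finset.mem_filter, Finset.mem_union, Finset.mem_insert, Finset.mem_image,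
      Finset.mem_union, Finset.mem_image] at hf
    refine ⟨?_, hf.2⟩
    rcases hf.1 with (rfl | ⟨j, -, rfl⟩) | hf | ⟨i, -, rfl⟩
    · exact hψ
    · exact hTL j
    · exact (hG f hf).1
    · exact le_quo (S.y_mem i))
  have hψM : ψ ≠ 0 → S'.Mono ψ := fun h0 => hm ψ (by
    rw [hQ, Finset.mem_filter]
    exact ⟨Finset.mem_union_left _ (Finset.mem_insert_self _ _), h0⟩)
  have hψm : ψ ∈ S'.R := by
    by_cases h0 : ψ = 0
    · rw [h0]; exact S'.R.zero_mem
    · exact (hψM h0).mem (hψv.ge h0)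
  have hTmem : ∀ j, T.coeff j ∈ S'.R := fun j =>
    taylor_coeff_mem S'.R (fun j => hle.le (hA.mem j)) hψm j
  have hAge : ∀ j, v.Ge 0 (A.coeff j) := fun j => S.nonneg _ (hA.mem j)
  have hsub := fun j => taylor_sub_vpos hc hAge hψv j
  refine ⟨S', hle, hψm, hψM, fun g hg => hm g ?_, fun i => hm _ ?_,
    hTmem, fun j hj => ?_, ?_, fun j hj => hm _ ?_⟩
  · rw [hQ, Finset.mem_filter]
    exact ⟨Finset.mem_union_right _ (Finset.mem_union_left _ hg), (hG g hg).2⟩
  · rw [hQ, Finset.mem_filter]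
    exact ⟨Finset.mem_union_right _ (Finset.mem_union_right _
      (Finset.mem_image.2 ⟨i, Finset.mem_univ i, rfl⟩)), S.y_ne i⟩
  · have h1 := (hsub j).add (hA.low j hj)
    rwa [sub_add_cancel] at h1
  · have h1 := (hle.un hA.unit).add_vpos
      (S'.R.sub_mem (hTmem m) (hle.le (hA.mem m))) (hsub m)
    rwa [add_sub_cancel] at h1
  · rw [hQ, Finset.mem_filter]
    refine ⟨Finset.mem_union_left _ (Finset.mem_insert_of_mem (Finset.mem_image.2
      ⟨j, mem_support_iff.2 hj, rfl⟩)), hj⟩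

/-- The least level of the monomials of `T` when `Z` gets the value `β`. -/
theorem exists_level {T : K[X]} {m : ℕ} (hm : T.coeff m ≠ 0)
    (hmv : v (T.coeff m) = 0) (hge : ∀ j, v.Ge 0 (T.coeff j)) {β : ℝ}
    (hβ : 0 < β) :
    ∃ j₀ ≤ m, T.coeff j₀ ≠ 0 ∧
      (∀ j, T.coeff j ≠ 0 → v (T.coeff j₀) + j₀ * β ≤ v (T.coeff j) + j * β) ∧
      (∀ j, T.coeff j ≠ 0 → v (T.coeff j₀) + j₀ * β = v (T.coeff j) + j * β →
        j₀ ≤ j ∧ j ≤ m) := by
  classical
  obtain ⟨j₀, hj₀, hmin⟩ := Finset.exists_min_image T.support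
    (fun j => toLex (v (T.coeff j) + j * β, j)) ⟨m, mem_support_iff.2 hm⟩
  have hmin' : ∀ j, T.coeff j ≠ 0 →
      toLex (v (T.coeff j₀) + j₀ * β, j₀) ≤ toLex (v (T.coeff j) + j * β, j) :=
    fun j hj => hmin j (mem_support_iff.2 hj)
  have h1 : ∀ j, T.coeff j ≠ 0 → v (T.coeff j₀) + j₀ * β ≤
      v (T.coeff j) + j * β := fun j hj => by
    have h2 := hmin' j hj
    rw [Prod.Lex.toLex_le_toLex] at h2
    rcases h2 with h2 | h2
    · exact h2.le
    · exact h2.1.le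
  have h3 : ∀ j, T.coeff j ≠ 0 → v (T.coeff j₀) + j₀ * β =
      v (T.coeff j) + j * β → j₀ ≤ j ∧ j ≤ m := fun j hj he => by
    constructor
    · have h2 := hmin' j hj
      rw [Prod.Lex.toLex_le_toLex] at h2
      rcases h2 with h2 | h2
      · exact absurd he h2.ne
      · exact h2.2
    · by_contra hlt
      have h4 := h1 m hm
      rw [he, hmv, zero_add] at h4
      have h5 := hge j hj
      have h6 : (m : ℝ) < j := by exact_mod_cast not_le.1 hlt
      nlinarith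
  exact ⟨j₀, (h3 j₀ (mem_support_iff.1 hj₀) rfl).2, mem_support_iff.1 hj₀, h1, h3⟩

theorem FR.Mono.add_of {F : FR k v D} {a b : K} (ha : F.Mono a) (hb : F.Mono b)
    (hle : v a ≤ v b) (h0 : a + b ≠ 0) (hv : v (a + b) = v a) : F.Mono (a + b) := by
  have h1 : F.Mono (b / a) := hb.div ha
  have h2 : b / a ∈ F.R := h1.mem (by
    rw [v.map_div hb.1 ha.1]; linarith)
  have h3 : a + b = a * (1 + b / a) := by
    rw [mul_add, mul_one, mul_div_cancel₀ _ ha.1]
  have h4 : 1 + b / a ≠ 0 := by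
    intro h5
    rw [h5, mul_zero] at h3
    exact h0 h3
  have h5 : v (1 + b / a) = 0 := by
    rw [h3, v.map_mul ha.1 h4] at hv
    linarith
  rw [h3]
  exact ha.mul (FR.Mono.un ⟨F.R.add_mem F.R.one_mem h2, h4, h5⟩)

end Gen

section Main

variable {k Ω : Type u} [Field k] [Field Ω] [Algebra k Ω] {v : RVal Ω} {n r d : ℕ}
variable {Ω₀ : IntermediateField k Ω}

/-- A polynomial in `w = c + z`, with constant coefficients, is a power of `z` times a unit. -/
theorem zrep_of_poly (h : TA.CtxR k v n r) {F : FR k v (d + 1)} {c : k} {w : Ω}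
    (hz : F.z = w - algebraMap k Ω c) {p : k[X]} (hp : p ≠ 0) {f U : Ω} {κ : ℝ}
    (hκ : κ ∈ F.Γ) (hU : F.Un U) (hf : F.YHi (f / F.χ κ - U * aeval w p)) :
    F.ZRep f κ (rootMultiplicity c p) := by
  obtain ⟨g, hg, hnd⟩ := exists_eq_pow_rootMultiplicity_mul_and_not_dvd p hp c
  have hgc : g.eval c ≠ 0 := by
    intro h0
    exact hnd (dvd_iff_isRoot.2 h0)
  have hw : w = algebraMap k Ω c + F.z := by rw [hz]; ring
  have hwR : w ∈ F.R := by
    rw [hw]; exact F.R.add_mem (F.R.algebraMap_mem c) F.z_mem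
  have hgR : ∀ q : k[X], aeval w q ∈ F.R := fun q => by
    rw [aeval_eq_sum_range]
    exact F.R.sum_mem fun i _ => F.R.smul_mem (F.R.pow_mem hwR i) _
  -- the residue of `g(w)`
  have hgu : F.Un (aeval w g) := by
    obtain ⟨g', hg'⟩ : (X - C c) ∣ (g - C (g.eval c)) := X_sub_C_dvd_sub_C_eval
    have h1 : aeval w g = algebraMap k Ω (g.eval c) + F.z * aeval w g' := by
      have h2 := congrArg (aeval w) hg'
      rw [map_sub, map_mul, map_sub, aeval_X, aeval_C, aeval_C, ← hz] at h2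
      rw [← h2]; ring
    rw [h1]
    exact (FR.Un.const h hgc).add_vpos (F.R.mul_mem F.z_mem (hgR g'))
      (FR.vpos_z.mul (F.nonneg _ (hgR g')))
  refine ⟨hκ, U * aeval w g, hU.mul hgu, ?_⟩
  have h1 : aeval w p = F.z ^ (rootMultiplicity c p) * aeval w g := by
    conv_lhs => rw [hg]
    rw [map_mul, map_pow, map_sub, aeval_X, aeval_C, ← hz]
  have h2 : U * aeval w g * F.z ^ (rootMultiplicity c p) = U * aeval w p := by
    rw [h1]; ring
  rw [h2]
  exact hf

/-- What one step achieves. -/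
def FR.Drop (F : FR k v (d + 1)) (f : Ω) (m : ℕ) : Prop :=
  ∃ F' : FR k v (d + 1), F.Le F' ∧ (∀ i, F'.Mono (F.y i)) ∧ ∃ κ : ℝ, ∃ m' < m, F'.ZRep f κ m'

/-- The old parameters are monomials of the new frame. -/
theorem mono_old {F F' : FR k v (d + 1)} {S S' : FR k (resv v Ω₀) d} (hF : Base F S)
    (hov : Ov F' S') (hy : ∀ i, S'.Mono (S.y i)) {ψ : Ω₀} (hψM : ψ ≠ 0 → S'.Mono ψ) {t : Ω}
    (ht : t = F.z - (ψ : Ω)) (htM : F'.Mono t) (hzt : v F.z ≤ v t) :
    ∀ i, F'.Mono (F.y i) := by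
  intro i
  refine Fin.lastCases ?_ (fun i => ?_) i
  · change F'.Mono F.z
    have hz : F.z = (ψ : Ω) + t := by rw [ht]; ring
    by_cases h0 : ψ = 0
    · rw [hz, h0]
      change F'.Mono ((0 : Ω) + t)
      rw [zero_add]; exact htM
    have hψ0 : (ψ : Ω) ≠ 0 := coe_ne h0
    have hM := hov.mono ψ (hψM h0)
    rcases hzt.lt_or_eq with hlt | heq
    · have h1 := v.add_of_lt F.z_ne (neg_ne_zero.2 htM.1) (by
        rw [v.map_neg _ htM.1]; exact hlt)
      have h2 : F.z + -t = (ψ : Ω) := by rw [ht]; ring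
      rw [h2] at h1
      have h3 := hM.add_of htM (by rw [h1.2]; exact hlt.le) (by rw [← hz]; exact F.z_ne)
        (by rw [← hz, h1.2])
      rwa [← hz] at h3
    · have h4 : v t ≤ v (ψ : Ω) := by
        have h5 := v.map_add F.z_ne (neg_ne_zero.2 htM.1) (by
          have h2 : F.z + -t = (ψ : Ω) := by rw [ht]; ring
          rw [h2]; exact hψ0)
        have h2 : F.z + -t = (ψ : Ω) := by rw [ht]; ring
        rw [h2, v.map_neg _ htM.1, heq, min_self] at h5
        exact h5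
      have hz' : F.z = t + (ψ : Ω) := by rw [hz]; ring
      have h3 := htM.add_of hM h4 (by rw [← hz']; exact F.z_ne) (by rw [← hz', heq])
      rwa [← hz'] at h3
  · rw [hF.y_eq i]
    exact hov.mono _ (hy i)

/-- Case A1. -/
theorem stepA1 (h2 : TA.CtxR k v n r) {n₀ : ℕ} (hc1 : TA.CtxR k (resv v Ω₀) n₀ r)
    (hLU : LUr k Ω₀ (resv v Ω₀) d) {F : FR k v (d + 1)} (hztr : Transcendental Ω₀ F.z)
    {S : FR k (resv v Ω₀) d} (hF : Base F S) {A : Ω₀[X]} {m : ℕ} (hm0 : 0 < m)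
    (hA : HA S A m) {ζ : Ω₀} (hroot : A.eval ζ = 0) (hζ : VPos (resv v Ω₀) ζ) {ψ : Ω₀}
    (hψ : ψ ∈ quo S.R) (hle : v (F.z - (ζ : Ω)) ≤ v (F.z - (ψ : Ω)))
    (hzψ : v F.z ≤ v (F.z - (ψ : Ω))) {g : Ω₀} (hg : g ∈ quo S.R) (hg0 : g ≠ 0)
    (hgv : resv v Ω₀ g = v (F.z - (ψ : Ω))) : F.Drop (aeval F.z A) m := by
  classical
  have hz_not : ∀ x : Ω₀, F.z ≠ (x : Ω) := fun x h0 => hztr (by
    rw [h0]; exact isAlgebraic_algebraMap x)
  have hne : ∀ x : Ω₀, F.z - (x : Ω) ≠ 0 := fun x h0 => hz_not x (sub_eq_zero.1 h0)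
  set t : Ω := F.z - (ψ : Ω) with ht
  have ht0 : t ≠ 0 := hne ψ
  set β : ℝ := v t with hβdef
  have hzv : VPos v F.z := FR.vpos_z
  have hβ : 0 < β := F.z_pos.trans_le hzψ
  have hψv : VPos (resv v Ω₀) ψ := by
    rw [vpos_coe]
    have h1 : (ψ : Ω) = F.z - t := by rw [ht]; ring
    rw [h1]
    exact hzv.sub fun _ => hβ
  obtain ⟨S', hSS', hψB, hψM, hGm, hyM, hP⟩ := exists_prep hc1 hLU hA hψ hψv {g} (by
    intro x hx
    rw [Finset.mem_singleton] at hx
    rw [hx]; exact ⟨hg, hg0⟩)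
  set T := taylor ψ A with hT
  have hβΓ : β ∈ S'.Γ := by
    have h1 := (hGm g (Finset.mem_singleton_self g)).2.1
    rwa [hgv] at h1
  have hχβ : ((S'.χ β : Ω₀) : Ω) ≠ 0 := coe_ne (S'.χ_ne β hβΓ)
  have hvχβ : v ((S'.χ β : Ω₀) : Ω) = β := S'.χ_val β hβΓ
  set w : Ω := t / ((S'.χ β : Ω₀) : Ω) with hw
  have hw0 : w ≠ 0 := div_ne_zero ht0 hχβ
  have hvw : v w = 0 := by rw [hw, v.map_div ht0 hχβ, hvχβ, ← hβdef, sub_self]
  obtain ⟨c, hc0, hc⟩ := h2.res w hw0 hvw
  obtain ⟨F', hFF', hF', hzF⟩ := exists_z0 h2 hztr hF hSS' hψB hψv hβΓ hβ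
    (z' := w - algebraMap k Ω c) rfl hc
  have hov := hF'.ov
  have hwF : w ∈ F'.R := by
    have h1 := F'.R.add_mem F'.z_mem (F'.R.algebraMap_mem c)
    rwa [hzF, sub_add_cancel] at h1
  have htM : F'.Mono t := by
    have h1 : t = ((S'.χ β : Ω₀) : Ω) * w := by rw [hw, mul_div_cancel₀ _ hχβ]
    rw [h1]
    exact (hov.mono _ (FR.Mono.χ hβΓ)).mul (FR.Mono.un ⟨hwF, hw0, hvw⟩)
  have hold := mono_old hF hov hyM hψM ht htM hzψ
  -- the level
  obtain ⟨j₀, hj₀m, hj₀, hmin, hatt⟩ := exists_level hP.unit.2.1 hP.unit.2.2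
    (fun j => S'.nonneg _ (hP.mem j)) hβ
  set κ : ℝ := resv v Ω₀ (T.coeff j₀) + j₀ * β with hκdef
  have hjβ : ∀ j : ℕ, (j : ℝ) * β ∈ S'.Γ := fun j => by
    rw [← nsmul_eq_mul]; exact S'.Γ.nsmul_mem hβΓ j
  have hκΓ : κ ∈ S'.Γ := S'.Γ.add_mem (hP.mono j₀ hj₀).2.1 (hjβ j₀)
  set gj : ℕ → Ω₀ := fun j => T.coeff j * S'.χ (j * β - κ) with hgj
  have hgM : ∀ j, T.coeff j ≠ 0 → S'.Mono (gj j) := fun j hj =>
    (hP.mono j hj).mul (FR.Mono.χ (S'.Γ.sub_mem (hjβ j) hκΓ))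
  have hgv' : ∀ j, T.coeff j ≠ 0 →
      resv v Ω₀ (gj j) = resv v Ω₀ (T.coeff j) + j * β - κ := fun j hj => by
    rw [hgj]
    change resv v Ω₀ (T.coeff j * S'.χ (j * β - κ)) = _
    rw [(resv v Ω₀).map_mul hj (S'.χ_ne _ (S'.Γ.sub_mem (hjβ j) hκΓ)),
      S'.χ_val _ (S'.Γ.sub_mem (hjβ j) hκΓ)]
    ring
  have hgz : ∀ j, T.coeff j = 0 → gj j = 0 := fun j hj => by
    rw [hgj]; change T.coeff j * _ = 0; rw [hj, zero_mul]
  have hgR : ∀ j, gj j ∈ S'.R := fun j => by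
    by_cases hj : T.coeff j = 0
    · rw [hgz j hj]; exact S'.R.zero_mem
    · refine (hgM j hj).mem ?_
      rw [hgv' j hj]
      linarith [hmin j hj]
  have hghi : ∀ j, m < j → VPos (resv v Ω₀) (gj j) := fun j hj => by
    by_cases hj0 : T.coeff j = 0
    · rw [hgz j hj0]; exact LU1.VPos.zero
    · intro _
      rw [hgv' j hj0]
      have h1 := hmin j hj0
      have h2 : κ ≠ resv v Ω₀ (T.coeff j) + j * β := fun he =>
        absurd (hatt j hj0 he).2 (not_le.2 hj)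
      have h3 := lt_of_le_of_ne h1 h2
      linarith
  choose e0 he0 he0R using fun j => S'.exists_const hc1 (hgR j)
  set e : ℕ → k := fun j => if j ≤ m then e0 j else 0 with he
  have heV : ∀ j, VPos (resv v Ω₀) (gj j - algebraMap k Ω₀ (e j)) := fun j => by
    rw [he]
    by_cases hj : j ≤ m
    · simp only [hj, if_true]; exact he0 j
    · simp only [hj, if_false]
      rw [_root_.map_zero, sub_zero]; exact hghi j (not_le.1 hj)
  set M : ℕ := max T.natDegree m + 1 with hM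
  have hTM : T.natDegree < M := by omega
  have hmM : m < M := by omega
  set P : k[X] := ∑ j ∈ Finset.range M, C (e j) * X ^ j with hPdef
  have hPc : ∀ n, n ≤ m → P.coeff n = e n := fun n hn => by
    rw [hPdef, coeff_sum_range, if_pos (by omega)]
  have hPc' : ∀ n, m < n → P.coeff n = 0 := fun n hn => by
    rw [hPdef, coeff_sum_range]
    split_ifs
    · rw [he]; simp only [not_le.2 hn, if_false]
    · rfl
  have hej₀ : e j₀ ≠ 0 := by
    intro h0
    have h1 := heV j₀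
    rw [h0, _root_.map_zero, sub_zero] at h1
    have h2 := h1 (hgM j₀ hj₀).1
    rw [hgv' j₀ hj₀] at h2
    linarith
  have hP0 : P ≠ 0 := by
    intro h0
    apply hej₀
    rw [← hPc j₀ hj₀m, h0, coeff_zero]
  have hPdeg : P.natDegree ≤ m := natDegree_le_iff_coeff_eq_zero.2 fun n hn => hPc' n hn
  -- the multiplicity is small
  have hTroot : T.eval (ζ - ψ) = 0 := by
    rw [hT, taylor_eval, sub_add_cancel, hroot]
  have hδ : ((ζ - ψ : Ω₀) : Ω) = t - (F.z - (ζ : Ω)) := by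
    rw [ht]; push_cast; ring
  have hmult : rootMultiplicity c P < m := by
    rcases hle.lt_or_eq with hlt | heq
    · -- `v (z - ζ) < β`
      have h1 := v.add_of_lt (neg_ne_zero.2 (hne ζ)) ht0 (by
        rw [v.map_neg _ (hne ζ)]; exact hlt)
      rw [v.map_neg _ (hne ζ)] at h1
      have h2 : -(F.z - (ζ : Ω)) + t = ((ζ - ψ : Ω₀) : Ω) := by rw [hδ]; ring
      rw [h2] at h1
      set δ : Ω₀ := ζ - ψ with hδdef
      have hδ0 : δ ≠ 0 := fun h0 => h1.1 (by rw [h0]; rfl)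
      have hδv : resv v Ω₀ δ = v (F.z - (ζ : Ω)) := h1.2
      set b : ℝ := v (F.z - (ζ : Ω)) with hb
      have hκm : κ ≤ m * β := by
        have h3 := hmin m hP.unit.2.1
        rwa [hP.unit.2.2, zero_add] at h3
      have hκne : κ ≠ m * β := by
        intro hκe
        -- the term `j = m` is dominant at `δ`
        have h3 : T.eval δ / δ ^ m = T.coeff m +
            ∑ j ∈ (Finset.range M).erase m, T.coeff j * δ ^ j / δ ^ m := by
          rw [eval_eq_sum_range' hTM, Finset.sum_div,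
            ← Finset.add_sum_erase _ _ (Finset.mem_range.2 hmM),
            mul_div_cancel_right₀ _ (pow_ne_zero m hδ0)]
        have h4 : VPos (resv v Ω₀)
            (∑ j ∈ (Finset.range M).erase m, T.coeff j * δ ^ j / δ ^ m) := by
          refine vpos_sum _ _ fun j hj => ?_
          intro h5
          have hj0 : T.coeff j ≠ 0 := by
            rintro h6; rw [h6, zero_mul, zero_div] at h5; exact h5 rfl
          have hjm : j ≠ m := (Finset.mem_erase.1 hj).1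
          rw [(resv v Ω₀).map_div (mul_ne_zero hj0 (pow_ne_zero j hδ0)) (pow_ne_zero m hδ0),
            (resv v Ω₀).map_mul hj0 (pow_ne_zero j hδ0), (resv v Ω₀).map_pow hδ0,
            (resv v Ω₀).map_pow hδ0, hδv]
          have h6 := hmin j hj0
          have h7 := S'.nonneg _ (hP.mem j) hj0
          rcases lt_or_gt_of_ne hjm with h8 | h8
          · have h9 : (j : ℝ) < m := by exact_mod_cast h8
            nlinarith
          · have h9 : (m : ℝ) < j := by exact_mod_cast h8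
            have h10 : 0 < b := by
              have h11 : v.Ge 0 (F.z - (ζ : Ω)) := (hzv.sub (vpos_coe.1 hζ)).ge
              exact (hzv.sub (vpos_coe.1 hζ)) (hne ζ)
            nlinarith
        rw [hTroot, zero_div] at h3
        exact (val_add_vpos hP.unit.2.1 hP.unit.2.2 h4).1 h3.symm
      have hem : e m = 0 := by
        have h3 := heV m
        have h4 : VPos (resv v Ω₀) (gj m) := by
          intro _
          rw [hgv' m hP.unit.2.1, hP.unit.2.2, zero_add]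
          have := lt_of_le_of_ne hκm hκne
          linarith
        have h5 := h4.sub h3
        rw [sub_sub_cancel] at h5
        exact ctx_const hc1 h5
      have hdeg : P.natDegree ≤ m - 1 := natDegree_le_iff_coeff_eq_zero.2 fun n hn => by
        rcases (show m ≤ n by omega).lt_or_eq with h3 | h3
        · exact hPc' n h3
        · rw [← h3, hPc m le_rfl, hem]
      have := mult_le P c
      omega
    · -- `v (z - ζ) = β`
      set ξ : Ω₀ := (ζ - ψ) / S'.χ β with hξ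
      have hξe : (ξ : Ω) = w - (F.z - (ζ : Ω)) / ((S'.χ β : Ω₀) : Ω) := by
        rw [hξ, IntermediateField.coe_div, hδ, sub_div]
      have hv2 : v ((F.z - (ζ : Ω)) / ((S'.χ β : Ω₀) : Ω)) = 0 := by
        rw [v.map_div (hne ζ) hχβ, hvχβ, heq, sub_self]
      have hξge : (resv v Ω₀).Ge 0 ξ := by
        have h1 : v.Ge 0 (ξ : Ω) := by
          rw [hξe]
          exact RVal.Ge.sub (fun _ => hvw.ge) (fun _ => hv2.ge)
        intro h2
        exact h1 (coe_ne h2)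
      obtain ⟨d, hd⟩ := ctx_residue hc1 hξge
      have hdc : d ≠ c := by
        rintro rfl
        have h1 : VPos v ((ξ : Ω) - algebraMap k Ω d) := vpos_coe.1 hd
        have h2 := hc.sub h1
        have h3 : w - algebraMap k Ω d - ((ξ : Ω) - algebraMap k Ω d) =
            (F.z - (ζ : Ω)) / ((S'.χ β : Ω₀) : Ω) := by rw [hξe]; ring
        rw [h3] at h2
        have h4 := h2 (div_ne_zero (hne ζ) hχβ)
        rw [hv2] at h4
        exact lt_irrefl _ h4
      refine mult_lt_of_root hP0 hPdeg hdc ?_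
      rw [hPdef, eval_finsetSum]
      simp only [eval_mul, eval_C, eval_pow, eval_X]
      refine eval_sub_vpos hc1 heV hd ?_
      have h1 : ∀ j : ℕ, gj j * ξ ^ j = T.coeff j * (ζ - ψ) ^ j / S'.χ κ := fun j => by
        have h2 : S'.χ (j * β - κ) = S'.χ β ^ j / S'.χ κ := by
          rw [S'.χ_sub (hjβ j) hκΓ, S'.χ_nsmul hβΓ]
        rw [hgj, hξ]
        change T.coeff j * S'.χ (j * β - κ) * ((ζ - ψ) / S'.χ β) ^ j = _
        rw [h2, div_pow]
        have h3 := S'.χ_ne β hβΓ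
        have h4 := S'.χ_ne κ hκΓ
        field_simp
      rw [Finset.sum_congr rfl fun j _ => h1 j, ← Finset.sum_div, ← eval_eq_sum_range' hTM,
        hTroot, zero_div]
  refine ⟨F', hFF', hold, κ, rootMultiplicity c P, hmult, ?_⟩
  have hF'κ : F'.χ κ = ((S'.χ κ : Ω₀) : Ω) := hF'.χ_eq κ hκΓ
  have hκF : κ ∈ F'.Γ := by rw [hF'.Γ_eq]; exact hκΓ
  refine zrep_of_poly h2 hzF hP0 hκF FR.Un.one ?_
  have hsum : aeval F.z A / F'.χ κ = ∑ j ∈ Finset.range M, ((gj j : Ω₀) : Ω) * w ^ j := by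
    rw [← aeval_taylor_sub ψ A F.z, ← hT, ← ht, aeval_eq_sum_range' hTM, Finset.sum_div]
    refine Finset.sum_congr rfl fun j _ => ?_
    have h2 : S'.χ (j * β - κ) = S'.χ β ^ j / S'.χ κ := by
      rw [S'.χ_sub (hjβ j) hκΓ, S'.χ_nsmul hβΓ]
    have h3 : ((gj j : Ω₀) : Ω) = ((T.coeff j : Ω₀) : Ω) *
        (((S'.χ β : Ω₀) : Ω) ^ j / ((S'.χ κ : Ω₀) : Ω)) := by
      rw [hgj]
      change ((T.coeff j * S'.χ (j * β - κ) : Ω₀) : Ω) = _
      rw [h2]; push_cast; rfl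
    rw [h3, hF'κ, hw, div_pow, Algebra.smul_def]
    change ((T.coeff j : Ω₀) : Ω) * t ^ j / _ = _
    have h4 := coe_ne (S'.χ_ne κ hκΓ)
    field_simp
  have hPe : aeval w P = ∑ j ∈ Finset.range M, algebraMap k Ω (e j) * w ^ j := by
    rw [hPdef, map_sum]
    refine Finset.sum_congr rfl fun j _ => ?_
    rw [map_mul, map_pow, aeval_C, aeval_X]
  rw [hsum, one_mul, hPe, ← Finset.sum_sub_distrib]
  refine FR.YHi.sum _ _ fun j _ => ?_
  have h1 : ((gj j : Ω₀) : Ω) * w ^ j - algebraMap k Ω (e j) * w ^ j =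
      w ^ j * ((gj j - algebraMap k Ω₀ (e j) : Ω₀) : Ω) := by
    have h2 : ((gj j - algebraMap k Ω₀ (e j) : Ω₀) : Ω) =
      ((gj j : Ω₀) : Ω) - algebraMap k Ω (e j) := rfl
    rw [h2]; ring
  rw [h1]
  exact (hov.yhi _ (S'.R.sub_mem (hgR j) (S'.R.algebraMap_mem _)) (heV j)).mul
    (F'.R.pow_mem hwF j)

/-- Case A2. -/
theorem stepA2 (h2 : TA.CtxR k v n r) {n₀ : ℕ} (hc1 : TA.CtxR k (resv v Ω₀) n₀ r)
    (hLU : LUr k Ω₀ (resv v Ω₀) d) {F : FR k v (d + 1)} (hztr : Transcendental Ω₀ F.z)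
    {S : FR k (resv v Ω₀) d} (hF : Base F S) {A : Ω₀[X]} {m : ℕ} (hm0 : 0 < m)
    (hA : HA S A m) {ψ : Ω₀} (hψ : ψ ∈ quo S.R)
    (hno : ∀ g ∈ quo S.R, g ≠ 0 → resv v Ω₀ g ≠ v (F.z - (ψ : Ω))) :
    F.Drop (aeval F.z A) m := by
  classical
  have hz_not : ∀ x : Ω₀, F.z ≠ (x : Ω) := fun x h0 => hztr (by
    rw [h0]; exact isAlgebraic_algebraMap x)
  have hne : ∀ x : Ω₀, F.z - (x : Ω) ≠ 0 := fun x h0 => hz_not x (sub_eq_zero.1 h0)
  have hz0 : F.z ≠ 0 := F.z_ne
  set t : Ω := F.z - (ψ : Ω) with ht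
  have ht0 : t ≠ 0 := hne ψ
  set β : ℝ := v t with hβdef
  have hzv : VPos v F.z := FR.vpos_z
  have hzt : v F.z ≤ β := by
    by_contra hcon
    have h1 := v.add_of_lt (neg_ne_zero.2 ht0) hz0 (by
      rw [v.map_neg _ ht0]; exact not_le.1 hcon)
    rw [v.map_neg _ ht0] at h1
    have h2 : -t + F.z = (ψ : Ω) := by rw [ht]; ring
    rw [h2] at h1
    exact hno ψ hψ (fun h0 => h1.1 (by rw [h0]; rfl)) h1.2
  have hβ : 0 < β := F.z_pos.trans_le hzt
  have hψv : VPos (resv v Ω₀) ψ := by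
    rw [vpos_coe]
    have h1 : (ψ : Ω) = F.z - t := by rw [ht]; ring
    rw [h1]
    exact hzv.sub fun _ => hβ
  obtain ⟨S', hSS', hψB, hψM, -, hyM, hP⟩ := exists_prep hc1 hLU hA hψ hψv ∅ (by simp)
  set T := taylor ψ A with hT
  have hX := coe_monD S'
  -- the lattice data
  have hex : ∃ n : ℕ, 0 < n ∧ (n : ℝ) * β ∈ S'.Γ := by
    obtain ⟨n, hn, h1⟩ := F.full t ht0
    exact ⟨n, hn, hSS'.Γ_le _ (by rw [← hF.Γ_eq]; exact h1)⟩
  obtain ⟨s, hL', -, -⟩ := LU1.exists_s S'.Γ S'.fg β hβ (Nat.find hex)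
    (Nat.find_spec hex).1 (Nat.find_spec hex).2
    (fun n hn hnΓ => Nat.find_min' hex ⟨hn, hnΓ⟩) ∅ (by simp) 1 (Or.inl rfl)
  set q := Nat.find hex with hq
  have hq2 : 2 ≤ q := by
    by_contra hcon
    have h1 : q = 1 := by have := hL'.q_pos; omega
    have h2 := hL'.q_mem
    rw [h1, Nat.cast_one, one_mul] at h2
    refine hno (S'.χ β) ?_ (S'.χ_ne β h2) (S'.χ_val β h2)
    rw [← hSS'.quo_eq]
    exact le_quo (S'.χ_mem β h2 hβ.le)
  obtain ⟨F', c, w, hc0, hFF', hov, hΓ', hmul, hy', hz', hwU⟩ :=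
    exists_zT h2 hztr hF hSS' hψB hψv ht hL'
  have htM : F'.Mono t := by
    have h1 := hmul 0 S'.Γ.zero_mem 1
    rw [zpow_one, Int.cast_one, one_mul, zero_add, S'.χ_zero] at h1
    have h3 : t = F'.χ (v t) * w ^ (s 0 1) := by
      rw [← h1]
      change t = (1 : Ω) * t
      rw [one_mul]
    rw [h3]
    refine (FR.Mono.χ ?_).mul (FR.Mono.un (hwU.zpow _))
    rw [hΓ']
    exact AddSubgroup.mem_sup_right (AddSubgroup.mem_zmultiples _)
  have hold := mono_old hF hov hyM hψM ht htM hzt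
  -- the level
  obtain ⟨j₀, hj₀m, hj₀, hmin, hatt⟩ := exists_level hP.unit.2.1 hP.unit.2.2
    (fun j => S'.nonneg _ (hP.mem j)) hβ
  set κ : ℝ := resv v Ω₀ (T.coeff j₀) + j₀ * β with hκdef
  have hγΓ : ∀ j, T.coeff j ≠ 0 → resv v Ω₀ (T.coeff j) ∈ S'.Γ := fun j hj => (hP.mono j hj).2.1
  have hlΓ : ∀ j, T.coeff j ≠ 0 → resv v Ω₀ (T.coeff j) + (j : ℝ) * β ∈ F'.Γ := fun j hj => by
    rw [hΓ']
    exact LU1.mem_sup_lat (hγΓ j hj) (j : ℤ)
  have hκΓ : κ ∈ F'.Γ := hlΓ j₀ hj₀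
  have hχκ : F'.χ κ ≠ 0 := F'.χ_ne κ hκΓ
  -- the units
  set u : ℕ → Ω₀ := fun j => T.coeff j / S'.χ (resv v Ω₀ (T.coeff j)) with hu
  have huU : ∀ j, T.coeff j ≠ 0 → S'.Un (u j) := fun j hj => (hP.mono j hj).2.2
  have huE : ∀ j, T.coeff j ≠ 0 → T.coeff j = S'.χ (resv v Ω₀ (T.coeff j)) * u j := fun j hj => by
    change _ = _ * (T.coeff j / S'.χ (resv v Ω₀ (T.coeff j)))
    rw [mul_div_cancel₀ _ (S'.χ_ne _ (hγΓ j hj))]
  set sj : ℕ → ℤ := fun j => s (resv v Ω₀ (T.coeff j)) j with hsj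
  have hterm : ∀ j, T.coeff j ≠ 0 → ((T.coeff j : Ω₀) : Ω) * t ^ j =
      F'.χ κ * (F'.χ (resv v Ω₀ (T.coeff j) + j * β - κ) * ((u j : Ω₀) : Ω) * w ^ sj j) := by
    intro j hj
    have h1 := hmul _ (hγΓ j hj) (j : ℤ)
    rw [zpow_natCast, Int.cast_natCast] at h1
    have h2 : ((T.coeff j : Ω₀) : Ω) =
        ((S'.χ (resv v Ω₀ (T.coeff j)) : Ω₀) : Ω) * ((u j : Ω₀) : Ω) := by
      conv_lhs => rw [huE j hj]
      rfl
    have h3 : F'.χ (resv v Ω₀ (T.coeff j) + j * β) =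
        F'.χ κ * F'.χ (resv v Ω₀ (T.coeff j) + j * β - κ) := by
      rw [← F'.χ_add κ hκΓ _ (F'.Γ.sub_mem (hlΓ j hj) hκΓ)]
      congr 1; ring
    rw [h2, mul_right_comm, h1, h3]
    ring
  -- the exponents on the least level
  have hdiv : ∀ j, T.coeff j ≠ 0 → κ = resv v Ω₀ (T.coeff j) + j * β →
      ∃ n : ℕ, j = j₀ + q * n ∧ sj j = sj j₀ + n := by
    intro j hj he
    have h1 := hL'.same (hγΓ j hj) (hγΓ j₀ hj₀) (l := (j : ℤ)) (m := (j₀ : ℤ)) (by
      push_cast; rw [← he, hκdef])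
    have h2 := (hatt j hj he).1
    have h3 : 0 ≤ sj j - sj j₀ := by
      by_contra h4
      have h5 : (q : ℤ) * (sj j - sj j₀) < 0 := by
        have h6 : (0 : ℤ) < q := by have := hL'.q_pos; exact_mod_cast this
        nlinarith
      have h7 : (j : ℤ) - j₀ = q * (sj j - sj j₀) := h1
      have h8 : (j₀ : ℤ) ≤ j := by exact_mod_cast h2
      linarith
    obtain ⟨n, hn⟩ := Int.eq_ofNat_of_zero_le h3
    refine ⟨n, ?_, by linarith⟩
    have h7 : (j : ℤ) - j₀ = q * (sj j - sj j₀) := h1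
    rw [hn] at h7
    have h8 : (j : ℤ) = ((j₀ + q * n : ℕ) : ℤ) := by push_cast; linarith
    exact_mod_cast h8
  choose e0 he0 he0R using fun j => (if hj : T.coeff j ≠ 0 then
    S'.exists_const hc1 (huU j hj).1 else ⟨0, by simp [hu, not_not.1 hj, LU1.VPos.zero], by
      simp [hu, not_not.1 hj, S'.R.zero_mem]⟩ :
      ∃ c : k, VPos (resv v Ω₀) (u j - algebraMap k Ω₀ c) ∧ u j - algebraMap k Ω₀ c ∈ S'.R)
  set J : Finset ℕ := T.support.filter fun j => κ = resv v Ω₀ (T.coeff j) + j * β with hJ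
  have hJmem : ∀ j, j ∈ J ↔ T.coeff j ≠ 0 ∧ κ = resv v Ω₀ (T.coeff j) + j * β := fun j => by
    rw [hJ, Finset.mem_filter, mem_support_iff]
  set P : k[X] := ∑ j ∈ J, C (e0 j) * X ^ ((j - j₀) / q) with hPdef
  have hqp : 0 < q := hL'.q_pos
  have hPdeg : P.natDegree ≤ m / q := by
    rw [hPdef]
    refine natDegree_sum_le_of_forall_le _ _ fun j hj => ?_
    obtain ⟨hj1, hj2⟩ := (hJmem j).1 hj
    refine (natDegree_C_mul_X_pow_le _ _).trans ?_
    have h1 := (hatt j hj1 hj2).2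
    exact Nat.div_le_div_right (by omega)
  have hej₀ : e0 j₀ ≠ 0 := by
    intro h0
    have h1 := he0 j₀
    rw [h0, _root_.map_zero, sub_zero] at h1
    have h2 := h1 (huU j₀ hj₀).2.1
    rw [(huU j₀ hj₀).2.2] at h2
    exact lt_irrefl _ h2
  have hP0c : P.coeff 0 = e0 j₀ := by
    rw [hPdef, finsetSum_coeff]
    rw [Finset.sum_eq_single j₀]
    · rw [Nat.sub_self, Nat.zero_div, pow_zero, mul_one, coeff_C_zero]
    · intro j hj hjne
      obtain ⟨hj1, hj2⟩ := (hJmem j).1 hj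
      obtain ⟨n, hn, -⟩ := hdiv j hj1 hj2
      have hn0 : n ≠ 0 := by
        rintro rfl
        exact hjne (by rw [hn, mul_zero, add_zero])
      have h1 : (j - j₀) / q = n := by
        rw [hn, Nat.add_sub_cancel_left, Nat.mul_div_cancel_left _ hqp]
      rw [h1, coeff_C_mul_X_pow, if_neg hn0.symm]
    · intro hj
      exact absurd ((hJmem j₀).2 ⟨hj₀, rfl⟩) hj
  have hP0 : P ≠ 0 := by
    intro h0
    apply hej₀
    rw [← hP0c, h0, coeff_zero]
  have hmult : rootMultiplicity c P < m :=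
    ((mult_le P c).trans hPdeg).trans_lt (Nat.div_lt_self hm0 hq2)
  refine ⟨F', hFF', hold, κ, rootMultiplicity c P, hmult, ?_⟩
  refine zrep_of_poly h2 hz' hP0 hκΓ (hwU.zpow (sj j₀)) ?_
  have hsum : aeval F.z A / F'.χ κ = ∑ j ∈ T.support,
      F'.χ (resv v Ω₀ (T.coeff j) + j * β - κ) * ((u j : Ω₀) : Ω) * w ^ sj j := by
    rw [← aeval_taylor_sub ψ A F.z, ← hT, ← ht, aeval_eq_sum_range, Finset.sum_div]
    rw [← Finset.sum_subset (s₁ := T.support)]
    · refine Finset.sum_congr rfl fun j hj => ?_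
      rw [Algebra.smul_def]
      change ((T.coeff j : Ω₀) : Ω) * t ^ j / _ = _
      rw [hterm j (mem_support_iff.1 hj), mul_div_cancel_left₀ _ hχκ]
    · intro j hj
      exact Finset.mem_range.2 (Nat.lt_succ_of_le (le_natDegree_of_mem_supp j hj))
    · intro j _ hj
      rw [notMem_support_iff.1 hj, zero_smul, zero_div]
  have hPe : w ^ sj j₀ * aeval w P = ∑ j ∈ T.support,
      if κ = resv v Ω₀ (T.coeff j) + j * β then algebraMap k Ω (e0 j) * w ^ sj j else 0 := by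
    rw [hPdef, map_sum, Finset.mul_sum, hJ, Finset.sum_filter]
    refine Finset.sum_congr rfl fun j hj => ?_
    split_ifs with he
    · obtain ⟨n, hn, hn'⟩ := hdiv j (mem_support_iff.1 hj) he
      have h1 : (j - j₀) / q = n := by
        rw [hn, Nat.add_sub_cancel_left, Nat.mul_div_cancel_left _ hqp]
      rw [map_mul, map_pow, aeval_C, aeval_X, h1, hn', zpow_add₀ hwU.2.1, zpow_natCast]
      ring
    · rfl
  rw [hsum, hPe, ← Finset.sum_sub_distrib]
  refine FR.YHi.sum _ _ fun j hj => ?_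
  have hj0 : T.coeff j ≠ 0 := mem_support_iff.1 hj
  split_ifs with he
  · have h1 : resv v Ω₀ (T.coeff j) + j * β - κ = 0 := by rw [← he, sub_self]
    rw [h1, F'.χ_zero, one_mul]
    have h2 : ((u j : Ω₀) : Ω) * w ^ sj j - algebraMap k Ω (e0 j) * w ^ sj j =
        w ^ sj j * ((u j - algebraMap k Ω₀ (e0 j) : Ω₀) : Ω) := by
      have h3 : ((u j - algebraMap k Ω₀ (e0 j) : Ω₀) : Ω) =
        ((u j : Ω₀) : Ω) - algebraMap k Ω (e0 j) := rfl
      rw [h3]; ring
    rw [h2]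
    exact (hov.yhi _ (he0R j) (he0 j)).mul (hwU.zpow _).1
  · rw [sub_zero, mul_assoc]
    refine FR.YHi.χ (F'.Γ.sub_mem (hlΓ j hj0) hκΓ) ?_
      (F'.R.mul_mem (hov.mem _ (huU j hj0).1) (hwU.zpow _).1)
    have h1 := lt_of_le_of_ne (hmin j hj0) he
    linarith

end Main

end Pool.Agent.ALL
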