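import Pool.Agent.Lib.ALL5.Zst

/-!
# The two steps in the last parameter
-/

set_option autoImplicit false

open Polynomial

namespace Pool.Agent.ALL

open Pool.Agent.H15JM (RVal)
open Pool.Agent.LU1 (VPos locv quo le_locv locv_inv locv_le locv_mono locv_adjoin_le le_quo
  val_add_vpos LatData)
open Pool.Agent.LU3 (MonD resv chi2 chi2_w_ne chi2_v_w chi2_monD chi2_mul chi2_eq)

universe u

variable {k Ω : Type u} [Field k] [Field Ω] [Algebra k Ω] {v : RVal Ω} {n r d : ℕ}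
variable {Ω₀ : IntermediateField k Ω}

/-- The step `z' = (z - ψ) / χ'(a) - c`. -/
theorem exists_z0 (h2 : TA.CtxR k v n r) {F : FR k v (d + 1)} (hztr : Transcendental Ω₀ F.z)
    {S S' : FR k (resv v Ω₀) d} (hF : Base F S) (hS : S.Le S') {ψ : Ω₀} (hψ : ψ ∈ S'.R)
    (hψv : VPos (resv v Ω₀) ψ) {a : ℝ} (ha : a ∈ S'.Γ) (ha0 : 0 < a) {c : k} {z' : Ω}
    (hz' : z' = (F.z - (ψ : Ω)) / ((S'.χ a : Ω₀) : Ω) - algebraMap k Ω c) (hpos : VPos v z') :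
    ∃ F' : FR k v (d + 1), F.Le F' ∧ Base F' S' ∧ F'.z = z' := by
  have hχa : ((S'.χ a : Ω₀) : Ω) ≠ 0 := coe_ne (S'.χ_ne a ha)
  have hz : F.z = (ψ : Ω) + ((S'.χ a : Ω₀) : Ω) * (algebraMap k Ω c + z') := by
    rw [hz']; field_simp; ring
  have hz0 : z' ≠ 0 := by
    intro h0
    rw [h0, add_zero] at hz
    apply hztr
    have h3 : F.z = algebraMap Ω₀ Ω (ψ + S'.χ a * algebraMap k Ω₀ c) := by
      rw [hz]; rfl
    rw [h3]
    exact isAlgebraic_algebraMap _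
  have hX := coe_monD S'
  obtain ⟨F', hle, hov, hΓ, hχ, hy, hz2, hR⟩ := exists_step (Γ' := S'.Γ)
    (X' := fun γ => ((S'.χ γ : Ω₀) : Ω)) (z' := z') h2 hF hS hX S'.fg (fun γ hγ => hγ) hz0
    (hpos hz0)
    (fun γ hγ T _ _ => by
      rw [div_self (coe_ne (S'.χ_ne γ hγ))]
      exact T.one_mem)
    ⟨ψ, hψ, hψv, a, ha, ha0, algebraMap k Ω c + z',
      (nR F S' S'.Γ (fun γ => ((S'.χ γ : Ω₀) : Ω)) z').add_mem
        ((nR F S' S'.Γ (fun γ => ((S'.χ γ : Ω₀) : Ω)) z').algebraMap_mem c) nR_z, hz⟩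
    (fun F' hov _ _ _ γ hγ _ => coe_den_χ hF hov hS hγ)
    (fun F' hov _ _ _ => by
      have h1 : z' = (F.z - (ψ : Ω)) * (((S'.χ a : Ω₀) : Ω))⁻¹ - algebraMap k Ω c := by
        rw [hz', div_eq_mul_inv]
      rw [h1]
      exact (Den F.R F').sub_mem ((Den F.R F').mul_mem
        ((Den F.R F').sub_mem (le_den F.z_mem) (coe_den hF hov hS ψ hψ))
        (den_inv (coe_den_χ hF hov hS ha) (hov.mono _ (FR.Mono.χ ha))))
        ((Den F.R F').algebraMap_mem c))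
  exact ⟨F', hle, ⟨hΓ, fun γ _ => by rw [hχ], hy, hov.mem⟩, hz2⟩

/-- The T-step in `t = z - ψ`. -/
theorem exists_zT (h2 : TA.CtxR k v n r) {F : FR k v (d + 1)} (hztr : Transcendental Ω₀ F.z)
    {S S' : FR k (resv v Ω₀) d} (hF : Base F S) (hS : S.Le S') {ψ : Ω₀} (hψ : ψ ∈ S'.R)
    (hψv : VPos (resv v Ω₀) ψ) {t : Ω} (ht : t = F.z - (ψ : Ω)) {q : ℕ} {s : ℝ → ℤ → ℤ}
    (hL : LatData S'.Γ (v t) q s) :
    ∃ (F' : FR k v (d + 1)) (c : k) (w : Ω), c ≠ 0 ∧ F.Le F' ∧ Ov F' S' ∧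
      F'.Γ = S'.Γ ⊔ AddSubgroup.zmultiples (v t) ∧
      (∀ γ ∈ S'.Γ, ∀ l : ℤ,
        ((S'.χ γ : Ω₀) : Ω) * t ^ l = F'.χ (γ + l * v t) * w ^ (s γ l)) ∧
      (∀ i : Fin d, F'.y i.castSucc = (S'.y i : Ω)) ∧ F'.z = w - algebraMap k Ω c ∧
      F'.Un w := by
  have hβ : 0 < v t := hL.β_pos
  have ht0 : t ≠ 0 := by
    intro h0
    apply hztr
    have h3 : F.z = algebraMap Ω₀ Ω ψ := by
      rw [ht, sub_eq_zero] at h0
      exact h0
    rw [h3]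
    exact isAlgebraic_algebraMap _
  have hX := coe_monD S'
  set X : ℝ → Ω := fun γ => ((S'.χ γ : Ω₀) : Ω) with hXdef
  set w : Ω := t ^ q / X (q * v t) with hwdef
  have hw : t ^ q = X (q * v t) * w := by
    rw [hwdef, mul_div_cancel₀ _ (hX.ne _ hL.q_mem)]
  have hw0 : w ≠ 0 := chi2_w_ne ht0 hw
  have hvw : v w = 0 := chi2_v_w hX ht0 hL hw
  obtain ⟨c, hc0, hc⟩ := h2.res w hw0 hvw
  have hX' := chi2_monD hX ht0 hL hw
  set X' : ℝ → Ω := chi2 v S'.Γ X t w s with hX'def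
  have hmul : ∀ γ ∈ S'.Γ, ∀ l : ℤ, X γ * t ^ l = X' (γ + l * v t) * w ^ (s γ l) :=
    fun γ hγ l => chi2_mul hX ht0 hL hw hγ l
  have hz : F.z = (ψ : Ω) + t := by rw [ht]; ring
  -- `w` is not a constant
  have hne : w - algebraMap k Ω c ≠ 0 := by
    intro h0
    have h1 : t ^ q = X (q * v t) * algebraMap k Ω c := by
      rw [hw, sub_eq_zero.1 h0]
    apply hztr
    refine ⟨(Polynomial.X - Polynomial.C ψ) ^ q -
      Polynomial.C (S'.χ (q * v t) * algebraMap k Ω₀ c), ?_, ?_⟩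
    · intro h3
      have h4 : ((Polynomial.X - Polynomial.C ψ) ^ q : Ω₀[X]).natDegree = q := by
        rw [Polynomial.natDegree_pow, Polynomial.natDegree_X_sub_C, mul_one]
      rw [sub_eq_zero.1 h3, Polynomial.natDegree_C] at h4
      exact hL.q_pos.ne h4
    · rw [map_sub, map_pow, map_sub, Polynomial.aeval_X, Polynomial.aeval_C,
        Polynomial.aeval_C, map_mul]
      change (F.z - (ψ : Ω)) ^ q - X (q * v t) * algebraMap k Ω c = 0
      rw [← ht, h1, sub_self]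
  set z' := w - algebraMap k Ω c with hz'def
  have hpos : 0 < v z' := hc hne
  have hΓ' : ∀ γ ∈ S'.Γ, γ ∈ S'.Γ ⊔ AddSubgroup.zmultiples (v t) := fun γ hγ =>
    AddSubgroup.mem_sup_left hγ
  have htΓ : v t ∈ S'.Γ ⊔ AddSubgroup.zmultiples (v t) :=
    AddSubgroup.mem_sup_right (AddSubgroup.mem_zmultiples _)
  have hXw : ∀ γ ∈ S'.Γ, X γ = X' γ * w ^ (s γ 0) := fun γ hγ => by
    have h1 := hmul γ hγ 0
    rwa [zpow_zero, mul_one, Int.cast_zero, zero_mul, add_zero] at h1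
  have htw : t = X' (v t) * w ^ (s 0 1) := by
    have h1 := hmul 0 S'.Γ.zero_mem 1
    rwa [zpow_one, Int.cast_one, one_mul, zero_add, hX.zero, one_mul] at h1
  have hwT : ∀ T : Subalgebra k Ω, z' ∈ T → w ∈ T := fun T hT => by
    have h1 := T.add_mem hT (T.algebraMap_mem c)
    rwa [hz'def, sub_add_cancel] at h1
  have hwzT : ∀ T : Subalgebra k Ω, z' ∈ T → (∀ f ∈ T, f ≠ 0 → v f = 0 → f⁻¹ ∈ T) →
      ∀ m : ℤ, w ^ m ∈ T := fun T hT hi m => by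
    cases m with
    | ofNat m => simpa using T.pow_mem (hwT T hT) m
    | negSucc m =>
      rw [zpow_negSucc, ← inv_pow]
      exact T.pow_mem (hi _ (hwT T hT) hw0 hvw) _
  set R' := nR F S' (S'.Γ ⊔ AddSubgroup.zmultiples (v t)) X' z' with hR'
  have hwR : ∀ m : ℤ, w ^ m ∈ R' := hwzT R' nR_z fun f hf h0 h1 => nR_inv hf h0 h1
  have facts : ∀ F' : FR k v (d + 1), Ov F' S' → F'.R = R' →
      F'.Γ = S'.Γ ⊔ AddSubgroup.zmultiples (v t) → F'.χ = X' →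
      F'.Un w ∧ F'.Mono t ∧ t ∈ Den F.R F' ∧ w ∈ Den F.R F' := by
    intro F' hov hR hΓ hχ
    have hwU : F'.Un w := ⟨by rw [hR]; exact hwT R' nR_z, hw0, hvw⟩
    have htM : F'.Mono t := by
      rw [htw, ← hχ]
      exact (FR.Mono.χ (F := F') (by rw [hΓ]; exact htΓ)).mul (FR.Mono.un (hwU.zpow _))
    have htD : t ∈ Den F.R F' := by
      rw [ht]
      exact (Den F.R F').sub_mem (le_den F.z_mem) (coe_den hF hov hS ψ hψ)
    refine ⟨hwU, htM, htD, ?_⟩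
    rw [hwdef, div_eq_mul_inv]
    exact (Den F.R F').mul_mem ((Den F.R F').pow_mem htD q)
      (den_inv (coe_den_χ hF hov hS hL.q_mem) (hov.mono _ (FR.Mono.χ hL.q_mem)))
  obtain ⟨F', hle, hov, hΓ, hχ, hy, hz2, hR⟩ := exists_step
    (Γ' := S'.Γ ⊔ AddSubgroup.zmultiples (v t)) (X' := X') (z' := z') h2 hF hS hX'
    (LU1.fg_sup _ S'.fg _) hΓ' hne hpos
    (fun γ hγ T hT hi => by
      change X γ / X' γ ∈ T
      rw [hXw γ hγ, mul_div_cancel_left₀ _ (hX'.ne γ (hΓ' γ hγ))]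
      exact hwzT T hT hi _)
    ⟨ψ, hψ, hψv, v t, htΓ, hβ, w ^ (s 0 1), hwR _, by rw [hz]; congr 1⟩
    (fun F' hov hR hΓ hχ γ' hγ' _ => by
      obtain ⟨hwU, htM, htD, hwD⟩ := facts F' hov hR hΓ hχ
      obtain ⟨γ, hγ, l, rfl⟩ := LU1.BF.mem_sup hγ'
      have h1 : X' (γ + l * v t) = X γ * t ^ l * w ^ (-(s γ l)) :=
        chi2_eq hX ht0 hL hw hγ l
      rw [h1]
      exact (Den F.R F').mul_mem ((Den F.R F').mul_mem (coe_den_χ hF hov hS hγ)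
        (den_zpow htD htM l)) (den_zpow hwD (FR.Mono.un hwU) _))
    (fun F' hov hR hΓ hχ => by
      obtain ⟨hwU, htM, htD, hwD⟩ := facts F' hov hR hΓ hχ
      exact (Den F.R F').sub_mem hwD ((Den F.R F').algebraMap_mem c))
  obtain ⟨hwU, -, -, -⟩ := facts F' hov hR hΓ hχ
  exact ⟨F', c, w, hc0, hle, hov, hΓ, by rw [hχ]; exact hmul, hy, hz2, hwU⟩

end Pool.Agent.ALL
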