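import Pool.Agent.Lib.ALL5.Loop
import Pool.Agent.Lib.ALL5.Emb5
import Pool.Agent.Lib.ALL5.Bas5
import Pool.Agent.Lib.ALL5.Apx5
import Pool.Agent.Lib.ALL_h17.R5e

/-!
# The real block Y
-/

set_option autoImplicit false

namespace Pool.Agent.ALL

open Pool.Agent.H15JM (RVal)
open Pool.Agent.LU1 (VPos locv)

universe u

variable {k Ω : Type u} [Field k] [Field Ω] [Algebra k Ω] {v : RVal Ω} {n r D d : ℕ}

/-- The powers of the last parameter do not lie in the ideal of the other parameters. -/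
theorem not_yhi_pow (h : TA.CtxR k v n r) (hr : 0 < r) (hn : n = r + (d + 1))
    (F : FR k v (d + 1)) (m : ℕ) : ¬ F.YHi (F.z ^ m) := by
  classical
  rintro ⟨b, hb, δ, hδ, h0, a, ha, heq⟩
  refine fr_reg h hr hn F (Fin.last d) m hδ h0 ha
    (Fin.snoc (α := fun _ => Ω) b 0) (fun i => ?_) ?_
  · refine Fin.lastCases ?_ (fun i => ?_) i
    · rw [Fin.snoc_last]; exact F.R.zero_mem
    · rw [Fin.snoc_castSucc]; exact hb i
  · have h1 : ∑ i ∈ Finset.univ.erase (Fin.last d),
        F.y i * (Fin.snoc (α := fun _ => Ω) b 0 : Fin (d + 1) → Ω) i =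
        ∑ i, F.y i.castSucc * b i := by
      have h2 := Finset.sum_erase_add (Finset.univ : Finset (Fin (d + 1)))
        (fun i => F.y i * (Fin.snoc (α := fun _ => Ω) b 0 : Fin (d + 1) → Ω) i)
        (Finset.mem_univ (Fin.last d))
      rw [Fin.sum_univ_castSucc] at h2
      simp only [Fin.snoc_last, mul_zero, add_zero, Fin.snoc_castSucc] at h2
      exact h2
    rw [h1]
    change F.z ^ m = _
    rw [heq]; ring

/-- An element with an order is not zero. -/
theorem ord_ne_zero [Infinite k] (h : TA.CtxR k v n r) (hr : 0 < r) (hn : n = r + D)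
    {F : FR k v D} {f : Ω} {κ : ℝ} {M : ℕ} (hf : F.Ord f κ M) : f ≠ 0 := by
  cases D with
  | zero =>
    have hM : M = 0 := by
      obtain ⟨hκ, P, hP, hP0, -⟩ := hf
      exact ((MvPolynomial.isHomogeneous_of_isEmpty _ _ P).inj_right hP hP0).symm
    subst hM
    exact (hf.mono_zero h).1
  | succ d =>
    rintro rfl
    obtain ⟨G, G₁, -, -, -, -, -, hκ, u, hu, hy⟩ := exists_lin h (FR.Same.refl F) hf
    refine not_yhi_pow h hr hn G₁ M ?_
    have h1 := (hy.mul (hu.inv.1)).neg
    rw [zero_div, zero_sub] at h1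
    have h2 : -(u⁻¹ * -(u * G₁.z ^ M)) = G₁.z ^ M := by
      have := hu.2.1
      field_simp
    rwa [h2] at h1

/-- **Block Y** for real valuations. -/
theorem yStmt (k : Type u) [Field k] [IsAlgClosed k] (p : ℕ) [Fact p.Prime] [CharP k p] (n : ℕ)
    (hE : EmbAll k (n - 1)) : YStmt k p n := by
  have hinf : Infinite k := IsAlgClosed.instInfinite
  intro Ω _ _ _ v r D h hr hn F F₁ hs δ κ M hO hM
  exact yAux (row5b k) (row5b' k) (row5e k p (Fact.out)) (row5f k) h hr hn hE hs hO hM
    (ord_ne_zero h hr hn hO)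

end Pool.Agent.ALL
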