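import Pool.Agent.Lib.ALL5.Fr

/-!
# Frames with `d + 1` parameters over frames with `d` parameters: the steps in the last parameter
-/

set_option autoImplicit false

open Polynomial

namespace Pool.Agent.ALL

open Pool.Agent.H15JM (RVal)
open Pool.Agent.LU1 (VPos locv quo le_locv locv_inv locv_le locv_mono locv_adjoin_le le_quo
  val_add_vpos LatData)
open Pool.Agent.LU3 (MonD resv chi2 chi2_w_ne chi2_v_w chi2_monD chi2_mul chi2_eq)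

universe u

variable {k Ω : Type u} [Field k] [Field Ω] [Algebra k Ω] {v : RVal Ω} {n r d : ℕ}

namespace FR

/-- The last parameter. -/
def z (F : FR k v (d + 1)) : Ω := F.y (Fin.last d)

theorem z_ne (F : FR k v (d + 1)) : F.z ≠ 0 := F.y_ne _

theorem z_pos (F : FR k v (d + 1)) : 0 < v F.z := F.y_pos _

theorem z_mem (F : FR k v (d + 1)) : F.z ∈ F.R := F.y_mem _

theorem vpos_z {F : FR k v (d + 1)} : VPos v F.z := fun _ => F.z_pos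

theorem exists_pos' (F : FR k v (d + 1)) : ∃ δ ∈ F.Γ, 0 < δ := by
  obtain ⟨m, hm, h1⟩ := F.full F.z F.z_ne
  exact ⟨_, h1, mul_pos (by exact_mod_cast hm) F.z_pos⟩

/-- `x = ∑ y_i b_i + χ(δ) a`, `δ > 0`, the sum over all parameters but the last one. -/
def YHi (F : FR k v (d + 1)) (x : Ω) : Prop :=
  ∃ b : Fin d → Ω, (∀ i, b i ∈ F.R) ∧ ∃ δ ∈ F.Γ, 0 < δ ∧ ∃ a ∈ F.R,
    x = (∑ i, F.y i.castSucc * b i) + F.χ δ * a

variable {F : FR k v (d + 1)}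

theorem YHi.zero (F : FR k v (d + 1)) : F.YHi 0 := by
  obtain ⟨δ, hδ, h0⟩ := F.exists_pos'
  exact ⟨0, fun _ => F.R.zero_mem, δ, hδ, h0, 0, F.R.zero_mem, by simp⟩

theorem YHi.add {x x' : Ω} (hx : F.YHi x) (hx' : F.YHi x') : F.YHi (x + x') := by
  obtain ⟨b, hb, δ, hδ, h0, a, ha, rfl⟩ := hx
  obtain ⟨b', hb', δ', hδ', h0', a', ha', rfl⟩ := hx'
  rcases le_total δ δ' with hle | hle
  · obtain ⟨e, he, h2⟩ := F.χ_dvd hδ' hδ hle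
    refine ⟨fun i => b i + b' i, fun i => F.R.add_mem (hb i) (hb' i), δ, hδ, h0, a + e * a',
      F.R.add_mem ha (F.R.mul_mem he ha'), ?_⟩
    simp only [mul_add, Finset.sum_add_distrib]
    rw [h2]; ring
  · obtain ⟨e, he, h2⟩ := F.χ_dvd hδ hδ' hle
    refine ⟨fun i => b i + b' i, fun i => F.R.add_mem (hb i) (hb' i), δ', hδ', h0', e * a + a',
      F.R.add_mem (F.R.mul_mem he ha) ha', ?_⟩
    simp only [mul_add, Finset.sum_add_distrib]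
    rw [h2]; ring

theorem YHi.mul {x c : Ω} (hx : F.YHi x) (hc : c ∈ F.R) : F.YHi (c * x) := by
  obtain ⟨b, hb, δ, hδ, h0, a, ha, rfl⟩ := hx
  refine ⟨fun i => c * b i, fun i => F.R.mul_mem hc (hb i), δ, hδ, h0, c * a,
    F.R.mul_mem hc ha, ?_⟩
  rw [mul_add, Finset.mul_sum]
  congr 1
  · exact Finset.sum_congr rfl fun i _ => by ring
  · ring

theorem YHi.neg {x : Ω} (hx : F.YHi x) : F.YHi (-x) := by
  have := hx.mul (F.R.neg_mem F.R.one_mem)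
  rwa [neg_one_mul] at this

theorem YHi.sub {x x' : Ω} (hx : F.YHi x) (hx' : F.YHi x') : F.YHi (x - x') := by
  rw [sub_eq_add_neg]; exact hx.add hx'.neg

theorem YHi.sum {ι : Type*} (s : Finset ι) (f : ι → Ω) (h : ∀ i ∈ s, F.YHi (f i)) :
    F.YHi (∑ i ∈ s, f i) := by
  classical
  induction s using Finset.induction_on with
  | empty => simpa using YHi.zero F
  | insert a s ha ih =>
    rw [Finset.sum_insert ha]
    exact (h a (Finset.mem_insert_self a s)).add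
      (ih fun i hi => h i (Finset.mem_insert_of_mem hi))

theorem YHi.χ {γ : ℝ} (h : γ ∈ F.Γ) (h0 : 0 < γ) {a : Ω} (ha : a ∈ F.R) :
    F.YHi (F.χ γ * a) :=
  ⟨0, fun _ => F.R.zero_mem, γ, h, h0, a, ha, by simp⟩

theorem YHi.y (i : Fin d) {b : Ω} (hb : b ∈ F.R) : F.YHi (F.y i.castSucc * b) := by
  classical
  obtain ⟨δ, hδ, h0⟩ := F.exists_pos'
  refine ⟨fun j => if j = i then b else 0, fun j => ?_, δ, hδ, h0, 0, F.R.zero_mem, ?_⟩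
  · dsimp only
    split_ifs
    · exact hb
    · exact F.R.zero_mem
  · simp

theorem YHi.mem {x : Ω} (hx : F.YHi x) : x ∈ F.R := by
  obtain ⟨b, hb, δ, hδ, h0, a, ha, rfl⟩ := hx
  exact F.R.add_mem (F.R.sum_mem fun i _ => F.R.mul_mem (F.y_mem _) (hb i))
    (F.R.mul_mem (F.χ_mem _ hδ h0.le) ha)

theorem YHi.vpos {x : Ω} (hx : F.YHi x) : VPos v x := by
  obtain ⟨b, hb, δ, hδ, h0, a, ha, rfl⟩ := hx
  exact (vpos_sum _ _ fun i _ => (F.vpos_y _).mul (F.nonneg _ (hb i))).add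
    ((vpos_χ hδ h0).mul (F.nonneg a ha))

/-- `f = χ(κ) (u z^m + ∑ y_i b_i + χ(δ) a)`, `u` a unit, `δ > 0`: the content of `f` is `κ`, its
order in `z` modulo the other parameters is `m`. -/
def ZRep (F : FR k v (d + 1)) (f : Ω) (κ : ℝ) (m : ℕ) : Prop :=
  κ ∈ F.Γ ∧ ∃ u, F.Un u ∧ F.YHi (f / F.χ κ - u * F.z ^ m)

/-- An element of order `0` is a monomial. -/
theorem ZRep.mono_zero {f : Ω} {κ : ℝ} (h : F.ZRep f κ 0) : F.Mono f := by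
  obtain ⟨hκ, u, hu, hy⟩ := h
  rw [pow_zero, mul_one] at hy
  refine mono_iff.2 ⟨κ, hκ, f / F.χ κ, ?_, by rw [mul_div_cancel₀ _ (F.χ_ne κ hκ)]⟩
  have := hu.add_vpos hy.mem hy.vpos
  rwa [add_sub_cancel] at this

end FR

/-! ### frames over frames -/

section Over

variable {Ω₀ : IntermediateField k Ω}

theorem vpos_coe {f : Ω₀} : VPos (resv v Ω₀) f ↔ VPos v (f : Ω) :=
  ⟨fun h h0 => h fun h1 => h0 (by rw [h1]; rfl), fun h h0 => h fun h1 => h0 (Subtype.ext h1)⟩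

theorem ge_coe {f : Ω₀} {c : ℝ} (h : (resv v Ω₀).Ge c f) : v.Ge c (f : Ω) :=
  fun h0 => h fun h1 => h0 (by rw [h1]; rfl)

theorem coe_ne {f : Ω₀} (h : f ≠ 0) : (f : Ω) ≠ 0 := fun h0 => h (Subtype.ext h0)

theorem coe_monD (S : FR k (resv v Ω₀) d) : MonD v S.Γ fun γ => ((S.χ γ : Ω₀) : Ω) := by
  refine ⟨fun γ hγ h0 => S.χ_ne γ hγ (Subtype.ext h0), fun γ hγ δ hδ => ?_, fun γ hγ => ?_⟩
  · rw [S.χ_add γ hγ δ hδ]; rfl
  · exact S.χ_val γ hγ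

/-- The frame `F` (with `d + 1` parameters) lies over the frame `S` (with `d` parameters) of a
subfield, with the same monomials and the same first parameters. -/
structure Base (F : FR k v (d + 1)) (S : FR k (resv v Ω₀) d) : Prop where
  Γ_eq : F.Γ = S.Γ
  χ_eq : ∀ γ ∈ S.Γ, F.χ γ = (S.χ γ : Ω)
  y_eq : ∀ i : Fin d, F.y i.castSucc = (S.y i : Ω)
  mem : ∀ f ∈ S.R, (f : Ω) ∈ F.R

/-- The frame `F'` lies over the frame `S'`. -/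
structure Ov (F' : FR k v (d + 1)) (S' : FR k (resv v Ω₀) d) : Prop where
  mem : ∀ f ∈ S'.R, (f : Ω) ∈ F'.R
  mono : ∀ f : Ω₀, S'.Mono f → F'.Mono (f : Ω)
  un : ∀ f : Ω₀, S'.Un f → F'.Un (f : Ω)
  yhi : ∀ f ∈ S'.R, VPos (resv v Ω₀) f → F'.YHi (f : Ω)

theorem ov_of {F' : FR k v (d + 1)} {S' : FR k (resv v Ω₀) d}
    (hmem : ∀ f ∈ S'.R, (f : Ω) ∈ F'.R)
    (hΓ : ∀ γ ∈ S'.Γ, γ ∈ F'.Γ) (hχ : ∀ γ ∈ S'.Γ, F'.Un (((S'.χ γ : Ω₀) : Ω) / F'.χ γ))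
    (hy : ∀ i : Fin d, F'.y i.castSucc = (S'.y i : Ω)) : Ov F' S' := by
  have h1 : ∀ γ ∈ S'.Γ, ((S'.χ γ : Ω₀) : Ω) = F'.χ γ * (((S'.χ γ : Ω₀) : Ω) / F'.χ γ) :=
    fun γ hγ => by rw [mul_div_cancel₀ _ (F'.χ_ne _ (hΓ γ hγ))]
  have hun : ∀ f : Ω₀, S'.Un f → F'.Un (f : Ω) := fun f hf =>
    ⟨hmem f hf.1, coe_ne hf.2.1, hf.2.2⟩
  refine ⟨hmem, fun f hf => ?_, hun, fun f hf hv => ?_⟩
  · obtain ⟨γ, hγ, u, hu, rfl⟩ := FR.mono_iff.1 hf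
    refine FR.mono_iff.2 ⟨γ, hΓ γ hγ, (((S'.χ γ : Ω₀) : Ω) / F'.χ γ) * (u : Ω),
      (hχ γ hγ).mul (hun u hu), ?_⟩
    rw [← mul_assoc, ← h1 γ hγ]; rfl
  · obtain ⟨γ, hγ, h0, a, ha, b, hb, rfl⟩ := S'.gen f hf hv
    have h2 : ((S'.χ γ * a + ∑ i, S'.y i * b i : Ω₀) : Ω) =
        F'.χ γ * ((((S'.χ γ : Ω₀) : Ω) / F'.χ γ) * (a : Ω)) +
          ∑ i, F'.y i.castSucc * (b i : Ω) := by
      rw [← mul_assoc, ← h1 γ hγ]
      simp only [hy]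
      push_cast
      rfl
    rw [h2]
    exact (FR.YHi.χ (hΓ γ hγ) h0 (F'.R.mul_mem (hχ γ hγ).1 (hmem a ha))).add
      (FR.YHi.sum _ _ fun i _ => FR.YHi.y i (hmem _ (hb i)))

theorem Base.ov {F : FR k v (d + 1)} {S : FR k (resv v Ω₀) d} (h : Base F S) : Ov F S := by
  refine ov_of h.mem (fun γ hγ => by rw [h.Γ_eq]; exact hγ) (fun γ hγ => ?_) h.y_eq
  rw [h.χ_eq γ hγ, div_self (coe_ne (S.χ_ne γ hγ))]
  exact FR.Un.one

theorem coe_den {F F' : FR k v (d + 1)} {S S' : FR k (resv v Ω₀) d} (hF : Base F S)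
    (hF' : Ov F' S') (hS : S.Le S') : ∀ f ∈ S'.R, (f : Ω) ∈ Den F.R F' := by
  intro f hf
  obtain ⟨a, ha, b, hb, hbm, rfl⟩ := hS.den f hf
  exact ⟨a, hF.mem a ha, b, hF.mem b hb, hF'.mono b hbm, rfl⟩

theorem coe_den_χ {F F' : FR k v (d + 1)} {S S' : FR k (resv v Ω₀) d} (hF : Base F S)
    (hF' : Ov F' S') (hS : S.Le S') {γ : ℝ} (hγ : γ ∈ S'.Γ) :
    ((S'.χ γ : Ω₀) : Ω) ∈ Den F.R F' := by
  rcases le_total 0 γ with h0 | h0
  · exact coe_den hF hF' hS _ (S'.χ_mem γ hγ h0)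
  · have h1 := coe_den hF hF' hS _ (S'.χ_mem (-γ) (S'.Γ.neg_mem hγ) (neg_nonneg.2 h0))
    have h2 := den_inv h1 (hF'.mono _ (FR.Mono.χ (S'.Γ.neg_mem hγ)))
    have h3 : ((S'.χ γ : Ω₀) : Ω) = ((S'.χ (-γ) : Ω₀) : Ω)⁻¹ := by
      rw [S'.χ_neg hγ, IntermediateField.coe_inv, inv_inv]
    rw [h3]; exact h2

/-- The ring of the new frame. -/
def nR (F : FR k v (d + 1)) (S' : FR k (resv v Ω₀) d) (Γ' : AddSubgroup ℝ) (X' : ℝ → Ω)
    (z' : Ω) : Subalgebra k Ω :=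
  locv v (Algebra.adjoin k ((F.R : Set Ω) ∪ (fun f : Ω₀ => (f : Ω)) '' (S'.R : Set Ω₀) ∪
    X' '' {γ | γ ∈ Γ' ∧ 0 ≤ γ} ∪ {z'}))

section nR

variable {F : FR k v (d + 1)} {S S' : FR k (resv v Ω₀) d} {Γ' : AddSubgroup ℝ} {X' : ℝ → Ω}
  {z' : Ω}

theorem nR_le {f : Ω} (hf : f ∈ F.R) : f ∈ nR F S' Γ' X' z' :=
  le_locv _ (Algebra.subset_adjoin (Or.inl (Or.inl (Or.inl hf))))

theorem nR_coe {f : Ω₀} (hf : f ∈ S'.R) : (f : Ω) ∈ nR F S' Γ' X' z' :=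
  le_locv _ (Algebra.subset_adjoin (Or.inl (Or.inl (Or.inr ⟨f, hf, rfl⟩))))

theorem nR_χ {γ : ℝ} (hγ : γ ∈ Γ') (h0 : 0 ≤ γ) : X' γ ∈ nR F S' Γ' X' z' :=
  le_locv _ (Algebra.subset_adjoin (Or.inl (Or.inr ⟨γ, ⟨hγ, h0⟩, rfl⟩)))

theorem nR_z : z' ∈ nR F S' Γ' X' z' :=
  le_locv _ (Algebra.subset_adjoin (Or.inr rfl))

theorem nR_inv {f : Ω} (hf : f ∈ nR F S' Γ' X' z') (h0 : f ≠ 0) (h1 : v f = 0) :
    f⁻¹ ∈ nR F S' Γ' X' z' := locv_inv hf h0 h1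

/-- The construction of the new frame. -/
theorem exists_step (h2 : TA.CtxR k v n r) (hF : Base F S) (hS : S.Le S')
    (hX : MonD v Γ' X') (fg : Γ'.FG) (hΓ : ∀ γ ∈ S'.Γ, γ ∈ Γ') (hz0 : z' ≠ 0) (hz' : 0 < v z')
    (hu : ∀ γ ∈ S'.Γ, ∀ T : Subalgebra k Ω, z' ∈ T →
      (∀ f ∈ T, f ≠ 0 → v f = 0 → f⁻¹ ∈ T) → ((S'.χ γ : Ω₀) : Ω) / X' γ ∈ T)
    (hz : (∃ ψ ∈ S'.R, VPos (resv v Ω₀) ψ ∧ ∃ γ ∈ Γ', 0 < γ ∧ ∃ a ∈ nR F S' Γ' X' z',
      F.z = (ψ : Ω) + X' γ * a))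
    (dχ : ∀ F' : FR k v (d + 1), Ov F' S' → F'.R = nR F S' Γ' X' z' → F'.Γ = Γ' →
      (F'.χ = X') → ∀ γ ∈ Γ', 0 ≤ γ → X' γ ∈ Den F.R F')
    (dz : ∀ F' : FR k v (d + 1), Ov F' S' → F'.R = nR F S' Γ' X' z' → F'.Γ = Γ' →
      (F'.χ = X') → z' ∈ Den F.R F') :
    ∃ F' : FR k v (d + 1), F.Le F' ∧ Ov F' S' ∧ F'.Γ = Γ' ∧ F'.χ = X' ∧
      (∀ i : Fin d, F'.y i.castSucc = (S'.y i : Ω)) ∧ F'.z = z' ∧
      F'.R = nR F S' Γ' X' z' := by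
  classical
  set R' := nR F S' Γ' X' z' with hR'
  set y' : Fin (d + 1) → Ω := Fin.snoc (α := fun _ => Ω) (fun i => ((S'.y i : Ω₀) : Ω)) z'
    with hy'
  have hy1 : ∀ i : Fin d, y' i.castSucc = (S'.y i : Ω) := fun i => by
    rw [hy', Fin.snoc_castSucc]
  have hy2 : y' (Fin.last d) = z' := by rw [hy', Fin.snoc_last]
  have hFΓ : ∀ γ ∈ F.Γ, γ ∈ Γ' := fun γ hγ =>
    hΓ γ (hS.Γ_le γ (by rw [← hF.Γ_eq]; exact hγ))
  have hinv : ∀ f ∈ R', f ≠ 0 → v f = 0 → f⁻¹ ∈ R' := fun f hf h0 h1 => nR_inv hf h0 h1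
  have huR : ∀ γ ∈ S'.Γ, ((S'.χ γ : Ω₀) : Ω) / X' γ ∈ R' := fun γ hγ => hu γ hγ R' nR_z hinv
  have hχX : ∀ γ ∈ S'.Γ, ((S'.χ γ : Ω₀) : Ω) = X' γ * (((S'.χ γ : Ω₀) : Ω) / X' γ) :=
    fun γ hγ => by rw [mul_div_cancel₀ _ (hX.ne _ (hΓ γ hγ))]
  have hgen : ∀ f ∈ ((F.R : Set Ω) ∪ (fun f : Ω₀ => (f : Ω)) '' (S'.R : Set Ω₀) ∪
      X' '' {γ | γ ∈ Γ' ∧ 0 ≤ γ} ∪ {z'}), v.Ge 0 f := by
    rintro f (((hf | ⟨g, hg, rfl⟩) | ⟨γ, ⟨hγ, h0⟩, rfl⟩) | rfl)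
    · exact F.nonneg f hf
    · exact ge_coe (S'.nonneg g hg)
    · intro _; rw [hX.val γ hγ]; exact h0
    · exact fun _ => hz'.le
  have H : Pre v Γ' X' y' R' := by
    refine ⟨?_, hX, fun i => ?_, fun i => ?_, ?_, hinv, fun γ hγ h0 => nR_χ hγ h0, fun i => ?_⟩
    · obtain ⟨δ, hδ, h0⟩ := F.exists_pos'
      exact ⟨δ, hFΓ δ hδ, h0⟩
    · refine Fin.lastCases ?_ (fun i => ?_) i
      · rw [hy2]; exact hz0
      · rw [hy1]; exact coe_ne (S'.y_ne i)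
    · refine Fin.lastCases ?_ (fun i => ?_) i
      · rw [hy2]; exact hz'
      · rw [hy1]; exact S'.y_pos i
    · exact LU1.locv_nonneg (ctx_adjoin_nonneg h2 hgen)
    · refine Fin.lastCases ?_ (fun i => ?_) i
      · rw [hy2]; exact nR_z
      · rw [hy1]; exact nR_coe (S'.y_mem i)
  -- the elements of `S'` of positive value
  have hMS : ∀ f ∈ S'.R, VPos (resv v Ω₀) f → MM Γ' X' y' R' (f : Ω) := by
    intro f hf hv
    obtain ⟨γ, hγ, h0, a, ha, b, hb, rfl⟩ := S'.gen f hf hv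
    have h3 : ((S'.χ γ * a + ∑ i, S'.y i * b i : Ω₀) : Ω) =
        X' γ * ((((S'.χ γ : Ω₀) : Ω) / X' γ) * (a : Ω)) +
          ∑ i : Fin d, y' i.castSucc * (b i : Ω) := by
      rw [← mul_assoc, ← hχX γ hγ]
      simp only [hy1]
      push_cast
      rfl
    rw [h3]
    exact H.mm_add (H.mm_χ (hΓ γ hγ) h0 (R'.mul_mem (huR γ hγ) (nR_coe ha)))
      (H.mm_sum _ _ fun i _ => H.mm_y i.castSucc (nR_coe (hb i)))
  have hRS : ∀ f ∈ S'.R, Pre.Res Γ' X' y' R' (f : Ω) := by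
    intro f hf
    have h0 : v.Ge 0 (f : Ω) := ge_coe (S'.nonneg f hf)
    obtain ⟨c, hc⟩ := ctx_residue h2 h0
    refine ⟨c, ?_⟩
    have h1 := hMS (f - algebraMap k Ω₀ c) (S'.R.sub_mem hf (S'.R.algebraMap_mem c))
      (vpos_coe.2 hc)
    exact h1
  have hMz : MM Γ' X' y' R' F.z := by
    obtain ⟨ψ, hψ, hψv, γ, hγ, h0, a, ha, h1⟩ := hz
    rw [h1]
    exact H.mm_add (hMS ψ hψ hψv) (H.mm_χ hγ h0 ha)
  have hRF : ∀ f ∈ F.R, Pre.Res Γ' X' y' R' f := by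
    intro f hf
    obtain ⟨c, hc, hcR⟩ := F.exists_const h2 hf
    refine ⟨c, ?_⟩
    obtain ⟨γ, hγ, h0, a, ha, b, hb, h1⟩ := F.gen _ hcR hc
    rw [h1, Fin.sum_univ_castSucc]
    have hγS : γ ∈ S.Γ := by rw [← hF.Γ_eq]; exact hγ
    have hγS' := hS.Γ_le γ hγS
    refine H.mm_add ?_ (H.mm_add (H.mm_sum _ _ fun i _ => ?_) ?_)
    · have h3 : F.χ γ = X' γ * ((((S'.χ γ : Ω₀) : Ω) / X' γ) *
          ((S.χ γ / S'.χ γ : Ω₀) : Ω)) := by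
        rw [← mul_assoc, ← hχX γ hγS', hF.χ_eq γ hγS, IntermediateField.coe_div,
          mul_div_cancel₀ _ (coe_ne (S'.χ_ne γ hγS'))]
      rw [h3, mul_assoc]
      exact H.mm_χ (hΓ γ hγS') h0 (R'.mul_mem (R'.mul_mem (huR γ hγS')
        (nR_coe (hS.χ_un γ hγS).1)) (nR_le ha))
    · rw [hF.y_eq i]
      exact H.mm_mul (hMS _ (hS.le (S.y_mem i)) fun _ => S.y_pos i) (nR_le (hb _))
    · exact H.mm_mul hMz (nR_le (hb _))
  have hall : ∀ f ∈ ((F.R : Set Ω) ∪ (fun f : Ω₀ => (f : Ω)) '' (S'.R : Set Ω₀) ∪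
      X' '' {γ | γ ∈ Γ' ∧ 0 ≤ γ} ∪ {z'}), Pre.Res Γ' X' y' R' f := by
    rintro f (((hf | ⟨g, hg, rfl⟩) | ⟨γ, ⟨hγ, h0⟩, rfl⟩) | rfl)
    · exact hRF f hf
    · exact hRS g hg
    · rcases h0.lt_or_eq with h1 | h1
      · have h3 := H.mm_χ hγ h1 R'.one_mem
        rw [mul_one] at h3
        exact H.res_of_mm h3
      · rw [← h1, hX.zero, ← map_one (algebraMap k Ω)]
        exact H.res_const 1
    · have h3 := H.mm_y (Fin.last d) R'.one_mem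
      rw [mul_one, hy2] at h3
      exact H.res_of_mm h3
  have hfgen : ∃ G : Finset Ω,
      R' = locv v (Algebra.adjoin k ((G : Set Ω) ∪ X' '' {γ | γ ∈ Γ' ∧ 0 ≤ γ})) := by
    obtain ⟨G1, hG1⟩ := F.fgen
    obtain ⟨G2, hG2⟩ := S'.fgen
    refine ⟨G1 ∪ G2.image (fun f : Ω₀ => (f : Ω)) ∪ {z'}, ?_⟩
    set T := locv v (Algebra.adjoin k (((G1 ∪ G2.image (fun f : Ω₀ => (f : Ω)) ∪ {z'} :
      Finset Ω) : Set Ω) ∪ X' '' {γ | γ ∈ Γ' ∧ 0 ≤ γ})) with hT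
    have hTi : ∀ f ∈ T, f ≠ 0 → v f = 0 → f⁻¹ ∈ T := fun f hf h0 h1 => locv_inv hf h0 h1
    have hTz : z' ∈ T := le_locv _ (Algebra.subset_adjoin (Or.inl (by simp)))
    have hTχ : ∀ γ ∈ Γ', 0 ≤ γ → X' γ ∈ T := fun γ hγ h0 =>
      le_locv _ (Algebra.subset_adjoin (Or.inr ⟨γ, ⟨hγ, h0⟩, rfl⟩))
    have hTS : ∀ f ∈ S'.R, (f : Ω) ∈ T := by
      have key : ∀ f ∈ Algebra.adjoin k ((G2 : Set Ω₀) ∪ S'.χ '' {γ | γ ∈ S'.Γ ∧ 0 ≤ γ}),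
          (f : Ω) ∈ T := by
        intro f hf
        induction hf using Algebra.adjoin_induction with
        | mem x hx =>
          rcases hx with hx | ⟨γ, ⟨hγ, h0⟩, rfl⟩
          · refine le_locv _ (Algebra.subset_adjoin (Or.inl ?_))
            simp only [Finset.coe_union, Finset.coe_image, Finset.coe_singleton]
            exact Or.inl (Or.inr ⟨x, hx, rfl⟩)
          · rw [hχX γ hγ]
            exact T.mul_mem (hTχ γ (hΓ γ hγ) h0) (hu γ hγ T hTz hTi)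
        | algebraMap c => exact T.algebraMap_mem c
        | add x y _ _ hx hy => exact T.add_mem hx hy
        | mul x y _ _ hx hy => exact T.mul_mem hx hy
      intro f hf
      rw [hG2] at hf
      obtain ⟨a, ha, b, hb, hb0, hvb, rfl⟩ := hf
      have h1 : ((a / b : Ω₀) : Ω) = (a : Ω) * (b : Ω)⁻¹ := by
        rw [div_eq_mul_inv]; rfl
      rw [h1]
      exact T.mul_mem (key a ha) (hTi _ (key b hb) (coe_ne hb0) hvb)
    have hTF : F.R ≤ T := by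
      rw [hG1]
      refine locv_le (Algebra.adjoin_le ?_) hTi
      rintro f (hf | ⟨γ, ⟨hγ, h0⟩, rfl⟩)
      · refine le_locv _ (Algebra.subset_adjoin (Or.inl ?_))
        simp only [Finset.coe_union, Finset.coe_image, Finset.coe_singleton]
        exact Or.inl (Or.inl hf)
      · have hγS : γ ∈ S.Γ := by rw [← hF.Γ_eq]; exact hγ
        rw [SetLike.mem_coe, hF.χ_eq γ hγS]
        exact hTS _ (hS.le (S.χ_mem γ hγS h0))
    refine le_antisymm (locv_le (Algebra.adjoin_le ?_) hTi)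
      (locv_le (Algebra.adjoin_le ?_) hinv)
    · rintro f (((hf | ⟨g, hg, rfl⟩) | ⟨γ, ⟨hγ, h0⟩, rfl⟩) | rfl)
      · exact hTF hf
      · exact hTS g hg
      · exact hTχ γ hγ h0
      · exact hTz
    · rintro f (hf | ⟨γ, ⟨hγ, h0⟩, rfl⟩)
      · simp only [Finset.coe_union, Finset.coe_image, Finset.coe_singleton] at hf
        rcases hf with (hf | ⟨g, hg, rfl⟩) | rfl
        · have h1 : f ∈ F.R := by
            rw [hG1]
            exact le_locv _ (Algebra.subset_adjoin (Or.inl hf))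
          exact nR_le h1
        · have h1 : g ∈ S'.R := by
            rw [hG2]
            exact le_locv _ (Algebra.subset_adjoin (Or.inl hg))
          exact nR_coe h1
        · exact nR_z
      · exact nR_χ hγ h0
  have hle : F.R ≤ R' := fun f hf => nR_le hf
  let F' : FR k v (d + 1) := mkFR H
    (fun g hg => by
      obtain ⟨m, hm, h1⟩ := F.full g hg
      exact ⟨m, hm, hFΓ _ h1⟩) fg rfl hall h2.triv hfgen
    (fun g => LU1.isAlgebraic_of_le hle (F.alg g))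
  have huU : ∀ γ ∈ S'.Γ, F'.Un (((S'.χ γ : Ω₀) : Ω) / F'.χ γ) := fun γ hγ => by
    refine ⟨huR γ hγ, div_ne_zero (coe_ne (S'.χ_ne γ hγ)) (hX.ne γ (hΓ γ hγ)), ?_⟩
    change v (((S'.χ γ : Ω₀) : Ω) / X' γ) = 0
    rw [v.map_div (coe_ne (S'.χ_ne γ hγ)) (hX.ne γ (hΓ γ hγ)), hX.val γ (hΓ γ hγ)]
    have h3 : v ((S'.χ γ : Ω₀) : Ω) = γ := S'.χ_val γ hγ
    rw [h3, sub_self]
  have hov : Ov F' S' := ov_of (fun f hf => nR_coe hf) hΓ huU hy1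
  refine ⟨F', ⟨hle, hFΓ, fun γ hγ => ?_, ?_⟩, hov, rfl, rfl, hy1, hy2, rfl⟩
  · have hγS : γ ∈ S.Γ := by rw [← hF.Γ_eq]; exact hγ
    have h3 := (hov.un _ (hS.χ_un γ hγS)).mul (huU γ (hS.Γ_le γ hγS))
    rwa [IntermediateField.coe_div, div_mul_div_cancel₀ (coe_ne (S'.χ_ne γ (hS.Γ_le γ hγS))),
      ← hF.χ_eq γ hγS] at h3
  · refine den_all (F' := F') rfl ?_
    rintro f (((hf | ⟨g, hg, rfl⟩) | ⟨γ, ⟨hγ, h0⟩, rfl⟩) | rfl)
    · exact le_den hf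
    · exact coe_den hF hov hS g hg
    · exact dχ F' hov rfl rfl rfl γ hγ h0
    · exact dz F' hov rfl rfl rfl

end nR

end Over

end Pool.Agent.ALL
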